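import Pool.Agent.CR53.Defs

/-! Independence, laws of the counts, mixtures. -/

set_option autoImplicit false

namespace Pool.Agent.CR53

open MeasureTheory ProbabilityTheory Filter Topology Finset

variable {Ω : Type*} [mΩ : MeasurableSpace Ω] {μ : Measure Ω} {E : ℕ → Set Ω}

/-- The σ-algebra generated by the events with index in `S`. -/
def sig (E : ℕ → Set Ω) (S : Set ℕ) : MeasurableSpace Ω :=
  ⨆ m ∈ S, MeasurableSpace.generateFrom {E m}

lemma sig_le (hE : ∀ m, MeasurableSet (E m)) (S : Set ℕ) : sig E S ≤ mΩ := by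
  refine iSup₂_le fun m _ => MeasurableSpace.generateFrom_le ?_
  rintro _ rfl
  exact hE m

omit mΩ in
lemma sig_mono {S T : Set ℕ} (h : S ⊆ T) : sig E S ≤ sig E T := biSup_mono fun _ hi => h hi

lemma sig_indep (hE : ∀ m, MeasurableSet (E m)) (hi : iIndepSet E μ) {S T : Set ℕ}
    (h : Disjoint S T) : Indep (sig E S) (sig E T) μ := by
  refine indep_iSup_of_disjoint (fun m => MeasurableSpace.generateFrom_le ?_)
    ((iIndepSet_iff_iIndep _ _).1 hi) h
  rintro _ rfl
  exact hE m

omit mΩ in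
lemma meas_E {S : Set ℕ} {m : ℕ} (h : m ∈ S) : MeasurableSet[sig E S] (E m) := by
  have h1 : MeasurableSpace.generateFrom {E m} ≤ sig E S :=
    le_iSup₂ (f := fun m (_ : m ∈ S) => MeasurableSpace.generateFrom {E m}) m h
  exact h1 _ (MeasurableSpace.measurableSet_generateFrom (Set.mem_singleton _))

lemma ind_meas {Ω' β : Type*} [MeasurableSpace β] [Zero β] {m : MeasurableSpace Ω'} {A : Set Ω'}
    (hA : MeasurableSet A) (c : β) : Measurable (A.indicator (fun _ => c)) :=
  measurable_const.indicator hA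

/-- number of events of `B` that occur -/
noncomputable def cnt (E : ℕ → Set Ω) (B : Finset ℕ) (ω : Ω) : ℕ :=
  ∑ m ∈ B, (E m).indicator (fun _ => 1) ω

omit mΩ in
lemma cnt_le (B : Finset ℕ) (ω : Ω) : cnt E B ω ≤ B.card := by
  unfold cnt
  refine (sum_le_card_nsmul B _ 1 fun m _ => ?_).trans (by simp)
  exact Set.indicator_apply_le' (fun _ => le_refl 1) (fun _ => by norm_num)

omit mΩ in
lemma cnt_meas {S : Set ℕ} {B : Finset ℕ} (h : ∀ m ∈ B, m ∈ S) :
    Measurable[sig E S] (cnt E B) := by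
  unfold cnt
  refine @Finset.measurable_fun_sum _ _ _ _ _ _ (sig E S) _ _ fun m hm => ?_
  exact ind_meas (m := sig E S) (meas_E (h m hm)) 1

omit mΩ in
lemma cnt_mem {B : Finset ℕ} {m : ℕ} (hm : m ∈ B) {ω : Ω} (h : ω ∈ E m) :
    cnt E B ω = cnt E (B.erase m) ω + 1 := by
  unfold cnt
  rw [← add_sum_erase B _ hm, Set.indicator_of_mem h, add_comm]

omit mΩ in
lemma cnt_notMem {B : Finset ℕ} {m : ℕ} (hm : m ∈ B) {ω : Ω} (h : ω ∉ E m) :
    cnt E B ω = cnt E (B.erase m) ω := by
  unfold cnt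
  rw [← add_sum_erase B _ hm, Set.indicator_of_notMem h, zero_add]

lemma sum_real_inter [IsProbabilityMeasure μ] (hE : ∀ m, MeasurableSet (E m)) (B : Finset ℕ)
    {A : Set Ω} (hA : MeasurableSet A) {i : ℕ} (h : ∀ ω ∈ A, cnt E B ω = i) :
    ∑ m ∈ B, μ.real (E m ∩ A) = i * μ.real A := by
  have h1 : ∀ m ∈ B, μ.real (E m ∩ A) = ∫ ω, (E m ∩ A).indicator (fun _ => (1 : ℝ)) ω ∂μ := by
    intro m _
    rw [integral_indicator ((hE m).inter hA)]
    simp
  rw [sum_congr rfl h1, ← integral_finsetSum B]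
  · have h2 : ∀ ω, ∑ m ∈ B, (E m ∩ A).indicator (fun _ => (1 : ℝ)) ω
        = A.indicator (fun _ => (i : ℝ)) ω := by
      intro ω
      by_cases hω : ω ∈ A
      · rw [Set.indicator_of_mem hω, ← h ω hω]
        unfold cnt
        push_cast
        refine sum_congr rfl fun m _ => ?_
        by_cases hm : ω ∈ E m
        · rw [Set.indicator_of_mem (show ω ∈ E m ∩ A from ⟨hm, hω⟩), Set.indicator_of_mem hm]
          norm_num
        · rw [Set.indicator_of_notMem (fun hh => hm hh.1), Set.indicator_of_notMem hm]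
          norm_num
      · rw [Set.indicator_of_notMem hω]
        refine sum_eq_zero fun m _ => ?_
        rw [Set.indicator_of_notMem (fun hh => hω hh.2)]
    simp only [h2]
    rw [integral_indicator hA]
    simp [mul_comm]
  · intro m _
    exact (integrable_const (1 : ℝ)).indicator ((hE m).inter hA)

/-- the law of `cnt E B` -/
noncomputable def law (μ : Measure Ω) (E : ℕ → Set Ω) (B : Finset ℕ) (i : ℕ) : ℝ :=
  μ.real {ω | cnt E B ω = i}

lemma cnt_meas' (hE : ∀ m, MeasurableSet (E m)) (B : Finset ℕ) : Measurable (cnt E B) := by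
  have h := cnt_meas (E := E) (S := Set.univ) (B := B) (fun m _ => Set.mem_univ m)
  exact h.mono (sig_le hE _) le_rfl

lemma measSet_cnt (hE : ∀ m, MeasurableSet (E m)) (B : Finset ℕ) (i : ℕ) :
    MeasurableSet {ω | cnt E B ω = i} :=
  (cnt_meas' hE B) (measurableSet_singleton i)

lemma law_mem [IsProbabilityMeasure μ] (hE : ∀ m, MeasurableSet (E m)) (hi : iIndepSet E μ)
    {B : Finset ℕ} {m : ℕ} (hm : m ∈ B) (i : ℕ) :
    μ.real (E m ∩ {ω | cnt E B ω = i + 1}) = μ.real (E m) * law μ E (B.erase m) i := by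
  have e : E m ∩ {ω | cnt E B ω = i + 1} = E m ∩ {ω | cnt E (B.erase m) ω = i} := by
    ext ω
    constructor
    · rintro ⟨h1, h2⟩
      refine ⟨h1, ?_⟩
      have h3 : cnt E B ω = i + 1 := h2
      rw [cnt_mem hm h1] at h3
      exact Nat.succ_injective h3
    · rintro ⟨h1, h2⟩
      refine ⟨h1, ?_⟩
      have h3 : cnt E (B.erase m) ω = i := h2
      show cnt E B ω = i + 1
      rw [cnt_mem hm h1, h3]
  rw [e]
  have hind := sig_indep hE hi (S := {m}) (T := ((B.erase m : Finset ℕ) : Set ℕ))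
    (by rw [Set.disjoint_singleton_left]; simp)
  have h4 := (Indep_iff _ _ _).1 hind (E m) {ω | cnt E (B.erase m) ω = i}
    (meas_E (Set.mem_singleton m))
    ((cnt_meas (S := ((B.erase m : Finset ℕ) : Set ℕ)) (fun m hm => hm))
      (measurableSet_singleton i))
  unfold law
  rw [Measure.real, h4, ENNReal.toReal_mul]
  rfl

lemma law_notMem [IsProbabilityMeasure μ] (hE : ∀ m, MeasurableSet (E m)) (hi : iIndepSet E μ)
    {B : Finset ℕ} {m : ℕ} (hm : m ∈ B) (i : ℕ) :
    μ.real ((E m)ᶜ ∩ {ω | cnt E B ω = i}) = (1 - μ.real (E m)) * law μ E (B.erase m) i := by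
  have e : (E m)ᶜ ∩ {ω | cnt E B ω = i} = (E m)ᶜ ∩ {ω | cnt E (B.erase m) ω = i} := by
    ext ω
    constructor
    · rintro ⟨h1, h2⟩
      refine ⟨h1, ?_⟩
      have h3 : cnt E B ω = i := h2
      rw [cnt_notMem hm h1] at h3
      exact h3
    · rintro ⟨h1, h2⟩
      refine ⟨h1, ?_⟩
      have h3 : cnt E (B.erase m) ω = i := h2
      show cnt E B ω = i
      rw [cnt_notMem hm h1, h3]
  rw [e]
  have hind := sig_indep hE hi (S := {m}) (T := ((B.erase m : Finset ℕ) : Set ℕ))
    (by rw [Set.disjoint_singleton_left]; simp)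
  have h4 := (Indep_iff _ _ _).1 hind (E m)ᶜ {ω | cnt E (B.erase m) ω = i}
    (MeasurableSet.compl (meas_E (Set.mem_singleton m)))
    ((cnt_meas (S := ((B.erase m : Finset ℕ) : Set ℕ)) (fun m hm => hm))
      (measurableSet_singleton i))
  unfold law
  rw [Measure.real, h4, ENNReal.toReal_mul]
  have h5 : (μ (E m)ᶜ).toReal = 1 - μ.real (E m) := by
    have := probReal_compl_eq_one_sub (μ := μ) (hE m)
    exact this
  rw [h5]
  rfl

lemma law_succ [IsProbabilityMeasure μ] (hE : ∀ m, MeasurableSet (E m)) (hi : iIndepSet E μ)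
    (B : Finset ℕ) (i : ℕ) :
    ((i : ℝ) + 1) * law μ E B (i + 1) = ∑ m ∈ B, μ.real (E m) * law μ E (B.erase m) i := by
  have h := sum_real_inter (μ := μ) hE B (measSet_cnt hE B (i + 1)) (i := i + 1) (fun ω hω => hω)
  rw [sum_congr rfl fun m hm => law_mem hE hi hm i] at h
  rw [h]
  unfold law
  push_cast
  ring

lemma law_self [IsProbabilityMeasure μ] (hE : ∀ m, MeasurableSet (E m)) (hi : iIndepSet E μ)
    (B : Finset ℕ) (i : ℕ) :
    ((B.card : ℝ) - i) * law μ E B i
      = ∑ m ∈ B, (1 - μ.real (E m)) * law μ E (B.erase m) i := by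
  have h := sum_real_inter (μ := μ) hE B (measSet_cnt hE B i) (i := i) (fun ω hω => hω)
  rw [← sum_congr rfl fun m hm => law_notMem (μ := μ) hE hi hm i]
  have h2 : ∀ m ∈ B, μ.real ((E m)ᶜ ∩ {ω | cnt E B ω = i})
      = μ.real {ω | cnt E B ω = i} - μ.real (E m ∩ {ω | cnt E B ω = i}) := by
    intro m _
    have h3 := measureReal_inter_add_sdiff (μ := μ) (s := {ω | cnt E B ω = i}) (hE m)
    have e1 : (E m)ᶜ ∩ {ω | cnt E B ω = i} = {ω | cnt E B ω = i} \ E m := by
      rw [Set.inter_comm]; rfl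
    rw [e1, Set.inter_comm (E m)]
    linarith
  rw [sum_congr rfl h2, sum_sub_distrib, h, sum_const, nsmul_eq_mul]
  unfold law
  ring

lemma law_ratio [IsProbabilityMeasure μ] (hE : ∀ m, MeasurableSet (E m)) (hi : iIndepSet E μ)
    (B : Finset ℕ) {T wm wp : ℝ} (hT : (B.card : ℝ) = T)
    (hlo : ∀ m ∈ B, wm * (1 - μ.real (E m)) ≤ μ.real (E m))
    (hhi : ∀ m ∈ B, μ.real (E m) ≤ wp * (1 - μ.real (E m))) :
    Ratio (law μ E B) T wm wp := by
  refine ⟨fun i => measureReal_nonneg, fun i => ?_, fun i => ?_⟩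
  · rw [law_succ hE hi, mul_assoc, ← hT, law_self hE hi, mul_sum]
    refine sum_le_sum fun m hm => ?_
    have := mul_le_mul_of_nonneg_right (hlo m hm)
      (measureReal_nonneg : 0 ≤ μ.real {ω | cnt E (B.erase m) ω = i})
    unfold law
    linarith
  · rw [law_succ hE hi, mul_assoc, ← hT, law_self hE hi, mul_sum]
    refine sum_le_sum fun m hm => ?_
    have := mul_le_mul_of_nonneg_right (hhi m hm)
      (measureReal_nonneg : 0 ≤ μ.real {ω | cnt E (B.erase m) ω = i})
    unfold law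
    linarith

/-- probability of a union of level sets -/
lemma sum_law [IsProbabilityMeasure μ] (hE : ∀ m, MeasurableSet (E m)) (B : Finset ℕ)
    (f : ℕ) : ∑ i ∈ range (f + 1), law μ E B i = μ.real {ω | cnt E B ω ≤ f} := by
  have h1 : {ω | cnt E B ω ≤ f} = ⋃ i ∈ range (f + 1), {ω | cnt E B ω = i} := by
    ext ω
    simp only [Set.mem_ofPred_eq, Set.mem_iUnion, mem_range, exists_prop, exists_eq_right']
    omega
  rw [h1, measureReal_biUnion_finset]
  · rfl
  · intro i _ j _ hij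
    refine Set.disjoint_left.mpr fun ω h2 h3 => hij ?_
    exact h2.symm.trans h3
  · intro i _
    exact measSet_cnt hE B i

/-- block of indices between two squares -/
def blk (n : ℕ) : Finset ℕ := Ioo (n ^ 2) ((n + 1) ^ 2)

lemma blk_card (n : ℕ) : (blk n).card = 2 * n := by
  unfold blk
  rw [Nat.card_Ioo]
  have : (n + 1) ^ 2 = n ^ 2 + 2 * n + 1 := by ring
  omega

omit mΩ in
lemma sqCount_eq (ω : Ω) (n : ℕ) : sqCount {m | ω ∈ E m} n = cnt E (blk n) ω := by
  classical
  unfold sqCount cnt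
  have h1 : {m : ℕ | m ∈ {m | ω ∈ E m} ∧ n ^ 2 < m ∧ m < (n + 1) ^ 2}
      = (((blk n).filter (fun m => ω ∈ E m) : Finset ℕ) : Set ℕ) := by
    ext m
    simp [blk, and_comm]
  rw [h1, Set.ncard_coe_finset, card_filter]
  refine sum_congr rfl fun m _ => ?_
  by_cases h : ω ∈ E m
  · simp [h]
  · simp [h]

theorem laws_of_model [IsProbabilityMeasure μ] (hE : ∀ m, MeasurableSet (E m))
    (hi : iIndepSet E μ) (hp : ∀ m : ℕ, 3 ≤ m → μ.real (E m) = 1 / Real.log m) :
    Laws (fun n => law μ E (blk n)) := by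
  refine ⟨fun n hn => ?_, fun n i => measureReal_nonneg, fun n i h => ?_, fun n => ?_⟩
  · have hn2 : (2 : ℝ) ≤ n := by exact_mod_cast hn
    have hln : 1 / 2 < Real.log n := by
      have h1 : Real.log 2 ≤ Real.log n := Real.log_le_log (by norm_num) hn2
      have := Real.log_two_gt_d9
      linarith
    have key : ∀ m ∈ blk n, 2 * Real.log n < Real.log m ∧ Real.log m ≤ 2 * Real.log (n + 1)
        ∧ μ.real (E m) = 1 / Real.log m := by
      intro m hm
      unfold blk at hm
      rw [mem_Ioo] at hm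
      have h3 : 3 ≤ m := by nlinarith [hm.1]
      have hm1 : ((n : ℝ)) ^ 2 < m := by exact_mod_cast hm.1
      have hm2 : (m : ℝ) ≤ ((n : ℝ) + 1) ^ 2 := by exact_mod_cast hm.2.le
      refine ⟨?_, ?_, hp m h3⟩
      · have : Real.log ((n : ℝ) ^ 2) < Real.log m := Real.log_lt_log (by positivity) hm1
        rwa [Real.log_pow, Nat.cast_ofNat] at this
      · have : Real.log m ≤ Real.log (((n : ℝ) + 1) ^ 2) :=
          Real.log_le_log (by positivity) hm2
        rwa [Real.log_pow, Nat.cast_ofNat] at this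
    refine law_ratio hE hi (blk n) (by rw [blk_card]; push_cast; ring) ?_ ?_
    · intro m hm
      obtain ⟨h1, h2, h3⟩ := key m hm
      rw [h3]
      have hl : 1 < Real.log m := by linarith
      have hl' : 0 < 2 * Real.log (n + 1) - 1 := by linarith
      have e : 1 - 1 / Real.log m = (Real.log m - 1) / Real.log m := by field_simp
      rw [e, div_mul_div_comm, one_mul, div_le_div_iff₀ (by positivity) (by linarith)]
      have : Real.log m * (Real.log m - 1) ≤ Real.log m * (2 * Real.log (n + 1) - 1) :=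
        mul_le_mul_of_nonneg_left (by linarith) (by linarith)
      linarith
    · intro m hm
      obtain ⟨h1, h2, h3⟩ := key m hm
      rw [h3]
      have hl : 1 < Real.log m := by linarith
      have hl' : 0 < 2 * Real.log n - 1 := by linarith
      have e : 1 - 1 / Real.log m = (Real.log m - 1) / Real.log m := by field_simp
      rw [e, div_mul_div_comm, one_mul, div_le_div_iff₀ (by linarith) (by positivity)]
      have : Real.log m * (2 * Real.log n - 1) ≤ Real.log m * (Real.log m - 1) :=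
        mul_le_mul_of_nonneg_left (by linarith) (by linarith)
      linarith
  · have h1 : {ω | cnt E (blk n) ω = i} = ∅ := by
      ext ω
      simp only [Set.mem_ofPred_eq, Set.mem_empty_iff_false, iff_false]
      have := cnt_le (E := E) (blk n) ω
      rw [blk_card] at this
      omega
    show μ.real {ω | cnt E (blk n) ω = i} = 0
    rw [h1]; simp
  · show ∑ i ∈ range (2 * n + 1), law μ E (blk n) i = 1
    rw [sum_law hE]
    have h1 : {ω | cnt E (blk n) ω ≤ 2 * n} = Set.univ := by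
      ext ω
      simp only [Set.mem_ofPred_eq, Set.mem_univ, iff_true]
      have := cnt_le (E := E) (blk n) ω
      rwa [blk_card] at this
    rw [h1]; simp

/-- mixture formula -/
lemma mix [IsProbabilityMeasure μ] {𝒜 𝓑 : MeasurableSpace Ω} (hA : 𝒜 ≤ mΩ) (hB : 𝓑 ≤ mΩ)
    (h : Indep 𝒜 𝓑 μ) {N : Ω → ℕ} (hN : Measurable[𝒜] N) {T : ℕ} (hT : ∀ ω, N ω ≤ T)
    {Z : ℕ → Ω → ℝ} (hZ : ∀ i, Measurable[𝓑] (Z i)) (hint : ∀ i, Integrable (Z i) μ) :
    ∫ ω, Z (N ω) ω ∂μ
      = ∑ i ∈ range (T + 1), μ.real {ω | N ω = i} * ∫ ω, Z i ω ∂μ := by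
  have hm : ∀ i, MeasurableSet[𝒜] {ω | N ω = i} := fun i => hN (measurableSet_singleton i)
  have e : ∀ ω, Z (N ω) ω
      = ∑ i ∈ range (T + 1), ({ω | N ω = i}.indicator (fun _ => (1 : ℝ)) ω) * Z i ω := by
    intro ω
    rw [sum_eq_single (N ω)]
    · rw [Set.indicator_of_mem (show ω ∈ {ω' | N ω' = N ω} from rfl), one_mul]
    · intro j _ hj
      rw [Set.indicator_of_notMem
        (show ω ∉ {ω' | N ω' = j} from fun hh => hj (Eq.symm hh)), zero_mul]
    · intro hh
      exact absurd (mem_range.mpr (Nat.lt_succ_of_le (hT ω))) hh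
  simp only [e]
  rw [integral_finsetSum]
  · refine sum_congr rfl fun i _ => ?_
    have hf : Measurable[𝒜] ({ω | N ω = i}.indicator (fun _ => (1 : ℝ))) :=
      ind_meas (m := 𝒜) (hm i) 1
    have hind : IndepFun ({ω | N ω = i}.indicator (fun _ => (1 : ℝ))) (Z i) μ := by
      refine (IndepFun_iff_Indep _ _ _).2 ?_
      exact indep_of_indep_of_le_left
        (indep_of_indep_of_le_right h (hZ i).comap_le) hf.comap_le
    rw [hind.integral_fun_mul_eq_mul_integral
      (hf.mono hA le_rfl).aestronglyMeasurable ((hZ i).mono hB le_rfl).aestronglyMeasurable]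
    congr 1
    rw [integral_indicator (hA _ (hm i))]
    simp
  · intro i _
    have h1 : (fun ω => {ω | N ω = i}.indicator (fun _ => (1 : ℝ)) ω * Z i ω)
        = {ω | N ω = i}.indicator (Z i) := by
      funext ω
      by_cases hω : ω ∈ {ω | N ω = i}
      · rw [Set.indicator_of_mem hω, Set.indicator_of_mem hω, one_mul]
      · rw [Set.indicator_of_notMem hω, Set.indicator_of_notMem hω, zero_mul]
    rw [h1]
    exact (hint i).indicator (hA _ (hm i))

lemma fut_measurable {Ω' : Type*} {m : MeasurableSpace Ω'} {a : ℕ → Ω' → ℕ} {n : ℕ}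
    (h : ∀ j, n ≤ j → Measurable (a j)) : Measurable (fun ω => fut (fun j => a j ω) n) := by
  refine measurable_of_Ici fun k => ?_
  have : (fun ω => fut (fun j => a j ω) n) ⁻¹' Set.Ici k = ⋂ j, ⋂ (_ : n ≤ j), {ω | k ≤ a j ω} := by
    ext ω
    simp only [Set.mem_preimage, Set.mem_Ici, Set.mem_iInter, Set.mem_ofPred_eq]
    exact le_fut_iff
  rw [this]
  exact MeasurableSet.iInter fun j => MeasurableSet.iInter fun hj =>
    (h j hj) (measurableSet_Ici)

/-- the count in block `n` -/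
noncomputable def NN (E : ℕ → Set Ω) (n : ℕ) (ω : Ω) : ℕ := cnt E (blk n) ω

/-- the future minimum -/
noncomputable def FF (E : ℕ → Set Ω) (n : ℕ) (ω : Ω) : ℕ := fut (fun j => NN E j ω) n

omit mΩ in
lemma NN_meas {S : Set ℕ} {n : ℕ} (h : Set.Ioi (n ^ 2) ⊆ S) : Measurable[sig E S] (NN E n) := by
  refine cnt_meas fun m hm => h ?_
  unfold blk at hm
  exact (mem_Ioo.mp hm).1

omit mΩ in
lemma NN_meas_blk (n : ℕ) : Measurable[sig E ((blk n : Finset ℕ) : Set ℕ)] (NN E n) :=
  cnt_meas fun m hm => hm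

omit mΩ in
lemma FF_meas {S : Set ℕ} {n : ℕ} (h : Set.Ioi (n ^ 2) ⊆ S) : Measurable[sig E S] (FF E n) := by
  refine @fut_measurable Ω (sig E S) (NN E) n fun j hj => NN_meas ?_
  intro m hm
  refine h ?_
  have h1 : n ^ 2 ≤ j ^ 2 := Nat.pow_le_pow_left hj 2
  exact lt_of_le_of_lt h1 hm

omit mΩ in
lemma NN_le (n : ℕ) (ω : Ω) : NN E n ω ≤ 2 * n := by
  have := cnt_le (E := E) (blk n) ω
  rwa [blk_card] at this

omit mΩ in
lemma FF_le (n : ℕ) (ω : Ω) : FF E n ω ≤ 2 * n := (fut_le le_rfl).trans (NN_le n ω)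

lemma blk_indep (hE : ∀ m, MeasurableSet (E m)) (hi : iIndepSet E μ) (n : ℕ) :
    Indep (sig E ((blk n : Finset ℕ) : Set ℕ)) (sig E (Set.Ioi ((n + 1) ^ 2))) μ := by
  refine sig_indep hE hi (Set.disjoint_left.mpr fun m h1 h2 => ?_)
  have h3 : m ∈ blk n := h1
  unfold blk at h3
  have h4 := (mem_Ioo.mp h3).2
  have h5 : (n + 1) ^ 2 < m := h2
  omega

end Pool.Agent.CR53
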