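import Pool.Agent.CR53.SeqB

/-! Asymptotic bounds for the laws. -/

set_option autoImplicit false

namespace Pool.Agent.CR53

open Finset Filter Topology

/-- `n / log n` -/
noncomputable def mu (n : ℕ) : ℝ := (n : ℝ) / Real.log n

/-- `n / log (n + 1)` -/
noncomputable def mum (n : ℕ) : ℝ := (n : ℝ) / Real.log (n + 1)

/-- `log n / √n` -/
noncomputable def lam (n : ℕ) : ℝ := Real.log n / Real.sqrt n

lemma log_ge_one {n : ℕ} (hn : 3 ≤ n) : 1 < Real.log n := by
  have h3 : (3 : ℝ) ≤ n := by exact_mod_cast hn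
  rw [Real.lt_log_iff_exp_lt (by linarith)]
  have := Real.exp_one_lt_d9
  linarith

lemma log_half {n : ℕ} (hn : 2 ≤ n) : 1 / 2 < Real.log n := by
  have h2 : (2 : ℝ) ≤ n := by exact_mod_cast hn
  have h1 : Real.log 2 ≤ Real.log n := Real.log_le_log (by norm_num) h2
  have := Real.log_two_gt_d9
  linarith

lemma log_succ_ge (n : ℕ) (hn : 2 ≤ n) : Real.log n ≤ Real.log (n + 1) := by
  have h2 : (2 : ℝ) ≤ n := by exact_mod_cast hn
  exact Real.log_le_log (by linarith) (by linarith)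

lemma log_succ_sub (n : ℕ) (hn : 1 ≤ n) : Real.log (n + 1) - Real.log n ≤ 1 / n := by
  have h1 : (1 : ℝ) ≤ n := by exact_mod_cast hn
  have hpos : (0 : ℝ) < n := by linarith
  rw [← Real.log_div (by linarith) hpos.ne']
  have e : ((n : ℝ) + 1) / n = 1 + 1 / n := by field_simp
  rw [e]
  have := Real.log_le_sub_one_of_pos (show (0 : ℝ) < 1 + 1 / n by positivity)
  linarith

lemma mup_eq {n : ℕ} (hn : 2 ≤ n) :
    (1 / (2 * Real.log n - 1)) * (2 * n) / (1 + 1 / (2 * Real.log n - 1)) = mu n := by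
  have h := log_half hn
  have h1 : 2 * Real.log n - 1 ≠ 0 := by linarith
  have h2 : Real.log n ≠ 0 := by linarith
  have h3 : 1 + 1 / (2 * Real.log n - 1) = 2 * Real.log n / (2 * Real.log n - 1) := by
    field_simp; ring
  rw [h3]
  unfold mu
  field_simp

lemma mum_eq {n : ℕ} (hn : 2 ≤ n) :
    (1 / (2 * Real.log (n + 1) - 1)) * (2 * n) / (1 + 1 / (2 * Real.log (n + 1) - 1)) = mum n := by
  have h := log_half hn
  have h' := log_succ_ge n hn
  have h1 : 2 * Real.log (n + 1) - 1 ≠ 0 := by linarith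
  have h2 : Real.log (n + 1) ≠ 0 := by linarith
  have h3 : 1 + 1 / (2 * Real.log (n + 1) - 1)
      = 2 * Real.log (n + 1) / (2 * Real.log (n + 1) - 1) := by
    field_simp; ring
  rw [h3]
  unfold mum
  field_simp

lemma mum_le_mu {n : ℕ} (hn : 2 ≤ n) : mum n ≤ mu n := by
  unfold mum mu
  have h := log_half hn
  exact div_le_div_of_nonneg_left (Nat.cast_nonneg n) (by linarith) (log_succ_ge n hn)

lemma mu_sub_mum {n : ℕ} (hn : 3 ≤ n) : mu n - mum n ≤ 1 := by
  have h := log_ge_one hn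
  have h' := log_succ_ge n (by omega)
  have h3 : (3 : ℝ) ≤ n := by exact_mod_cast hn
  have hd := log_succ_sub n (by omega)
  unfold mum mu
  rw [div_sub_div _ _ (by linarith) (by linarith), div_le_one (mul_pos (by linarith) (by linarith))]
  have h4 : (n : ℝ) * (Real.log (n + 1) - Real.log n) ≤ 1 := by
    have := mul_le_mul_of_nonneg_left hd (by linarith : (0 : ℝ) ≤ n)
    rwa [mul_one_div_cancel (by linarith)] at this
  have h5 : 1 ≤ Real.log n * Real.log (n + 1) := by nlinarith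
  linarith

lemma mu_pos {n : ℕ} (hn : 2 ≤ n) : 0 < mu n := by
  have h2 : (2 : ℝ) ≤ n := by exact_mod_cast hn
  have := log_half hn
  unfold mu
  exact div_pos (by linarith) (by linarith)

lemma mum_pos {n : ℕ} (hn : 2 ≤ n) : 0 < mum n := by
  have h2 : (2 : ℝ) ≤ n := by exact_mod_cast hn
  have := log_half hn
  have := log_succ_ge n hn
  unfold mum
  exact div_pos (by linarith) (by linarith)

lemma lam_mul_mu {n : ℕ} (hn : 2 ≤ n) : lam n * mu n = Real.sqrt n := by
  have h2 : (2 : ℝ) ≤ n := by exact_mod_cast hn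
  have := log_half hn
  have h3 : Real.log n ≠ 0 := by linarith
  have h4 : Real.sqrt n ≠ 0 := (Real.sqrt_pos.mpr (by linarith)).ne'
  have h5 : Real.sqrt n * Real.sqrt n = n := Real.mul_self_sqrt (by linarith)
  unfold lam mu
  field_simp
  rw [sq, h5]

lemma lam_nonneg (n : ℕ) : 0 ≤ lam n :=
  div_nonneg (Real.log_natCast_nonneg n) (Real.sqrt_nonneg _)

/-! ### basic limits -/

lemma t_log : Tendsto (fun n : ℕ => Real.log n) atTop atTop :=
  Real.tendsto_log_atTop.comp tendsto_natCast_atTop_atTop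

lemma t_sqrt : Tendsto (fun n : ℕ => Real.sqrt n) atTop atTop :=
  Real.tendsto_sqrt_atTop.comp tendsto_natCast_atTop_atTop

lemma t_invsqrt : Tendsto (fun n : ℕ => 1 / Real.sqrt n) atTop (𝓝 0) := by
  simp only [one_div]
  exact tendsto_inv_atTop_zero.comp t_sqrt

lemma t_invlog : Tendsto (fun n : ℕ => 1 / Real.log n) atTop (𝓝 0) := by
  simp only [one_div]
  exact tendsto_inv_atTop_zero.comp t_log

lemma t_invsqrtlog : Tendsto (fun n : ℕ => 1 / Real.sqrt (Real.log n)) atTop (𝓝 0) := by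
  simp only [one_div]
  exact tendsto_inv_atTop_zero.comp (Real.tendsto_sqrt_atTop.comp t_log)

lemma t_lam : Tendsto lam atTop (𝓝 0) := by
  have h := (isLittleO_log_rpow_atTop (show (0 : ℝ) < 1 / 2 by norm_num)).tendsto_div_nhds_zero
  have h2 := h.comp tendsto_natCast_atTop_atTop (α := ℕ)
  refine h2.congr fun n => ?_
  simp only [Function.comp]
  unfold lam
  rw [Real.sqrt_eq_rpow]

section laws

variable {g : ℕ → ℕ → ℝ}

lemma S0_le_one (hg : Laws g) (n f : ℕ) : S0 (g n) f ≤ 1 := by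
  unfold S0
  rcases le_total f (2 * n) with h | h
  · rw [← hg.total n]
    exact sum_le_sum_of_subset_of_nonneg (range_subset_range.mpr (by omega))
      (fun i _ _ => hg.nonneg n i)
  · rw [← hg.total n]
    refine (sum_subset (range_subset_range.mpr (by omega)) (fun i _ hi => ?_)).ge
    apply hg.zero
    rw [mem_range] at hi
    omega

lemma S0_nn (hg : Laws g) (n f : ℕ) : 0 ≤ S0 (g n) f := sum_nonneg fun i _ => hg.nonneg n i

lemma S1_nn (hg : Laws g) (n f : ℕ) : 0 ≤ S1 (g n) f := by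
  refine sum_nonneg fun i hi => mul_nonneg ?_ (hg.nonneg n i)
  have : i ≤ f := Nat.lt_succ_iff.mp (mem_range.mp hi)
  have : (i : ℝ) ≤ f := by exact_mod_cast this
  linarith

lemma S2_nn (hg : Laws g) (n f : ℕ) : 0 ≤ S2 (g n) f :=
  sum_nonneg fun i _ => mul_nonneg (sq_nonneg _) (hg.nonneg n i)

lemma S2_le (hg : Laws g) (n f : ℕ) : S2 (g n) f ≤ (f : ℝ) ^ 2 := by
  have h1 : S2 (g n) f ≤ (f : ℝ) ^ 2 * S0 (g n) f := by
    unfold S2 S0
    rw [mul_sum]
    refine sum_le_sum fun i hi => mul_le_mul_of_nonneg_right ?_ (hg.nonneg n i)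
    have : i ≤ f := Nat.lt_succ_iff.mp (mem_range.mp hi)
    have h2 : (i : ℝ) ≤ f := by exact_mod_cast this
    have h3 : (0 : ℝ) ≤ i := Nat.cast_nonneg i
    exact pow_le_pow_left₀ (by linarith) (by linarith) 2
  refine h1.trans ?_
  have := mul_le_mul_of_nonneg_left (S0_le_one hg n f) (sq_nonneg (f : ℝ))
  linarith

lemma I1' (hg : Laws g) {n : ℕ} (hn : 2 ≤ n) (f : ℕ) :
    (mum n - f) * S1 (g n) f ≤ mum n * S0 (g n) f := by
  have h := log_half hn
  have h' := log_succ_ge n hn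
  have := I1 (hg.ratio n hn) (one_div_pos.mpr (by linarith)) (by positivity) f
  rw [mum_eq hn] at this
  have h2 := S2_nn hg n f
  linarith

lemma I2' (hg : Laws g) {n : ℕ} (hn : 2 ≤ n) (f : ℕ) :
    (mum n - f) * S2 (g n) f ≤ 2 * mum n * S1 (g n) f := by
  have h := log_half hn
  have h' := log_succ_ge n hn
  have := I2 (hg.ratio n hn) (one_div_pos.mpr (by linarith)) (by positivity) f
  rwa [mum_eq hn] at this

lemma I3' (hg : Laws g) {n : ℕ} (hn : 2 ≤ n) (f : ℕ) :
    (1 - 1 / (2 * Real.log n)) * f * S0 (g n) f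
      ≤ (mu n - f + 1) * S1 (g n) f + S2 (g n) f := by
  have h := log_half hn
  have := I3 (hg.ratio n hn) (one_div_pos.mpr (by linarith)) f
  rw [mup_eq hn] at this
  have e : 1 / (2 * Real.log n - 1) / (1 + 1 / (2 * Real.log n - 1)) = 1 / (2 * Real.log n) := by
    have h1 : 2 * Real.log n - 1 ≠ 0 := by linarith
    have h3 : 1 + 1 / (2 * Real.log n - 1) = 2 * Real.log n / (2 * Real.log n - 1) := by
      field_simp; ring
    rw [h3]
    have h2 : Real.log n ≠ 0 := by linarith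
    field_simp
  rwa [e] at this

/-- (A1) -/
lemma A1 (hg : Laws g) {ε : ℝ} (h0 : 0 < ε) (h1 : ε < 1 / 4) : ∀ᶠ n : ℕ in atTop, ∀ f : ℕ,
    (f : ℝ) ≤ mu n - (1 - ε) * Real.sqrt n → lam n * S1 (g n) f ≤ (1 + 2 * ε) * S0 (g n) f := by
  filter_upwards [eventually_ge_atTop 3, t_sqrt.eventually_ge_atTop (2 / ε * (1 + 2 * ε) + 2)]
    with n hn hs f hf
  have i1 := I1' hg (show 2 ≤ n by omega) f
  have hms := mu_sub_mum hn
  have hml := mum_le_mu (show 2 ≤ n by omega)
  have hlm := lam_mul_mu (show 2 ≤ n by omega)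
  have hl := lam_nonneg n
  have n0 := S0_nn hg n f
  have n1 := S1_nn hg n f
  set s := Real.sqrt n with hs'
  have hε2 : 0 < 2 / ε * (1 + 2 * ε) := by positivity
  have hb : 1 < (1 - ε) * s := by nlinarith
  have k1 : ((1 - ε) * s - 1) * S1 (g n) f ≤ mu n * S0 (g n) f := by
    have a1 : ((1 - ε) * s - 1) * S1 (g n) f ≤ (mum n - f) * S1 (g n) f :=
      mul_le_mul_of_nonneg_right (by linarith) n1
    have a2 : mum n * S0 (g n) f ≤ mu n * S0 (g n) f := mul_le_mul_of_nonneg_right hml n0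
    linarith
  have k2 : ((1 - ε) * s - 1) * (lam n * S1 (g n) f) ≤ s * S0 (g n) f := by
    have h5 := mul_le_mul_of_nonneg_left k1 hl
    have h6 : lam n * (mu n * S0 (g n) f) = s * S0 (g n) f := by rw [← hlm]; ring
    rw [h6] at h5
    linarith
  have k3 : s ≤ ((1 - ε) * s - 1) * (1 + 2 * ε) := by
    have a1 : (ε / 2) * (2 / ε * (1 + 2 * ε) + 2) ≤ (ε / 2) * s :=
      mul_le_mul_of_nonneg_left hs (by positivity)
    have a2 : (ε / 2) * (2 / ε * (1 + 2 * ε) + 2) = 1 + 2 * ε + ε := by field_simp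
    have a3 : 0 ≤ s * (ε * (1 / 4 - ε)) :=
      mul_nonneg (by linarith) (mul_nonneg h0.le (by linarith))
    nlinarith
  have k4 : ((1 - ε) * s - 1) * (lam n * S1 (g n) f)
      ≤ ((1 - ε) * s - 1) * ((1 + 2 * ε) * S0 (g n) f) := by
    have := mul_le_mul_of_nonneg_right k3 n0
    linarith
  exact le_of_mul_le_mul_left k4 (by linarith)

/-- (A2) -/
lemma A2 (hg : Laws g) {ε : ℝ} (h0 : 0 < ε) (h1 : ε < 1 / 4) : ∀ᶠ n : ℕ in atTop, ∀ f : ℕ,
    (f : ℝ) ≤ mu n - (1 - ε) * Real.sqrt n → mu n - (1 + ε) * Real.sqrt n ≤ f →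
    S0 (g n) f ≤ (1 + 2 * ε) * (lam n * S1 (g n) f) := by
  -- the two limits
  have tA : Tendsto (fun n : ℕ => (1 - 1 / (2 * Real.log n)) * (1 - (1 + ε) * lam n)) atTop
      (𝓝 ((1 - 0) * (1 - (1 + ε) * 0))) := by
    have a1 : Tendsto (fun n : ℕ => 1 / (2 * Real.log n)) atTop (𝓝 0) := by
      have := t_invlog.const_mul (1 / 2)
      simp only [mul_zero] at this
      refine this.congr fun n => ?_
      rw [one_div_mul_one_div]
    exact (tendsto_const_nhds.sub a1).mul (tendsto_const_nhds.sub (t_lam.const_mul (1 + ε)))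
  have tB : Tendsto (fun n : ℕ => (1 + ε) + 1 / Real.sqrt n
      + 2 * (1 / Real.log n) * (1 / ((1 - ε) - 1 / Real.sqrt n))) atTop
      (𝓝 ((1 + ε) + 0 + 2 * 0 * (1 / ((1 - ε) - 0)))) := by
    refine (tendsto_const_nhds.add t_invsqrt).add ((t_invlog.const_mul 2).mul ?_)
    refine tendsto_const_nhds.div (tendsto_const_nhds.sub t_invsqrt) ?_
    linarith
  have tC := tA.const_mul (1 + 2 * ε)
  have e1 : (1 + ε) + 0 + 2 * 0 * (1 / ((1 - ε) - 0)) < (1 + 2 * ε) * ((1 - 0) * (1 - (1 + ε) * 0)) := by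
    ring_nf; linarith
  have ev := tB.eventually_lt tC e1
  filter_upwards [eventually_ge_atTop 3, t_sqrt.eventually_ge_atTop 4, ev,
    tA.eventually_const_lt (show (0 : ℝ) < (1 - 0) * (1 - (1 + ε) * 0) by norm_num)]
    with n hn hs hev hA f hf hf2
  have hn2 : 2 ≤ n := by omega
  have i2 := I2' hg hn2 f
  have i3 := I3' hg hn2 f
  have hms := mu_sub_mum hn
  have hml := mum_le_mu hn2
  have hlm := lam_mul_mu hn2
  have hl := lam_nonneg n
  have n0 := S0_nn hg n f
  have n1 := S1_nn hg n f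
  have n2 := S2_nn hg n f
  have hL := log_ge_one hn
  have hmu := mu_pos hn2
  have hnn : (3 : ℝ) ≤ n := by exact_mod_cast hn
  set s := Real.sqrt n with hs'
  have hss : s * s = n := Real.mul_self_sqrt (by linarith)
  have hspos : 0 < s := by linarith
  have hb : 1 < (1 - ε) * s := by nlinarith
  -- bound on S2
  have k1 : S2 (g n) f ≤ 2 * mu n / ((1 - ε) * s - 1) * S1 (g n) f := by
    rw [div_mul_eq_mul_div, le_div_iff₀ (by linarith)]
    have a1 : ((1 - ε) * s - 1) * S2 (g n) f ≤ (mum n - f) * S2 (g n) f :=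
      mul_le_mul_of_nonneg_right (by linarith) n2
    have a2 : 2 * mum n * S1 (g n) f ≤ 2 * mu n * S1 (g n) f :=
      mul_le_mul_of_nonneg_right (by linarith) n1
    linarith
  have hp : 0 < 1 - 1 / (2 * Real.log n) := by
    rw [sub_pos, div_lt_one (by linarith)]; linarith
  have k2 : (1 - 1 / (2 * Real.log n)) * (mu n - (1 + ε) * s) * S0 (g n) f
      ≤ ((1 + ε) * s + 1 + 2 * mu n / ((1 - ε) * s - 1)) * S1 (g n) f := by
    have a1 : (1 - 1 / (2 * Real.log n)) * (mu n - (1 + ε) * s) * S0 (g n) f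
        ≤ (1 - 1 / (2 * Real.log n)) * f * S0 (g n) f :=
      mul_le_mul_of_nonneg_right (mul_le_mul_of_nonneg_left hf2 hp.le) n0
    have a2 : (mu n - f + 1) * S1 (g n) f ≤ ((1 + ε) * s + 1) * S1 (g n) f :=
      mul_le_mul_of_nonneg_right (by linarith) n1
    linarith
  -- identify the two sides with the limits
  have eA : (1 - 1 / (2 * Real.log n)) * (mu n - (1 + ε) * s)
      = mu n * ((1 - 1 / (2 * Real.log n)) * (1 - (1 + ε) * lam n)) := by
    have : (1 + ε) * s = (1 + ε) * (lam n * mu n) := by rw [hlm]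
    rw [this]; ring
  have eB : (1 + ε) * s + 1 + 2 * mu n / ((1 - ε) * s - 1)
      = s * ((1 + ε) + 1 / s + 2 * (1 / Real.log n) * (1 / ((1 - ε) - 1 / s))) := by
    have a1 : (1 - ε) - 1 / s = ((1 - ε) * s - 1) / s := by field_simp
    have a2 : (1 - ε) * s - 1 ≠ 0 := by linarith
    have a3 : mu n = s * s / Real.log n := by rw [hss]; rfl
    rw [a1, a3]
    have a4 : Real.log n ≠ 0 := by linarith
    field_simp
  rw [eA, eB] at k2
  set A := (1 - 1 / (2 * Real.log n)) * (1 - (1 + ε) * lam n) with hAdef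
  set B := (1 + ε) + 1 / s + 2 * (1 / Real.log n) * (1 / ((1 - ε) - 1 / s)) with hBdef
  have k3 : mu n * A * S0 (g n) f ≤ mu n * A * ((1 + 2 * ε) * (lam n * S1 (g n) f)) := by
    have a1 : s * B * S1 (g n) f ≤ s * ((1 + 2 * ε) * A) * S1 (g n) f :=
      mul_le_mul_of_nonneg_right (mul_le_mul_of_nonneg_left hev.le hspos.le) n1
    have a2 : s * ((1 + 2 * ε) * A) * S1 (g n) f
        = mu n * A * ((1 + 2 * ε) * (lam n * S1 (g n) f)) := by
      rw [← hlm]; ring
    linarith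
  exact le_of_mul_le_mul_left k3 (mul_pos hmu hA)

/-- (A3) -/
lemma A3 (hg : Laws g) : ∀ᶠ n : ℕ in atTop, ∀ f : ℕ,
    (f : ℝ) ≤ mu n - 7 / 8 * Real.sqrt n → lam n ^ 2 * S2 (g n) f ≤ 4 * S0 (g n) f := by
  filter_upwards [eventually_ge_atTop 3, t_sqrt.eventually_ge_atTop 7]
    with n hn hs f hf
  have hn2 : 2 ≤ n := by omega
  have i1 := I1' hg hn2 f
  have i2 := I2' hg hn2 f
  have hms := mu_sub_mum hn
  have hml := mum_le_mu hn2
  have hlm := lam_mul_mu hn2
  have hl := lam_nonneg n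
  have n0 := S0_nn hg n f
  have n1 := S1_nn hg n f
  have n2 := S2_nn hg n f
  have hmp := mum_pos hn2
  set s := Real.sqrt n with hs'
  set d := 7 / 8 * s - 1 with hd
  have hd0 : 0 < d := by rw [hd]; linarith
  have hdm : d ≤ mum n - f := by rw [hd]; linarith
  have k1 : d * S1 (g n) f ≤ mu n * S0 (g n) f := by
    have a1 : d * S1 (g n) f ≤ (mum n - f) * S1 (g n) f := mul_le_mul_of_nonneg_right hdm n1
    have a2 : mum n * S0 (g n) f ≤ mu n * S0 (g n) f := mul_le_mul_of_nonneg_right hml n0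
    linarith
  have k2 : d * S2 (g n) f ≤ 2 * mu n * S1 (g n) f := by
    have a1 : d * S2 (g n) f ≤ (mum n - f) * S2 (g n) f := mul_le_mul_of_nonneg_right hdm n2
    have a2 : 2 * mum n * S1 (g n) f ≤ 2 * mu n * S1 (g n) f :=
      mul_le_mul_of_nonneg_right (by linarith) n1
    linarith
  have k3 : d ^ 2 * S2 (g n) f ≤ 2 * mu n ^ 2 * S0 (g n) f := by
    have a1 := mul_le_mul_of_nonneg_left k2 hd0.le
    have a2 := mul_le_mul_of_nonneg_left k1 (by linarith : (0 : ℝ) ≤ 2 * mu n)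
    nlinarith
  have k4 : d ^ 2 * (lam n ^ 2 * S2 (g n) f) ≤ 2 * s ^ 2 * S0 (g n) f := by
    have := mul_le_mul_of_nonneg_left k3 (sq_nonneg (lam n))
    rw [← hlm]
    linarith
  have k5 : 2 * s ^ 2 ≤ d ^ 2 * 4 := by rw [hd]; nlinarith
  have k6 : d ^ 2 * (lam n ^ 2 * S2 (g n) f) ≤ d ^ 2 * (4 * S0 (g n) f) := by
    have := mul_le_mul_of_nonneg_right k5 n0
    linarith
  exact le_of_mul_le_mul_left k6 (by positivity)

/-- (A4) -/
lemma A4 (hg : Laws g) {c κ : ℝ} (hc : 0 < c) (hκ : κ < c ^ 2 / 2) : ∀ᶠ n : ℕ in atTop, ∀ f : ℕ,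
    (f : ℝ) ≤ mu n - c * Real.sqrt n → S0 (g n) f ≤ (n : ℝ) ^ (-κ) := by
  have t1 : Tendsto (fun n : ℕ => (c - 2 * (1 / Real.sqrt n)) * (c - 3 * (1 / Real.sqrt n)) / 2)
      atTop (𝓝 ((c - 2 * 0) * (c - 3 * 0) / 2)) :=
    ((tendsto_const_nhds.sub (t_invsqrt.const_mul 2)).mul
      (tendsto_const_nhds.sub (t_invsqrt.const_mul 3))).div_const 2
  have e1 : κ < (c - 2 * 0) * (c - 3 * 0) / 2 := by
    have : (c - 2 * 0) * (c - 3 * 0) / 2 = c ^ 2 / 2 := by ring
    rw [this]; exact hκ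
  filter_upwards [eventually_ge_atTop 3, t_sqrt.eventually_ge_atTop (4 / c),
    t1.eventually_const_lt e1] with n hn hs hk f hf
  have hn2 : 2 ≤ n := by omega
  have hms := mu_sub_mum hn
  have hml := mum_le_mu hn2
  have hmp := mum_pos hn2
  have hL := log_ge_one hn
  have hnn : (3 : ℝ) ≤ n := by exact_mod_cast hn
  have hr := hg.ratio n hn2
  have hl2 := log_succ_ge n hn2
  have hwm : 0 < 1 / (2 * Real.log (n + 1) - 1) := one_div_pos.mpr (by linarith)
  set s := Real.sqrt n with hs'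
  have hss : s ^ 2 = n := Real.sq_sqrt (by linarith)
  have hspos : 0 < s := Real.sqrt_pos.mpr (by linarith)
  have hcs : 4 ≤ c * s := by
    have := mul_le_mul_of_nonneg_left hs hc.le
    rwa [mul_div_cancel₀ _ hc.ne'] at this
  set K := ⌊c * s - 1⌋₊ with hK
  have hK1 : (K : ℝ) ≤ c * s - 1 := Nat.floor_le (by linarith)
  have hK2 : c * s - 2 < K := by
    have := Nat.lt_floor_add_one (c * s - 1)
    linarith
  have ch := S0_chernoff hr hwm K f (by rw [mum_eq hn2]; linarith) (by rw [mum_eq hn2]; exact hmp)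
  rw [mum_eq hn2] at ch
  have h1 : S0 (g n) f ≤ Real.exp (-(K * (K - 1) / (2 * mum n))) := by
    refine ch.trans ?_
    have := mul_le_mul_of_nonneg_left (S0_le_one hg n (f + K))
      (Real.exp_pos (-(K * ((K : ℝ) - 1) / (2 * mum n)))).le
    linarith
  refine h1.trans ?_
  rw [Real.rpow_def_of_pos (by linarith)]
  refine Real.exp_le_exp.mpr ?_
  have h2 : κ * Real.log n ≤ K * ((K : ℝ) - 1) / (2 * mum n) := by
    have a1 : (c * s - 2) * (c * s - 3) / (2 * mu n) ≤ K * ((K : ℝ) - 1) / (2 * mum n) := by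
      refine div_le_div₀ ?_ ?_ (by linarith) (by linarith)
      · exact mul_nonneg (by linarith) (by linarith)
      · exact mul_le_mul (by linarith) (by linarith) (by linarith) (by linarith)
    have a2 : (c * s - 2) * (c * s - 3) / (2 * mu n)
        = (c - 2 * (1 / s)) * (c - 3 * (1 / s)) / 2 * Real.log n := by
      unfold mu
      rw [← hss]
      have a3 : Real.log (s ^ 2) ≠ 0 := by rw [hss]; linarith
      field_simp
    rw [a2] at a1
    refine le_trans ?_ a1
    exact mul_le_mul_of_nonneg_right hk.le (by linarith)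
  linarith

/-- (A5) -/
lemma A5 (hg : Laws g) {η : ℝ} (h0 : 0 < η) (h1 : η < 1) : ∀ᶠ n : ℕ in atTop, ∀ f : ℕ,
    mu n - (1 - η) * Real.sqrt n ≤ (f : ℝ) + 1 → (n : ℝ) ^ (-((1 - η) / 2)) ≤ S0 (g n) f := by
  -- normalised quantities: a = 1/√log n, b = 1/√n, l = lam n
  have tk : Tendsto (fun n : ℕ => (1 - η) + 2 * (1 / Real.sqrt n)
      + 2 * (1 / Real.sqrt (Real.log n))) atTop (𝓝 ((1 - η) + 2 * 0 + 2 * 0)) :=
    (tendsto_const_nhds.add (t_invsqrt.const_mul 2)).add (t_invsqrtlog.const_mul 2)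
  have tD : Tendsto (fun n : ℕ => 1 - 2 * (1 / Real.sqrt (Real.log n)) * lam n
      - ((1 - η) + 2 * (1 / Real.sqrt n) + 2 * (1 / Real.sqrt (Real.log n))) * lam n) atTop
      (𝓝 (1 - 2 * 0 * 0 - ((1 - η) + 2 * 0 + 2 * 0) * 0)) :=
    (tendsto_const_nhds.sub ((t_invsqrtlog.const_mul 2).mul t_lam)).sub (tk.mul t_lam)
  have tN : Tendsto (fun n : ℕ => ((1 - η) + 2 * (1 / Real.sqrt n)
      + 2 * (1 / Real.sqrt (Real.log n))) * (2 * (1 / Real.sqrt (Real.log n)) + 1 / Real.sqrt n)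
      + ((1 - η) + 2 * (1 / Real.sqrt n) + 2 * (1 / Real.sqrt (Real.log n))) ^ 2 / 2) atTop
      (𝓝 (((1 - η) + 2 * 0 + 2 * 0) * (2 * 0 + 0) + ((1 - η) + 2 * 0 + 2 * 0) ^ 2 / 2)) :=
    (tk.mul ((t_invsqrtlog.const_mul 2).add t_invsqrt)).add ((tk.pow 2).div_const 2)
  have tw : Tendsto (fun n : ℕ => 1 + 1 / (2 * Real.log n - 1)) atTop (𝓝 (1 + 0)) := by
    refine tendsto_const_nhds.add ?_
    have : Tendsto (fun n : ℕ => 2 * Real.log n - 1) atTop atTop := by
      have := (t_log.const_mul_atTop (show (0 : ℝ) < 2 by norm_num))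
      exact tendsto_atTop_add_const_right _ (-1) this
    simp only [one_div]
    exact tendsto_inv_atTop_zero.comp this
  have tX := ((tw.div tD (by norm_num)).mul tN).add (t_invlog.const_mul (Real.log 2))
  have e1 : (1 + 0) / (1 - 2 * 0 * 0 - ((1 - η) + 2 * 0 + 2 * 0) * 0)
      * (((1 - η) + 2 * 0 + 2 * 0) * (2 * 0 + 0) + ((1 - η) + 2 * 0 + 2 * 0) ^ 2 / 2)
      + Real.log 2 * 0 < (1 - η) / 2 := by
    have : (1 + 0) / (1 - 2 * 0 * 0 - ((1 - η) + 2 * 0 + 2 * 0) * 0)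
      * (((1 - η) + 2 * 0 + 2 * 0) * (2 * 0 + 0) + ((1 - η) + 2 * 0 + 2 * 0) ^ 2 / 2)
      + Real.log 2 * 0 = (1 - η) ^ 2 / 2 := by norm_num
    rw [this]
    nlinarith
  filter_upwards [eventually_ge_atTop 3, tX.eventually_lt_const e1,
    tD.eventually_const_lt (show (0 : ℝ) < 1 - 2 * 0 * 0 - ((1 - η) + 2 * 0 + 2 * 0) * 0 by norm_num)]
    with n hn hX hD f hf
  simp only [Pi.div_apply] at hX
  have hn2 : 2 ≤ n := by omega
  have hms := mu_sub_mum hn
  have hml := mum_le_mu hn2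
  have hmp := mum_pos hn2
  have hmu := mu_pos hn2
  have hL := log_ge_one hn
  have hnn : (3 : ℝ) ≤ n := by exact_mod_cast hn
  have hr := hg.ratio n hn2
  have hl2 := log_succ_ge n hn2
  have hwm : 0 < 1 / (2 * Real.log (n + 1) - 1) := one_div_pos.mpr (by linarith)
  have hwp : 0 < 1 / (2 * Real.log n - 1) := one_div_pos.mpr (by linarith)
  set s := Real.sqrt n with hs'
  have hss : s ^ 2 = n := Real.sq_sqrt (by linarith)
  have hspos : 0 < s := Real.sqrt_pos.mpr (by linarith)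
  set r := Real.sqrt (Real.log n) with hr'
  have hrr : r ^ 2 = Real.log n := Real.sq_sqrt (by linarith)
  have hrpos : 0 < r := Real.sqrt_pos.mpr (by linarith)
  have hsmu : Real.sqrt (mu n) = s / r := by
    unfold mu
    rw [Real.sqrt_div (by linarith)]
  have hmu2 : mu n = s ^ 2 / r ^ 2 := by unfold mu; rw [hss, hrr]
  have hlam : lam n = r ^ 2 / s := by unfold lam; rw [hrr]
  rw [hlam] at hX hD
  set k := (1 - η) + 2 * (1 / s) + 2 * (1 / r) with hk
  set D := 1 - 2 * (1 / r) * (r ^ 2 / s) - k * (r ^ 2 / s) with hDdef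
  set K := ⌈(1 - η) * s + 1 + 2 * (s / r)⌉₊ with hK
  have hbase : 0 ≤ (1 - η) * s + 1 + 2 * (s / r) := by
    have : 0 ≤ (1 - η) * s := mul_nonneg (by linarith) hspos.le
    have : 0 ≤ s / r := (div_pos hspos hrpos).le
    linarith
  have hK1 : (1 - η) * s + 1 + 2 * (s / r) ≤ K := Nat.le_ceil _
  have hK2 : (K : ℝ) ≤ k * s := by
    have := (Nat.ceil_lt_add_one hbase).le
    rw [← hK] at this
    refine this.trans (le_of_eq ?_)
    rw [hk]; field_simp; ring
  have hk0 : 0 ≤ k := by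
    rw [hk]
    have : 0 < 1 / s := by positivity
    have : 0 < 1 / r := by positivity
    linarith
  -- D * mu = mu - 2 √mu - k s
  have hDmu : D * mu n = mu n - 2 * (s / r) - k * s := by
    rw [hDdef, hmu2]; field_simp
  have hDmu0 : 0 < D * mu n := mul_pos hD hmu
  have low := S0_lower hr hwm hwp (2 * n) (by push_cast; ring) (hg.total n)
    (by rw [mup_eq hn2, mum_eq hn2]; exact hms) (by rw [mup_eq hn2]; exact hmu) f K
    (by rw [mup_eq hn2, hsmu]; linarith) (by rw [mup_eq hn2, hsmu]; linarith)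
  rw [mup_eq hn2, hsmu] at low
  refine le_trans ?_ low
  have hx : (1 + 1 / (2 * Real.log n - 1)) / (mu n - 2 * (s / r) - K + 1)
      * (K * (2 * (s / r) + 1) + (K : ℝ) ^ 2 / 2) + Real.log 2 ≤ (1 - η) / 2 * Real.log n := by
    have c1 : (1 + 1 / (2 * Real.log n - 1)) / (mu n - 2 * (s / r) - K + 1)
        ≤ (1 + 1 / (2 * Real.log n - 1)) / (D * mu n) :=
      div_le_div_of_nonneg_left (by linarith) hDmu0 (by rw [hDmu]; linarith)
    have hKnn : (0 : ℝ) ≤ K := Nat.cast_nonneg K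
    have hsr : 0 < s / r := div_pos hspos hrpos
    have c2 : (K : ℝ) * (2 * (s / r) + 1) + (K : ℝ) ^ 2 / 2
        ≤ (k * s) * (2 * (s / r) + 1) + (k * s) ^ 2 / 2 := by
      have d1 : (K : ℝ) * (2 * (s / r) + 1) ≤ (k * s) * (2 * (s / r) + 1) :=
        mul_le_mul_of_nonneg_right hK2 (by linarith)
      have d2 : (K : ℝ) ^ 2 ≤ (k * s) ^ 2 := pow_le_pow_left₀ hKnn hK2 2
      linarith
    have c3 : (1 + 1 / (2 * Real.log n - 1)) / (mu n - 2 * (s / r) - K + 1)
        * (K * (2 * (s / r) + 1) + (K : ℝ) ^ 2 / 2)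
        ≤ (1 + 1 / (2 * Real.log n - 1)) / (D * mu n)
          * ((k * s) * (2 * (s / r) + 1) + (k * s) ^ 2 / 2) := by
      refine mul_le_mul c1 c2 (by positivity) (div_nonneg (by linarith) hDmu0.le)
    have c4 : (1 + 1 / (2 * Real.log n - 1)) / (D * mu n)
          * ((k * s) * (2 * (s / r) + 1) + (k * s) ^ 2 / 2)
        = (1 + 1 / (2 * Real.log n - 1)) / D * (k * (2 * (1 / r) + 1 / s) + k ^ 2 / 2)
          * Real.log n := by
      rw [hmu2, ← hrr]
      have : D ≠ 0 := hD.ne'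
      field_simp
    have c5 : Real.log 2 = Real.log 2 * (1 / Real.log n) * Real.log n := by
      field_simp
    rw [c4] at c3
    have c6 := mul_le_mul_of_nonneg_right hX.le (by linarith : (0 : ℝ) ≤ Real.log n)
    rw [add_mul] at c6
    linarith
  rw [Real.rpow_def_of_pos (by linarith)]
  have e2 : (1 : ℝ) / 2 = Real.exp (-Real.log 2) := by
    rw [Real.exp_neg, Real.exp_log (by norm_num)]; norm_num
  rw [e2, ← Real.exp_add]
  refine Real.exp_le_exp.mpr ?_
  linarith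

end laws

end Pool.Agent.CR53
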