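import Mathlib

/-!
# Cramer's random model and records of the number of primes between squares (definitions)

`sqCount A n` = number of elements of `A` strictly between `n ^ 2` and `(n + 1) ^ 2`.
`IsRec N k`   = `k` is one of the indices of the sequence L of the problem, for the counts `N`.
`recSeq N n`  = the `n`-th such index, `n = 1, 2, ...`.
`fut a n`     = the least value of `a` at an index `>= n`.
-/

set_option autoImplicit false

namespace Pool.Agent.CR53

open Filter Topology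

/-- The number of elements of `A` strictly between `n ^ 2` and `(n + 1) ^ 2`. -/
noncomputable def sqCount (A : Set ℕ) (n : ℕ) : ℕ :=
  {m : ℕ | m ∈ A ∧ n ^ 2 < m ∧ m < (n + 1) ^ 2}.ncard

/-- `k` is a record: `1 ≤ k` and `N j ≥ N k` for all `j > k`. -/
def IsRec (N : ℕ → ℕ) (k : ℕ) : Prop := 1 ≤ k ∧ ∀ j, k < j → N k ≤ N j

/-- The `n`-th record in increasing order (`n = 1, 2, ...`). -/
noncomputable def recSeq (N : ℕ → ℕ) (n : ℕ) : ℕ := Nat.nth (IsRec N) (n - 1)

/-- Slowly varying function. -/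
def SlowlyVarying (l : ℝ → ℝ) : Prop :=
  ∀ lam : ℝ, 0 < lam → Tendsto (fun x => l (lam * x) / l x) atTop (𝓝 1)

/-- Regularly varying function of index `b` (positive on `(0, ∞)`). -/
def RegularlyVarying (f : ℝ → ℝ) (b : ℝ) : Prop :=
  (∀ x, 0 < x → 0 < f x) ∧
    ∃ l : ℝ → ℝ, SlowlyVarying l ∧ ∀ x, 0 < x → f x = x ^ b * l x

/-- The statement asked for in Q1, for the counts `N`: the sequence of records is infinite and
asymptotic to a regularly varying function of an index `b` with `3 / 2 < b ≤ 2`. -/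
def Q1 (N : ℕ → ℕ) : Prop :=
  {k | IsRec N k}.Infinite ∧
    ∃ (b : ℝ) (f : ℝ → ℝ), 3 / 2 < b ∧ b ≤ 2 ∧ RegularlyVarying f b ∧
      Tendsto (fun n : ℕ => (recSeq N n : ℝ) / f n) atTop (𝓝 1)

/-- The least value of `a` at an index `≥ n`. -/
noncomputable def fut (a : ℕ → ℕ) (n : ℕ) : ℕ := sInf (a '' Set.Ici n)

lemma fut_le {a : ℕ → ℕ} {n j : ℕ} (h : n ≤ j) : fut a n ≤ a j :=
  Nat.sInf_le ⟨j, h, rfl⟩

lemma exists_fut (a : ℕ → ℕ) (n : ℕ) : ∃ j, n ≤ j ∧ fut a n = a j := by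
  have hne : (a '' Set.Ici n).Nonempty := ⟨a n, n, le_refl n, rfl⟩
  obtain ⟨j, hj, h⟩ := Nat.sInf_mem hne
  exact ⟨j, hj, h.symm⟩

lemma le_fut_iff {a : ℕ → ℕ} {n m : ℕ} : m ≤ fut a n ↔ ∀ j, n ≤ j → m ≤ a j := by
  constructor
  · intro h j hj
    exact h.trans (fut_le hj)
  · intro h
    obtain ⟨j, hj, e⟩ := exists_fut a n
    rw [e]; exact h j hj

lemma fut_mono (a : ℕ → ℕ) : Monotone (fut a) := by
  intro m n h
  rw [le_fut_iff]
  intro j hj
  exact fut_le (h.trans hj)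

lemma fut_succ (a : ℕ → ℕ) (n : ℕ) : fut a n = min (a n) (fut a (n + 1)) := by
  apply le_antisymm
  · exact le_min (fut_le le_rfl) (fut_mono a (Nat.le_succ n))
  · rw [le_fut_iff]
    intro j hj
    rcases Nat.eq_or_lt_of_le hj with h | h
    · subst h; exact min_le_left _ _
    · exact (min_le_right _ _).trans (fut_le h)

lemma isRec_iff {a : ℕ → ℕ} {k : ℕ} (hk : 1 ≤ k) : IsRec a k ↔ a k ≤ fut a (k + 1) := by
  constructor
  · rintro ⟨_, h⟩
    rw [le_fut_iff]
    intro j hj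
    exact h j hj
  · intro h
    exact ⟨hk, fun j hj => (le_fut_iff.mp h) j hj⟩

/-- A non-negative sequence whose ratios of consecutive terms are those of a sum of `T` independent
indicators with odds between `wm` and `wp`. -/
structure Ratio (g : ℕ → ℝ) (T wm wp : ℝ) : Prop where
  nonneg : ∀ i, 0 ≤ g i
  lo : ∀ i : ℕ, wm * (T - i) * g i ≤ (i + 1) * g (i + 1)
  hi : ∀ i : ℕ, (i + 1) * g (i + 1) ≤ wp * (T - i) * g i

/-- `∑_{i ≤ f} g i` -/
noncomputable def S0 (g : ℕ → ℝ) (f : ℕ) : ℝ := ∑ i ∈ Finset.range (f + 1), g i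

/-- `∑_{i ≤ f} (f - i) g i` -/
noncomputable def S1 (g : ℕ → ℝ) (f : ℕ) : ℝ := ∑ i ∈ Finset.range (f + 1), ((f : ℝ) - i) * g i

/-- `∑_{i ≤ f} (f - i)^2 g i` -/
noncomputable def S2 (g : ℕ → ℝ) (f : ℕ) : ℝ :=
  ∑ i ∈ Finset.range (f + 1), ((f : ℝ) - i) ^ 2 * g i

/-- The family of laws used: `g n` is a probability on `{0, ..., 2 n}` with odds between
`1 / (2 log (n+1) - 1)` and `1 / (2 log n - 1)`. -/
structure Laws (g : ℕ → ℕ → ℝ) : Prop where
  ratio : ∀ n, 2 ≤ n → Ratio (g n) (2 * n) (1 / (2 * Real.log (n + 1) - 1))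
    (1 / (2 * Real.log n - 1))
  nonneg : ∀ n i, 0 ≤ g n i
  zero : ∀ n i, 2 * n < i → g n i = 0
  total : ∀ n, ∑ i ∈ Finset.range (2 * n + 1), g n i = 1

end Pool.Agent.CR53
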