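import Pool.Agent.CR53.Asym

/-! Deterministic part. -/

set_option autoImplicit false

namespace Pool.Agent.CR53

open Filter Topology Finset Asymptotics

/-! ### Abel summation -/

lemma abel (F : ℕ → ℝ) (x : ℕ) : ∑ n ∈ range x, lam n * (F (n + 1) - F n)
    = lam x * F x - lam 0 * F 0 + ∑ n ∈ range x, (lam n - lam (n + 1)) * F (n + 1) := by
  induction x with
  | zero => simp
  | succ x ih => rw [sum_range_succ, sum_range_succ, ih]; ring

/-- comparison sequence -/
noncomputable def qq (n : ℕ) : ℝ := 2 * (Real.sqrt (n + 1) - Real.sqrt n)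

lemma qq_pos (n : ℕ) : 0 < qq n := by
  unfold qq
  have : Real.sqrt n < Real.sqrt (n + 1) :=
    Real.sqrt_lt_sqrt (Nat.cast_nonneg n) (by linarith)
  linarith

lemma sum_qq (x : ℕ) : ∑ n ∈ range x, qq n = 2 * Real.sqrt x := by
  have h := sum_range_sub (fun n : ℕ => 2 * Real.sqrt n) x
  simp only [Nat.cast_zero, Real.sqrt_zero, mul_zero, sub_zero] at h
  rw [← h]
  refine sum_congr rfl fun n _ => ?_
  unfold qq
  push_cast
  ring

lemma t_ratio : Tendsto (fun n : ℕ => Real.sqrt n / Real.sqrt (n + 1)) atTop (𝓝 1) := by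
  have h := (tendsto_natCast_div_add_atTop (1 : ℝ))
  have h2 := (Real.continuous_sqrt.tendsto 1).comp h
  rw [Real.sqrt_one] at h2
  refine h2.congr fun n => ?_
  simp only [Function.comp]
  rw [Real.sqrt_div (Nat.cast_nonneg n)]

lemma t_qq : Tendsto (fun n : ℕ => qq n * Real.sqrt n) atTop (𝓝 1) := by
  have h : Tendsto (fun n : ℕ => 2 * ((Real.sqrt n / Real.sqrt (n + 1))
      / (1 + Real.sqrt n / Real.sqrt (n + 1)))) atTop (𝓝 (2 * (1 / (1 + 1)))) :=
    (t_ratio.div (tendsto_const_nhds.add t_ratio) (by norm_num)).const_mul 2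
  have e : (2 : ℝ) * (1 / (1 + 1)) = 1 := by norm_num
  rw [e] at h
  refine h.congr fun n => ?_
  have ht : 0 < Real.sqrt ((n : ℝ) + 1) := Real.sqrt_pos.mpr (by positivity)
  have hs : 0 ≤ Real.sqrt (n : ℝ) := Real.sqrt_nonneg _
  have h1 : Real.sqrt ((n : ℝ) + 1) * Real.sqrt ((n : ℝ) + 1) = n + 1 :=
    Real.mul_self_sqrt (by positivity)
  have h2 : Real.sqrt (n : ℝ) * Real.sqrt (n : ℝ) = n := Real.mul_self_sqrt (by positivity)
  unfold qq
  set t := Real.sqrt ((n : ℝ) + 1)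
  set s := Real.sqrt (n : ℝ)
  have h3 : (t - s) * (t + s) = 1 := by nlinarith
  have h4 : t + s ≠ 0 := by positivity
  have h5 : t - s = 1 / (t + s) := by rw [eq_div_iff h4]; exact h3
  rw [h5]
  field_simp

lemma t_sum_qq : Tendsto (fun x : ℕ => ∑ n ∈ range x, qq n) atTop atTop := by
  simp only [sum_qq]
  exact t_sqrt.const_mul_atTop (by norm_num)

/-- sums of sequences equivalent to `c / √n` -/
lemma sum_equiv {f : ℕ → ℝ} {c : ℝ} (h : Tendsto (fun n : ℕ => f n * Real.sqrt n) atTop (𝓝 c)) :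
    Tendsto (fun x : ℕ => (∑ n ∈ range x, f n) / Real.sqrt x) atTop (𝓝 (2 * c)) := by
  have h1 : (fun n => f n - c * qq n) =o[atTop] qq := by
    refine (isLittleO_iff_tendsto' (Eventually.of_forall fun n hn => ?_)).2 ?_
    · exact absurd hn (qq_pos n).ne'
    · have h2 := (h.div t_qq one_ne_zero).sub_const c
      rw [div_one, sub_self] at h2
      refine h2.congr' ?_
      filter_upwards [eventually_ge_atTop 1] with n hn
      have hn1 : (1 : ℝ) ≤ n := by exact_mod_cast hn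
      have hs : Real.sqrt (n : ℝ) ≠ 0 := (Real.sqrt_pos.mpr (by linarith)).ne'
      have hq := (qq_pos n).ne'
      simp only [Pi.div_apply]
      field_simp
  have h3 := (h1.sum_range (fun n => (qq_pos n).le) t_sum_qq).tendsto_div_nhds_zero
  have h4 := (h3.const_mul 2).add_const (2 * c)
  rw [mul_zero, zero_add] at h4
  refine h4.congr' ?_
  filter_upwards [eventually_ge_atTop 1] with x hx
  have hx1 : (1 : ℝ) ≤ x := by exact_mod_cast hx
  have hs : Real.sqrt (x : ℝ) ≠ 0 := (Real.sqrt_pos.mpr (by linarith)).ne'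
  rw [sum_sub_distrib, ← mul_sum, sum_qq]
  field_simp
  ring

lemma t_diff : Tendsto (fun n : ℕ => (lam n - lam (n + 1)) * (((n : ℝ) + 1) / Real.log (n + 1))
    * Real.sqrt n) atTop (𝓝 (1 / 2)) := by
  have h1 : Tendsto (fun n : ℕ => 1 / (1 + Real.sqrt n / Real.sqrt (n + 1))) atTop
      (𝓝 (1 / (1 + 1))) :=
    tendsto_const_nhds.div (tendsto_const_nhds.add t_ratio) (by norm_num)
  have h2 : Tendsto (fun n : ℕ => ((n : ℝ) + 1) * (Real.log (n + 1) - Real.log n)
      / Real.log (n + 1)) atTop (𝓝 0) := by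
    have hlog : Tendsto (fun n : ℕ => 2 * (1 / Real.log ((n : ℝ) + 1))) atTop (𝓝 (2 * 0)) := by
      refine Tendsto.const_mul 2 ?_
      have := t_invlog.comp (tendsto_add_atTop_nat 1)
      refine this.congr fun n => ?_
      simp only [Function.comp]
      push_cast
      rfl
    rw [mul_zero] at hlog
    refine tendsto_of_tendsto_of_tendsto_of_le_of_le' tendsto_const_nhds hlog ?_ ?_
    · filter_upwards [eventually_ge_atTop 2] with n hn
      have hn2 : (2 : ℝ) ≤ n := by exact_mod_cast hn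
      have h3 := log_succ_ge n hn
      have h4 := log_half hn
      exact div_nonneg (mul_nonneg (by linarith) (by linarith)) (by linarith)
    · filter_upwards [eventually_ge_atTop 2] with n hn
      have hn2 : (2 : ℝ) ≤ n := by exact_mod_cast hn
      have h3 := log_succ_ge n hn
      have h4 := log_half hn
      have h5 := log_succ_sub n (by omega)
      rw [mul_one_div]
      refine div_le_div_of_nonneg_right ?_ (by linarith)
      have h6 : ((n : ℝ) + 1) * (Real.log (n + 1) - Real.log n) ≤ ((n : ℝ) + 1) * (1 / n) :=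
        mul_le_mul_of_nonneg_left h5 (by linarith)
      have h7 : ((n : ℝ) + 1) * (1 / n) ≤ 2 := by
        rw [mul_one_div, div_le_iff₀ (by linarith)]; linarith
      linarith
  have h3 := h1.sub h2
  have e : (1 : ℝ) / (1 + 1) - 0 = 1 / 2 := by norm_num
  rw [e] at h3
  refine h3.congr' ?_
  filter_upwards [eventually_ge_atTop 2] with n hn
  have hn2 : (2 : ℝ) ≤ n := by exact_mod_cast hn
  have h3 := log_succ_ge n hn
  have h4 := log_half hn
  have ht : 0 < Real.sqrt ((n : ℝ) + 1) := Real.sqrt_pos.mpr (by positivity)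
  have hs : 0 < Real.sqrt (n : ℝ) := Real.sqrt_pos.mpr (by linarith)
  have h1' : Real.sqrt ((n : ℝ) + 1) * Real.sqrt ((n : ℝ) + 1) = n + 1 :=
    Real.mul_self_sqrt (by positivity)
  have h2' : Real.sqrt (n : ℝ) * Real.sqrt (n : ℝ) = n := Real.mul_self_sqrt (by positivity)
  unfold lam
  push_cast
  have hL : Real.log ((n : ℝ) + 1) ≠ 0 := by linarith
  set t := Real.sqrt ((n : ℝ) + 1)
  set s := Real.sqrt (n : ℝ)
  set L' := Real.log ((n : ℝ) + 1)
  set L := Real.log (n : ℝ)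
  have h6 : (t - s) * (t + s) = 1 := by nlinarith
  have h4' : t + s ≠ 0 := by positivity
  have h5 : 1 / (1 + s / t) = t * (t - s) := by
    have : 1 + s / t = (t + s) / t := by field_simp
    rw [this, one_div_div]
    rw [div_eq_iff h4']
    linear_combination (-t) * h6
  rw [h5, ← h1']
  field_simp
  ring

/-- Abel summation for the future minimum -/
theorem vsum {F : ℕ → ℝ} (hF : Tendsto (fun n : ℕ => F n * Real.log n / n) atTop (𝓝 1)) :
    Tendsto (fun x : ℕ => (∑ n ∈ range x, lam n * (F (n + 1) - F n)) / Real.sqrt x)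
      atTop (𝓝 2) := by
  have h1 : Tendsto (fun n : ℕ => ((lam n - lam (n + 1)) * F (n + 1)) * Real.sqrt n) atTop
      (𝓝 (1 / 2)) := by
    have h2 := hF.comp (tendsto_add_atTop_nat 1)
    have h3 := t_diff.mul h2
    rw [mul_one] at h3
    refine h3.congr' ?_
    filter_upwards [eventually_ge_atTop 2] with n hn
    have hn2 : (2 : ℝ) ≤ n := by exact_mod_cast hn
    have h3 := log_succ_ge n hn
    have h4 := log_half hn
    have hL : Real.log ((n : ℝ) + 1) ≠ 0 := by linarith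
    have hn1 : (n : ℝ) + 1 ≠ 0 := by linarith
    simp only [Function.comp]
    push_cast
    field_simp
  have h2 := sum_equiv h1
  have h3 := hF.add h2
  have e : (1 : ℝ) + 2 * (1 / 2) = 2 := by norm_num
  rw [e] at h3
  refine h3.congr' ?_
  filter_upwards [eventually_ge_atTop 2] with x hx
  have hx2 : (2 : ℝ) ≤ x := by exact_mod_cast hx
  have hs : 0 < Real.sqrt (x : ℝ) := Real.sqrt_pos.mpr (by linarith)
  have h2' : Real.sqrt (x : ℝ) * Real.sqrt (x : ℝ) = x := Real.mul_self_sqrt (by positivity)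
  rw [abel]
  have e0 : lam 0 = 0 := by simp [lam]
  rw [e0, zero_mul, sub_zero, add_div]
  congr 1
  unfold lam
  have : F x * Real.log x / x = F x * Real.log x / (Real.sqrt x * Real.sqrt x) := by rw [h2']
  rw [this]
  field_simp

/-! ### sandwich -/

lemma sumle {d e : ℕ → ℝ} {n0 : ℕ} (he : ∀ n, 0 ≤ e n) (h : ∀ n, n0 ≤ n → d n ≤ e n) (x : ℕ) :
    ∑ n ∈ range x, d n ≤ ∑ n ∈ range n0, |d n| + ∑ n ∈ range x, e n := by
  have h1 : ∀ n ∈ range x, d n ≤ (if n < n0 then |d n| else 0) + e n := by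
    intro n _
    split_ifs with hc
    · have := le_abs_self (d n)
      have := he n
      linarith
    · have := h n (by omega)
      linarith
  refine (sum_le_sum h1).trans ?_
  rw [sum_add_distrib]
  refine add_le_add ?_ le_rfl
  rw [← sum_filter]
  refine sum_le_sum_of_subset_of_nonneg ?_ fun n _ _ => abs_nonneg _
  intro n hn
  exact mem_range.mpr (mem_filter.mp hn).2

lemma t_pow8 : Tendsto (fun i : ℕ => (i : ℝ) ^ 8) atTop atTop :=
  (tendsto_pow_atTop (by norm_num)).comp tendsto_natCast_atTop_atTop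

lemma sqrt_pow16 (i : ℕ) : Real.sqrt ((i ^ 16 : ℕ) : ℝ) = (i : ℝ) ^ 8 := by
  have : ((i ^ 16 : ℕ) : ℝ) = ((i : ℝ) ^ 8) ^ 2 := by push_cast; ring
  rw [this, Real.sqrt_sq (by positivity)]

lemma t_i16 : Tendsto (fun i : ℕ => i ^ 16) atTop atTop :=
  tendsto_pow_atTop (by norm_num)

theorem sandwich {H R : ℕ → ℝ}
    (hH : ∀ ε : ℝ, 0 < ε → ε < 1 / 4 → ∀ᶠ n : ℕ in atTop, R n ≤ (1 + 2 * ε) * H n
      ∧ H n ≤ (1 + 2 * ε) * R n + (n : ℝ) ^ (-(1 / 2 + ε / 2)))
    (hR : Tendsto (fun i : ℕ => (∑ n ∈ range (i ^ 16), R n) / (i : ℝ) ^ 8) atTop (𝓝 2)) :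
    Tendsto (fun i : ℕ => (∑ n ∈ range (i ^ 16), H n) / (i : ℝ) ^ 8) atTop (𝓝 2) := by
  refine tendsto_order.2 ⟨fun a ha => ?_, fun a ha => ?_⟩
  · -- lower bound
    set ε := min (1 / 8) ((2 - a) / 8) with hε
    have hε1 : ε ≤ 1 / 8 := min_le_left _ _
    have hε2 : ε ≤ (2 - a) / 8 := min_le_right _ _
    have hε0 : 0 < ε := lt_min (by norm_num) (by linarith)
    obtain ⟨n0, hn0⟩ := eventually_atTop.mp (hH ε hε0 (by linarith))
    have hb := fun x => sumle (d := fun n => R n - (1 + 2 * ε) * H n) (e := fun _ => 0) (n0 := n0)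
      (fun n => le_rfl) (fun n hn => by have := (hn0 n hn).1; linarith) x
    have hK : Tendsto (fun i : ℕ => (∑ n ∈ range n0, |R n - (1 + 2 * ε) * H n|) / (i : ℝ) ^ 8)
        atTop (𝓝 0) := tendsto_const_nhds.div_atTop t_pow8
    have hL := hR.sub hK
    rw [sub_zero] at hL
    have hlt : (1 + 2 * ε) * a < 2 := by
      rcases le_total a 0 with h | h
      · nlinarith
      · nlinarith
    filter_upwards [hL.eventually_const_lt hlt, eventually_ge_atTop 1] with i h1 hi
    have hi1 : (1 : ℝ) ≤ i := by exact_mod_cast hi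
    have hp : 0 < (i : ℝ) ^ 8 := by positivity
    have h2 := hb (i ^ 16)
    rw [sum_const_zero, add_zero, sum_sub_distrib, ← mul_sum] at h2
    rw [← sub_div, lt_div_iff₀ hp] at h1
    rw [lt_div_iff₀ hp]
    have h3 : (1 + 2 * ε) * (a * (i : ℝ) ^ 8) < (1 + 2 * ε) * ∑ n ∈ range (i ^ 16), H n := by
      linarith
    exact lt_of_mul_lt_mul_left h3 (by linarith)
  · -- upper bound
    set ε := min (1 / 8) ((a - 2) / 8) with hε
    have hε1 : ε ≤ 1 / 8 := min_le_left _ _
    have hε2 : ε ≤ (a - 2) / 8 := min_le_right _ _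
    have hε0 : 0 < ε := lt_min (by norm_num) (by linarith)
    obtain ⟨n0, hn0⟩ := eventually_atTop.mp (hH ε hε0 (by linarith))
    have hb := fun x => sumle (d := fun n => H n - (1 + 2 * ε) * R n)
      (e := fun n : ℕ => (n : ℝ) ^ (-(1 / 2 + ε / 2))) (n0 := n0)
      (fun n => Real.rpow_nonneg (Nat.cast_nonneg n) _)
      (fun n hn => by have := (hn0 n hn).2; linarith) x
    have hK : Tendsto (fun i : ℕ => (∑ n ∈ range n0, |H n - (1 + 2 * ε) * R n|) / (i : ℝ) ^ 8)
        atTop (𝓝 0) := tendsto_const_nhds.div_atTop t_pow8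
    have hE : Tendsto (fun i : ℕ => (∑ n ∈ range (i ^ 16), (n : ℝ) ^ (-(1 / 2 + ε / 2)))
        / (i : ℝ) ^ 8) atTop (𝓝 0) := by
      have h1 : Tendsto (fun n : ℕ => (n : ℝ) ^ (-(1 / 2 + ε / 2)) * Real.sqrt n) atTop (𝓝 0) := by
        have h2 := (tendsto_rpow_neg_atTop (show 0 < ε / 2 by positivity)).comp
          tendsto_natCast_atTop_atTop (α := ℕ)
        refine h2.congr' ?_
        filter_upwards [eventually_ge_atTop 1] with n hn
        have hn1 : (1 : ℝ) ≤ n := by exact_mod_cast hn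
        simp only [Function.comp]
        rw [Real.sqrt_eq_rpow, ← Real.rpow_add (by linarith)]
        congr 1; ring
      have h3 := (sum_equiv h1).comp t_i16
      rw [mul_zero] at h3
      refine h3.congr fun i => ?_
      simp only [Function.comp]
      rw [sqrt_pow16]
    have hL := (hK.add hE).add (hR.const_mul (1 + 2 * ε))
    have hlt : (0 : ℝ) + 0 + (1 + 2 * ε) * 2 < a := by linarith
    filter_upwards [hL.eventually_lt_const hlt, eventually_ge_atTop 1] with i h1 hi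
    have hi1 : (1 : ℝ) ≤ i := by exact_mod_cast hi
    have hp : 0 < (i : ℝ) ^ 8 := by positivity
    have h2 := hb (i ^ 16)
    rw [sum_sub_distrib, ← mul_sum] at h2
    refine lt_of_le_of_lt ?_ h1
    rw [← mul_div_assoc, ← add_div, ← add_div]
    exact div_le_div_of_nonneg_right (by linarith) hp.le

/-! ### interpolation -/

/-- iterated square root -/
def rt (x : ℕ) : ℕ := Nat.sqrt (Nat.sqrt (Nat.sqrt (Nat.sqrt x)))

lemma rt_le (x : ℕ) : rt x ^ 16 ≤ x := by
  have h1 := Nat.sqrt_le' x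
  have h2 := Nat.sqrt_le' (Nat.sqrt x)
  have h3 := Nat.sqrt_le' (Nat.sqrt (Nat.sqrt x))
  have h4 := Nat.sqrt_le' (Nat.sqrt (Nat.sqrt (Nat.sqrt x)))
  have e : rt x ^ 16 = (((rt x ^ 2) ^ 2) ^ 2) ^ 2 := by ring
  rw [e]
  calc (((rt x ^ 2) ^ 2) ^ 2) ^ 2 ≤ ((Nat.sqrt (Nat.sqrt (Nat.sqrt x)) ^ 2) ^ 2) ^ 2 :=
        Nat.pow_le_pow_left (Nat.pow_le_pow_left (Nat.pow_le_pow_left h4 2) 2) 2
    _ ≤ (Nat.sqrt (Nat.sqrt x) ^ 2) ^ 2 :=
        Nat.pow_le_pow_left (Nat.pow_le_pow_left h3 2) 2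
    _ ≤ (Nat.sqrt x) ^ 2 := Nat.pow_le_pow_left h2 2
    _ ≤ x := h1

lemma lt_rt (x : ℕ) : x < (rt x + 1) ^ 16 := by
  have h1 := Nat.lt_succ_sqrt' x
  have h2 := Nat.lt_succ_sqrt' (Nat.sqrt x)
  have h3 := Nat.lt_succ_sqrt' (Nat.sqrt (Nat.sqrt x))
  have h4 := Nat.lt_succ_sqrt' (Nat.sqrt (Nat.sqrt (Nat.sqrt x)))
  have e : (rt x + 1) ^ 16 = ((((rt x + 1) ^ 2) ^ 2) ^ 2) ^ 2 := by ring
  rw [e]
  simp only [Nat.succ_eq_add_one] at h1 h2 h3 h4
  calc x < (Nat.sqrt x + 1) ^ 2 := h1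
    _ ≤ ((Nat.sqrt (Nat.sqrt x) + 1) ^ 2) ^ 2 := Nat.pow_le_pow_left h2 2
    _ ≤ (((Nat.sqrt (Nat.sqrt (Nat.sqrt x)) + 1) ^ 2) ^ 2) ^ 2 :=
        Nat.pow_le_pow_left (Nat.pow_le_pow_left h3 2) 2
    _ ≤ ((((rt x + 1) ^ 2) ^ 2) ^ 2) ^ 2 :=
        Nat.pow_le_pow_left (Nat.pow_le_pow_left (Nat.pow_le_pow_left h4 2) 2) 2

lemma t_rt : Tendsto rt atTop atTop := by
  refine tendsto_atTop_atTop.2 fun b => ⟨b ^ 16, fun x hx => ?_⟩
  by_contra hc
  push Not at hc
  have h1 := lt_rt x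
  have h2 : (rt x + 1) ^ 16 ≤ b ^ 16 := Nat.pow_le_pow_left hc 16
  omega

theorem interp {u : ℕ → ℝ} (hm : Monotone u) (h0 : ∀ x, 0 ≤ u x)
    (h : Tendsto (fun i : ℕ => u (i ^ 16) / (i : ℝ) ^ 8) atTop (𝓝 2)) :
    Tendsto (fun x : ℕ => u x / Real.sqrt x) atTop (𝓝 2) := by
  have hr : Tendsto (fun i : ℕ => (i : ℝ) / (i + 1)) atTop (𝓝 1) :=
    tendsto_natCast_div_add_atTop (1 : ℝ)
  have hlo : Tendsto (fun i : ℕ => u (i ^ 16) / ((i : ℝ) + 1) ^ 8) atTop (𝓝 2) := by
    have h1 := h.mul (hr.pow 8)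
    rw [one_pow, mul_one] at h1
    refine h1.congr' ?_
    filter_upwards [eventually_ge_atTop 1] with i hi
    have hi1 : (1 : ℝ) ≤ i := by exact_mod_cast hi
    have : (i : ℝ) ≠ 0 := by linarith
    have : (i : ℝ) + 1 ≠ 0 := by linarith
    field_simp
  have hhi : Tendsto (fun i : ℕ => u ((i + 1) ^ 16) / (i : ℝ) ^ 8) atTop (𝓝 2) := by
    have h1 := (h.comp (tendsto_add_atTop_nat 1)).div (hr.pow 8) (by norm_num)
    rw [one_pow, div_one] at h1
    refine h1.congr' ?_
    filter_upwards [eventually_ge_atTop 1] with i hi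
    have hi1 : (1 : ℝ) ≤ i := by exact_mod_cast hi
    have : (i : ℝ) ≠ 0 := by linarith
    have : (i : ℝ) + 1 ≠ 0 := by linarith
    simp only [Function.comp, Pi.div_apply]
    push_cast
    field_simp
  refine tendsto_of_tendsto_of_tendsto_of_le_of_le' (hlo.comp t_rt) (hhi.comp t_rt) ?_ ?_
  · filter_upwards [eventually_ge_atTop 1] with x hx
    have hx1 : (1 : ℝ) ≤ x := by exact_mod_cast hx
    simp only [Function.comp]
    have h1 : Real.sqrt x ≤ ((rt x : ℝ) + 1) ^ 8 := by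
      rw [Real.sqrt_le_left (by positivity)]
      have h2 : (x : ℝ) ≤ ((rt x : ℝ) + 1) ^ 16 := by exact_mod_cast (lt_rt x).le
      calc (x : ℝ) ≤ ((rt x : ℝ) + 1) ^ 16 := h2
        _ = (((rt x : ℝ) + 1) ^ 8) ^ 2 := by ring
    have hs : 0 < Real.sqrt (x : ℝ) := Real.sqrt_pos.mpr (by linarith)
    exact div_le_div₀ (h0 x) (hm (rt_le x)) hs h1
  · filter_upwards [t_rt.eventually_ge_atTop 1] with x hx
    have hx1 : (1 : ℝ) ≤ rt x := by exact_mod_cast hx
    simp only [Function.comp]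
    have h1 : ((rt x : ℝ)) ^ 8 ≤ Real.sqrt x := by
      refine Real.le_sqrt_of_sq_le ?_
      have h2 : ((rt x : ℝ)) ^ 16 ≤ x := by exact_mod_cast rt_le x
      calc (((rt x : ℝ)) ^ 8) ^ 2 = ((rt x : ℝ)) ^ 16 := by ring
        _ ≤ (x : ℝ) := h2
    exact div_le_div₀ (h0 _) (hm (lt_rt x).le) (by positivity) h1

/-! ### from the counting function to the sequence -/

theorem seq_of_count {p : ℕ → Prop} [DecidablePred p]
    (h : Tendsto (fun x : ℕ => (Nat.count p x : ℝ) / Real.sqrt x) atTop (𝓝 2)) :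
    {k | p k}.Infinite ∧
      Tendsto (fun n : ℕ => (Nat.nth p (n - 1) : ℝ) / (n : ℝ) ^ 2) atTop (𝓝 (1 / 4)) := by
  have hinf : {k | p k}.Infinite := by
    intro hfin
    have h1 : ∀ x, Nat.count p x ≤ hfin.toFinset.card := by
      intro x
      rw [Nat.count_eq_card_filter_range]
      refine card_le_card fun k hk => ?_
      rw [Set.Finite.mem_toFinset]
      exact (mem_filter.mp hk).2
    have h2 : Tendsto (fun x : ℕ => (Nat.count p x : ℝ) / Real.sqrt x) atTop (𝓝 0) := by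
      have h3 : Tendsto (fun x : ℕ => (hfin.toFinset.card : ℝ) / Real.sqrt x) atTop (𝓝 0) :=
        tendsto_const_nhds.div_atTop t_sqrt
      refine tendsto_of_tendsto_of_tendsto_of_le_of_le tendsto_const_nhds h3 (fun x => ?_)
        (fun x => ?_)
      · positivity
      · exact div_le_div_of_nonneg_right (Nat.cast_le.mpr (h1 x)) (Real.sqrt_nonneg _)
    have := tendsto_nhds_unique h h2
    norm_num at this
  refine ⟨hinf, ?_⟩
  have hmono : StrictMono (Nat.nth p) := Nat.nth_strictMono hinf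
  have ht : Tendsto (Nat.nth p) atTop atTop := hmono.tendsto_atTop
  have h1 := h.comp ht
  have h2 : Tendsto (fun m : ℕ => (m : ℝ) / Real.sqrt (Nat.nth p m)) atTop (𝓝 2) := by
    refine h1.congr fun m => ?_
    simp only [Function.comp]
    rw [Nat.count_nth_of_infinite hinf]
  -- invert
  have h3 : Tendsto (fun m : ℕ => ((m : ℝ) / Real.sqrt (Nat.nth p m))⁻¹ ^ 2
      * ((m : ℝ) / (m + 1)) ^ 2) atTop (𝓝 ((2 : ℝ)⁻¹ ^ 2 * 1 ^ 2)) :=
    ((h2.inv₀ (by norm_num)).pow 2).mul ((tendsto_natCast_div_add_atTop (1 : ℝ)).pow 2)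
  have e : (2 : ℝ)⁻¹ ^ 2 * 1 ^ 2 = 1 / 4 := by norm_num
  rw [e] at h3
  rw [← tendsto_add_atTop_iff_nat 1]
  refine h3.congr' ?_
  filter_upwards [eventually_ge_atTop 1] with m hm
  have hm1 : (1 : ℝ) ≤ m := by exact_mod_cast hm
  have h4 : Real.sqrt (Nat.nth p m : ℝ) ^ 2 = Nat.nth p m := Real.sq_sqrt (Nat.cast_nonneg _)
  have h5 : (m : ℝ) ≠ 0 := by linarith
  have h6 : (m : ℝ) + 1 ≠ 0 := by linarith
  rw [inv_div, div_pow, h4, Nat.add_sub_cancel]
  push_cast
  field_simp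

/-- asymptotics of the future minimum -/
theorem fut_asym {N : ℕ → ℕ}
    (hup : ∀ᶠ n : ℕ in atTop, (fut N (n + 1) : ℝ) ≤ mu n)
    (hlo : ∀ᶠ n : ℕ in atTop, mu n - 3 * Real.sqrt n < (N n : ℝ)) :
    Tendsto (fun n : ℕ => (fut N n : ℝ) * Real.log n / n) atTop (𝓝 1) := by
  refine tendsto_order.2 ⟨fun a ha => ?_, fun a ha => ?_⟩
  · set δ := min (1 / 2) ((1 - a) / 2) with hδ
    have hδ1 : δ ≤ 1 / 2 := min_le_left _ _
    have hδ2 : δ ≤ (1 - a) / 2 := min_le_right _ _
    have hδ0 : 0 < δ := lt_min (by norm_num) (by linarith)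
    have h1 : ∀ᶠ n : ℕ in atTop, (1 - δ) * mu n ≤ (N n : ℝ) := by
      filter_upwards [hlo, t_lam.eventually_lt_const (show (0 : ℝ) < δ / 3 by positivity),
        eventually_ge_atTop 2] with n hn hl h2
      have hlm := lam_mul_mu h2
      have hmu := mu_pos h2
      have : lam n * mu n ≤ δ / 3 * mu n := mul_le_mul_of_nonneg_right hl.le hmu.le
      rw [hlm] at this
      linarith
    obtain ⟨n0, hn0⟩ := eventually_atTop.mp h1
    filter_upwards [eventually_ge_atTop n0, eventually_ge_atTop 3] with n h2 h3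
    obtain ⟨j, hj, e⟩ := exists_fut N n
    have hjj := hn0 j (by omega)
    have hnn : (3 : ℝ) ≤ n := by exact_mod_cast h3
    have hnj : (n : ℝ) ≤ j := by exact_mod_cast hj
    have hLn := log_ge_one h3
    have hLj := log_ge_one (show 3 ≤ j by omega)
    have hmono : mu n ≤ mu j := by
      have he := Real.exp_one_lt_d9
      have h4 := Real.log_div_self_antitoneOn (show Real.exp 1 ≤ (n : ℝ) by linarith)
        (show Real.exp 1 ≤ (j : ℝ) by linarith) hnj
      simp only at h4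
      unfold mu
      rw [div_le_div_iff₀ (by linarith) (by linarith)]
      rw [div_le_div_iff₀ (by linarith) (by linarith)] at h4
      linarith
    have h5 : (1 - δ) * mu n ≤ (fut N n : ℝ) := by
      rw [e]
      refine le_trans ?_ hjj
      exact mul_le_mul_of_nonneg_left hmono (by linarith)
    have h6 : (1 - δ) ≤ (fut N n : ℝ) * Real.log n / n := by
      rw [le_div_iff₀ (by linarith)]
      have h7 := mul_le_mul_of_nonneg_right h5 (by linarith : (0 : ℝ) ≤ Real.log n)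
      have h8 : mu n * Real.log n = n := by unfold mu; field_simp
      rw [mul_assoc, h8] at h7
      exact h7
    linarith
  · filter_upwards [hup, eventually_ge_atTop 3] with n h2 h3
    have hnn : (3 : ℝ) ≤ n := by exact_mod_cast h3
    have hLn := log_ge_one h3
    have h4 : (fut N n : ℝ) ≤ mu n :=
      le_trans (by exact_mod_cast fut_mono N (Nat.le_succ n)) h2
    have h5 : (fut N n : ℝ) * Real.log n / n ≤ 1 := by
      rw [div_le_one (by linarith)]
      have h7 := mul_le_mul_of_nonneg_right h4 (by linarith : (0 : ℝ) ≤ Real.log n)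
      have h8 : mu n * Real.log n = n := by unfold mu; field_simp
      rw [h8] at h7
      exact h7
    linarith

end Pool.Agent.CR53
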