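import Pool.Agent.CR53.Tail

/-! Almost sure convergence of the normalised sums of centred terms. -/

set_option autoImplicit false

namespace Pool.Agent.CR53

open MeasureTheory ProbabilityTheory Filter Topology Finset

variable {Ω : Type*} [mΩ : MeasurableSpace Ω] {μ : Measure Ω} {E : ℕ → Set Ω}

lemma as_tendsto [IsProbabilityMeasure μ] {X : ℕ → Ω → ℝ} (hm : ∀ i, Measurable (X i))
    (hint : ∀ i, Integrable (fun ω => X i ω ^ 2) μ) {C : ℝ}
    (h : ∀ i : ℕ, 1 ≤ i → ∫ ω, X i ω ^ 2 ∂μ ≤ C / (i : ℝ) ^ 2) :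
    ∀ᵐ ω ∂μ, Tendsto (fun i => X i ω) atTop (𝓝 0) := by
  have hs : Summable (fun i : ℕ => ∫ ω, X i ω ^ 2 ∂μ) := by
    rw [← summable_nat_add_iff 1]
    have h1 : Summable (fun i : ℕ => C / (i : ℝ) ^ 2) := by
      have := (Real.summable_one_div_nat_pow (p := 2)).mpr (by norm_num)
      have := this.mul_left C
      refine this.congr fun i => ?_
      rw [mul_one_div]
    rw [← summable_nat_add_iff 1] at h1
    exact Summable.of_nonneg_of_le (fun i => integral_nonneg fun ω => sq_nonneg _)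
      (fun i => h (i + 1) (by omega)) h1
  have hl : ∫⁻ ω, ∑' i, ENNReal.ofReal (X i ω ^ 2) ∂μ ≠ ⊤ := by
    rw [lintegral_tsum (fun i => ((hm i).pow_const 2).ennreal_ofReal.aemeasurable)]
    have e : ∀ i, ∫⁻ ω, ENNReal.ofReal (X i ω ^ 2) ∂μ = ENNReal.ofReal (∫ ω, X i ω ^ 2 ∂μ) := by
      intro i
      rw [ofReal_integral_eq_lintegral_ofReal (hint i)
        (Eventually.of_forall fun ω => sq_nonneg (X i ω))]
    simp only [e]
    exact hs.tsum_ofReal_ne_top
  have hae := ae_lt_top (Measurable.tsum fun i => ((hm i).pow_const 2).ennreal_ofReal) hl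
  filter_upwards [hae] with ω hω
  have h1 := ENNReal.tendsto_atTop_zero_of_tsum_ne_top hω.ne
  have h2 := (ENNReal.tendsto_toReal ENNReal.zero_ne_top).comp h1
  have h3 : Tendsto (fun i => X i ω ^ 2) atTop (𝓝 0) := by
    refine h2.congr fun i => ?_
    simp only [Function.comp]
    exact ENNReal.toReal_ofReal (sq_nonneg _)
  have h4 := (Real.continuous_sqrt.tendsto 0).comp h3
  rw [Real.sqrt_zero] at h4
  rw [tendsto_zero_iff_abs_tendsto_zero]
  refine h4.congr fun i => ?_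
  simp only [Function.comp]
  exact Real.sqrt_sq_eq_abs _

/-- the sum of the variances up to `i ^ 16` -/
lemma sum_quarter (n0 i : ℕ) (hi : 1 ≤ i) (h0 : 1 ≤ n0) :
    ∑ n ∈ Ico n0 (n0 + (i ^ 16 - n0)), (n : ℝ) ^ (-(1 / 4 : ℝ)) ≤ 2 * (i : ℝ) ^ 14 := by
  have hir : (1 : ℝ) ≤ i := by exact_mod_cast hi
  have hterm : ∀ n ∈ Ico n0 (n0 + (i ^ 16 - n0)), (n : ℝ) ^ (-(1 / 4 : ℝ))
      ≤ (if n < i ^ 8 then (1 : ℝ) else 0) + ((i : ℝ) ^ 2)⁻¹ := by
    intro n hn
    have hn1 : 1 ≤ n := h0.trans (mem_Ico.mp hn).1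
    have hn1' : (1 : ℝ) ≤ n := by exact_mod_cast hn1
    have hpos : 0 ≤ ((i : ℝ) ^ 2)⁻¹ := by positivity
    split_ifs with hc
    · have : (n : ℝ) ^ (-(1 / 4 : ℝ)) ≤ 1 :=
        Real.rpow_le_one_of_one_le_of_nonpos hn1' (by norm_num)
      linarith
    · push Not at hc
      have h1 : ((i : ℝ) ^ 8) ≤ n := by exact_mod_cast hc
      have h2 : (n : ℝ) ^ (-(1 / 4 : ℝ)) ≤ ((i : ℝ) ^ 8) ^ (-(1 / 4 : ℝ)) :=
        Real.rpow_le_rpow_of_nonpos (by positivity) h1 (by norm_num)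
      have h3 : ((i : ℝ) ^ 8) ^ (-(1 / 4 : ℝ)) = ((i : ℝ) ^ 2)⁻¹ := by
        rw [← Real.rpow_natCast (i : ℝ) 8, ← Real.rpow_mul (by linarith),
          ← Real.rpow_natCast (i : ℝ) 2, ← Real.rpow_neg (by linarith)]
        congr 1; norm_num
      rw [h3] at h2
      linarith
  have hsub : Ico n0 (n0 + (i ^ 16 - n0)) ⊆ range (i ^ 16) := by
    intro n hn
    rw [mem_Ico] at hn
    rw [mem_range]
    omega
  calc ∑ n ∈ Ico n0 (n0 + (i ^ 16 - n0)), (n : ℝ) ^ (-(1 / 4 : ℝ))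
      ≤ ∑ n ∈ Ico n0 (n0 + (i ^ 16 - n0)),
        ((if n < i ^ 8 then (1 : ℝ) else 0) + ((i : ℝ) ^ 2)⁻¹) := sum_le_sum hterm
    _ ≤ ∑ n ∈ range (i ^ 16), ((if n < i ^ 8 then (1 : ℝ) else 0) + ((i : ℝ) ^ 2)⁻¹) := by
        refine sum_le_sum_of_subset_of_nonneg hsub fun n _ _ => ?_
        have hpos : 0 ≤ ((i : ℝ) ^ 2)⁻¹ := by positivity
        split_ifs <;> linarith
    _ ≤ (i : ℝ) ^ 8 + (i : ℝ) ^ 14 := by
        rw [sum_add_distrib, sum_const, card_range, nsmul_eq_mul]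
        refine add_le_add ?_ (le_of_eq ?_)
        · rw [← sum_filter, sum_const, nsmul_eq_mul, mul_one]
          have : ((range (i ^ 16)).filter (fun n => n < i ^ 8)).card ≤ i ^ 8 := by
            have h1 : (range (i ^ 16)).filter (fun n => n < i ^ 8) ⊆ range (i ^ 8) := by
              intro n hn
              exact mem_range.mpr (mem_filter.mp hn).2
            simpa using card_le_card h1
          exact_mod_cast this
        · push_cast
          field_simp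
    _ ≤ 2 * (i : ℝ) ^ 14 := by
        have : (i : ℝ) ^ 8 ≤ (i : ℝ) ^ 14 := pow_le_pow_right₀ hir (by norm_num)
        linarith

section main

variable [IsProbabilityMeasure μ] (hE : ∀ m, MeasurableSet (E m)) (hi : iIndepSet E μ)
  (hg : Laws (fun n => law μ E (blk n))) {ψ : ℕ → ℕ → ℕ → ℝ} {Cb : ℕ → ℝ}
  (hψ : ∀ n i f, f ≤ 2 * (n + 1) → |ψ n i f| ≤ Cb n)

include hE hi hg hψ in
theorem as_DD {C : ℝ} (hC : 0 ≤ C)
    (hV : ∀ᶠ n : ℕ in atTop, ∫ ω, avg (law μ E (blk n)) n (fun i => ψ n i (FF E (n + 1) ω) ^ 2) ∂μ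
      ≤ C * (n : ℝ) ^ (-(1 / 4 : ℝ))) :
    ∀ᵐ ω ∂μ, Tendsto (fun i : ℕ => (∑ n ∈ range (i ^ 16), DD μ E ψ n ω) / (i : ℝ) ^ 8)
      atTop (𝓝 0) := by
  obtain ⟨n1, hn1⟩ := eventually_atTop.mp hV
  set n0 := n1 + 1 with hn0
  set X : ℕ → Ω → ℝ := fun i ω => WW μ E ψ n0 (i ^ 16 - n0) ω / (i : ℝ) ^ 8 with hX
  have hWm : ∀ k, Measurable (WW μ E ψ n0 k) := fun k =>
    (WW_meas (μ := μ) (E := E) (S := Set.Ioi (n0 ^ 2)) subset_rfl k ψ).mono (sig_le hE _) le_rfl
  have hXm : ∀ i, Measurable (X i) := fun i => (hWm _).div_const _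
  have hXi : ∀ i, Integrable (fun ω => X i ω ^ 2) μ := by
    intro i
    refine int_of_bdd ((hXm i).pow_const 2)
      (C := ((∑ n ∈ Ico n0 (n0 + (i ^ 16 - n0)), 2 * Cb n) / |(i : ℝ) ^ 8|) ^ 2) fun ω => ?_
    rw [abs_pow, hX]
    simp only
    rw [abs_div]
    refine pow_le_pow_left₀ (by positivity) ?_ 2
    exact div_le_div_of_nonneg_right (WW_bdd (μ := μ) (E := E) hg hψ n0 _ ω) (abs_nonneg _)
  have hXb : ∀ i : ℕ, 1 ≤ i → ∫ ω, X i ω ^ 2 ∂μ ≤ (2 * C) / (i : ℝ) ^ 2 := by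
    intro i hi1
    have hir : (1 : ℝ) ≤ i := by exact_mod_cast hi1
    have h1 := second_moment_sum (μ := μ) (E := E) hE hi hg hψ (i ^ 16 - n0) n0
    have h2 : ∑ n ∈ Ico n0 (n0 + (i ^ 16 - n0)),
        ∫ ω, avg (law μ E (blk n)) n (fun i => ψ n i (FF E (n + 1) ω) ^ 2) ∂μ
        ≤ C * (2 * (i : ℝ) ^ 14) := by
      refine le_trans ?_ (mul_le_mul_of_nonneg_left (sum_quarter n0 i hi1 (by omega)) hC)
      rw [mul_sum]
      exact sum_le_sum fun n hn => hn1 n (by have := (mem_Ico.mp hn).1; omega)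
    have h3 : ∀ ω, X i ω ^ 2 = WW μ E ψ n0 (i ^ 16 - n0) ω ^ 2 * ((i : ℝ) ^ 16)⁻¹ := by
      intro ω
      rw [hX]
      simp only
      rw [div_pow, ← pow_mul, div_eq_mul_inv]
    simp only [h3]
    rw [integral_mul_const]
    have h4 : 0 ≤ ((i : ℝ) ^ 16)⁻¹ := by positivity
    refine (mul_le_mul_of_nonneg_right (h1.trans h2) h4).trans (le_of_eq ?_)
    field_simp
  filter_upwards [as_tendsto hXm hXi hXb] with ω hω
  have hc : Tendsto (fun i : ℕ => (∑ n ∈ range n0, DD μ E ψ n ω) / (i : ℝ) ^ 8) atTop (𝓝 0) := by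
    refine tendsto_const_nhds.div_atTop ?_
    exact (tendsto_pow_atTop (by norm_num)).comp tendsto_natCast_atTop_atTop
  have hsum := hc.add hω
  rw [add_zero] at hsum
  refine hsum.congr' ?_
  filter_upwards [eventually_ge_atTop n0, eventually_ge_atTop 1] with i hi1 hi2
  have hle : n0 ≤ i ^ 16 := hi1.trans (Nat.le_self_pow (by norm_num) i)
  rw [hX]
  simp only
  unfold WW
  rw [← add_div, Nat.add_sub_cancel' hle]
  congr 1
  rw [sum_range_add_sum_Ico _ hle]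

end main

/-! ### the two families -/

/-- indicator -/
noncomputable def psi1 (_n i f : ℕ) : ℝ := if i ≤ f then 1 else 0

/-- weighted positive part -/
noncomputable def psi2 (n i f : ℕ) : ℝ := if i ≤ f then lam n * ((f : ℝ) - i) else 0

lemma avg_ind {g : ℕ → ℕ → ℝ} (hg : Laws g) (n f : ℕ) (φ : ℕ → ℝ) :
    avg (g n) n (fun i => if i ≤ f then φ i else 0) = ∑ i ∈ range (f + 1), φ i * g n i := by
  have h1 : avg (g n) n (fun i => if i ≤ f then φ i else 0)
      = ∑ i ∈ range (2 * n + f + 2), (if i ≤ f then φ i * g n i else 0) := by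
    unfold avg
    rw [← sum_subset (range_subset_range.mpr (show 2 * n + 1 ≤ 2 * n + f + 2 by omega))]
    · refine sum_congr rfl fun i _ => ?_
      by_cases hc : i ≤ f
      · simp only [hc, if_true]; ring
      · simp only [hc, if_false]; ring
    · intro i _ hi
      have : 2 * n < i := by rw [mem_range] at hi; omega
      rw [hg.zero n i this]
      simp
  rw [h1, ← sum_subset (range_subset_range.mpr (show f + 1 ≤ 2 * n + f + 2 by omega))]
  · refine sum_congr rfl fun i hi => ?_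
    rw [mem_range] at hi
    rw [if_pos (by omega)]
  · intro i _ hi
    rw [mem_range] at hi
    rw [if_neg (by omega)]

lemma avg_psi1 {g : ℕ → ℕ → ℝ} (hg : Laws g) (n f : ℕ) :
    avg (g n) n (fun i => psi1 n i f) = S0 (g n) f := by
  unfold psi1 S0
  rw [avg_ind hg n f (fun _ => 1)]
  simp

lemma avg_psi1_sq {g : ℕ → ℕ → ℝ} (hg : Laws g) (n f : ℕ) :
    avg (g n) n (fun i => psi1 n i f ^ 2) = S0 (g n) f := by
  rw [← avg_psi1 hg]
  congr 1
  funext i
  unfold psi1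
  split_ifs <;> norm_num

lemma avg_psi2 {g : ℕ → ℕ → ℝ} (hg : Laws g) (n f : ℕ) :
    avg (g n) n (fun i => psi2 n i f) = lam n * S1 (g n) f := by
  unfold psi2 S1
  rw [avg_ind hg n f (fun i => lam n * ((f : ℝ) - i)), mul_sum]
  exact sum_congr rfl fun i _ => by ring

lemma avg_psi2_sq {g : ℕ → ℕ → ℝ} (hg : Laws g) (n f : ℕ) :
    avg (g n) n (fun i => psi2 n i f ^ 2) = lam n ^ 2 * S2 (g n) f := by
  have h1 : (fun i => psi2 n i f ^ 2)
      = fun i => if i ≤ f then (lam n * ((f : ℝ) - i)) ^ 2 else 0 := by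
    funext i
    unfold psi2
    split_ifs
    · rfl
    · norm_num
  rw [h1, avg_ind hg n f (fun i => (lam n * ((f : ℝ) - i)) ^ 2)]
  unfold S2
  rw [mul_sum]
  exact sum_congr rfl fun i _ => by ring

lemma psi1_bdd (n i f : ℕ) : |psi1 n i f| ≤ 1 := by
  unfold psi1
  split_ifs <;> norm_num

lemma psi2_bdd (n i f : ℕ) (hf : f ≤ 2 * (n + 1)) : |psi2 n i f| ≤ lam n * (2 * (n + 1)) := by
  have hl := lam_nonneg n
  have hf' : (f : ℝ) ≤ 2 * (n + 1) := by exact_mod_cast hf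
  have hi0 : (0 : ℝ) ≤ i := Nat.cast_nonneg i
  unfold psi2
  split_ifs with h
  · have h' : (i : ℝ) ≤ f := by exact_mod_cast h
    rw [abs_of_nonneg (mul_nonneg hl (by linarith))]
    exact mul_le_mul_of_nonneg_left (by linarith) hl
  · rw [abs_zero]
    exact mul_nonneg hl (by positivity)

/-- expectation bound from a pointwise bound off the bad event -/
lemma exp_bound [IsProbabilityMeasure μ] {B : Set Ω} (hB : MeasurableSet B) {X : Ω → ℝ}
    (hX : Integrable X μ) {a b : ℝ} (ha : 0 ≤ a) (h1 : ∀ ω, ω ∉ B → X ω ≤ a)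
    (h2 : ∀ ω, X ω ≤ b) : ∫ ω, X ω ∂μ ≤ a + b * μ.real B := by
  have h3 : ∫ ω, X ω ∂μ ≤ ∫ ω, (a + B.indicator (fun _ => b) ω) ∂μ := by
    refine integral_mono hX ((integrable_const a).add ((integrable_const b).indicator hB))
      fun ω => ?_
    by_cases h : ω ∈ B
    · show X ω ≤ a + B.indicator (fun _ => b) ω
      rw [Set.indicator_of_mem h]; linarith [h2 ω]
    · show X ω ≤ a + B.indicator (fun _ => b) ω
      rw [Set.indicator_of_notMem h]; linarith [h1 ω h]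
  rw [integral_add (integrable_const a) ((integrable_const b).indicator hB),
    integral_indicator hB] at h3
  simp only [integral_const, smul_eq_mul, probReal_univ, one_mul] at h3
  have e : (μ.restrict B).real Set.univ = μ.real B := by simp
  rw [e] at h3
  linarith

section main2

variable [IsProbabilityMeasure μ] (hE : ∀ m, MeasurableSet (E m)) (hi : iIndepSet E μ)
  (hg : Laws (fun n => law μ E (blk n)))

include hE in
omit [IsProbabilityMeasure μ] in
lemma FF_meas' (n : ℕ) : Measurable (FF E n) :=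
  (FF_meas (E := E) (n := n) (S := Set.Ioi (n ^ 2)) subset_rfl).mono (sig_le hE _) le_rfl

include hE hi hg in
lemma V1 : ∀ᶠ n : ℕ in atTop,
    ∫ ω, avg (law μ E (blk n)) n (fun i => psi1 n i (FF E (n + 1) ω) ^ 2) ∂μ
      ≤ 20 * (n : ℝ) ^ (-(1 / 4 : ℝ)) := by
  filter_upwards [tail_bound hE hi hg (ε := 1 / 8) (by norm_num) (by norm_num),
    A4 hg (c := 7 / 8) (κ := 1 / 4) (by norm_num) (by norm_num), eventually_ge_atTop 1]
    with n hn hA h1
  have hn1 : (1 : ℝ) ≤ n := by exact_mod_cast h1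
  have e : ∀ ω, avg (law μ E (blk n)) n (fun i => psi1 n i (FF E (n + 1) ω) ^ 2)
      = S0 (law μ E (blk n)) (FF E (n + 1) ω) := fun ω => avg_psi1_sq hg n _
  simp only [e]
  have hX : Integrable (fun ω => S0 (law μ E (blk n)) (FF E (n + 1) ω)) μ := by
    refine int_of_bdd (disc1 (fun f => S0 (law μ E (blk n)) f) (FF_meas' hE (n + 1))) (C := 1)
      fun ω => ?_
    rw [abs_of_nonneg (S0_nn hg n _)]
    exact S0_le_one hg n _
  have h2 := exp_bound (bad_meas hE (1 / 8) n) hX (a := (n : ℝ) ^ (-(1 / 4 : ℝ))) (b := 1)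
    (Real.rpow_nonneg (by linarith) _) (fun ω hω => by
      refine hA _ ?_
      by_contra hc
      push Not at hc
      refine hω ?_
      show mu n - (1 - 1 / 8) * Real.sqrt n < (FF E (n + 1) ω : ℝ)
      have e2 : (1 : ℝ) - 1 / 8 = 7 / 8 := by norm_num
      rw [e2]; exact hc) (fun ω => S0_le_one hg n _)
  have h3 : (n : ℝ) ^ (-(4 : ℝ)) ≤ (n : ℝ) ^ (-(1 / 4 : ℝ)) :=
    Real.rpow_le_rpow_of_exponent_le hn1 (by norm_num)
  have h4 : 0 ≤ (n : ℝ) ^ (-(1 / 4 : ℝ)) := Real.rpow_nonneg (by linarith) _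
  linarith

include hE hi hg in
lemma V2 : ∀ᶠ n : ℕ in atTop,
    ∫ ω, avg (law μ E (blk n)) n (fun i => psi2 n i (FF E (n + 1) ω) ^ 2) ∂μ
      ≤ 20 * (n : ℝ) ^ (-(1 / 4 : ℝ)) := by
  filter_upwards [tail_bound hE hi hg (ε := 1 / 8) (by norm_num) (by norm_num),
    A4 hg (c := 7 / 8) (κ := 1 / 4) (by norm_num) (by norm_num), A3 hg, eventually_ge_atTop 1,
    t_lam.eventually_lt_const (show (0 : ℝ) < 1 by norm_num)]
    with n hn hA hA3 h1 hlam
  have hn1 : (1 : ℝ) ≤ n := by exact_mod_cast h1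
  have hl0 := lam_nonneg n
  have e : ∀ ω, avg (law μ E (blk n)) n (fun i => psi2 n i (FF E (n + 1) ω) ^ 2)
      = lam n ^ 2 * S2 (law μ E (blk n)) (FF E (n + 1) ω) := fun ω => avg_psi2_sq hg n _
  simp only [e]
  have hbd : ∀ ω, lam n ^ 2 * S2 (law μ E (blk n)) (FF E (n + 1) ω) ≤ 16 * (n : ℝ) ^ 2 := by
    intro ω
    have h3 := S2_le hg n (FF E (n + 1) ω)
    have h4 : (FF E (n + 1) ω : ℝ) ≤ 4 * n := by
      have h5 := FF_le (E := E) (n + 1) ω
      have : (FF E (n + 1) ω : ℝ) ≤ 2 * (n + 1) := by exact_mod_cast h5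
      linarith
    have h6 : (FF E (n + 1) ω : ℝ) ^ 2 ≤ (4 * n) ^ 2 :=
      pow_le_pow_left₀ (Nat.cast_nonneg _) h4 2
    have h7 : lam n ^ 2 ≤ 1 := pow_le_one₀ hl0 hlam.le
    have h8 := mul_le_mul h7 (h3.trans h6) (S2_nn hg n _) zero_le_one
    linarith
  have hX : Integrable (fun ω => lam n ^ 2 * S2 (law μ E (blk n)) (FF E (n + 1) ω)) μ := by
    refine int_of_bdd (disc1 (fun f => lam n ^ 2 * S2 (law μ E (blk n)) f)
      (FF_meas' hE (n + 1))) (C := 16 * (n : ℝ) ^ 2) fun ω => ?_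
    rw [abs_of_nonneg (mul_nonneg (sq_nonneg _) (S2_nn hg n _))]
    exact hbd ω
  have h2 := exp_bound (bad_meas hE (1 / 8) n) hX (a := 4 * (n : ℝ) ^ (-(1 / 4 : ℝ)))
    (b := 16 * (n : ℝ) ^ 2)
    (mul_nonneg (by norm_num) (Real.rpow_nonneg (by linarith) _)) (fun ω hω => by
      have hc' : (FF E (n + 1) ω : ℝ) ≤ mu n - 7 / 8 * Real.sqrt n := by
        by_contra hc
        push Not at hc
        refine hω ?_
        show mu n - (1 - 1 / 8) * Real.sqrt n < (FF E (n + 1) ω : ℝ)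
        have e2 : (1 : ℝ) - 1 / 8 = 7 / 8 := by norm_num
        rw [e2]; exact hc
      have a1 := hA3 _ hc'
      have a2 := hA _ hc'
      linarith) hbd
  have h3 : (n : ℝ) ^ 2 * (n : ℝ) ^ (-(4 : ℝ)) ≤ (n : ℝ) ^ (-(1 / 4 : ℝ)) := by
    rw [← Real.rpow_natCast (n : ℝ) 2, ← Real.rpow_add (by linarith)]
    exact Real.rpow_le_rpow_of_exponent_le hn1 (by norm_num)
  have h4 : 0 ≤ (n : ℝ) ^ (-(1 / 4 : ℝ)) := Real.rpow_nonneg (by linarith) _
  have h5 : 16 * (n : ℝ) ^ 2 * μ.real (bad E (1 / 8) n)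
      ≤ 16 * (n : ℝ) ^ 2 * (n : ℝ) ^ (-(4 : ℝ)) := mul_le_mul_of_nonneg_left hn (by positivity)
  linarith

include hE hi hg in
/-- counts minus averages -/
theorem as_one : ∀ᵐ ω ∂μ, Tendsto (fun i : ℕ => (∑ n ∈ range (i ^ 16),
    (psi1 n (NN E n ω) (FF E (n + 1) ω) - S0 (law μ E (blk n)) (FF E (n + 1) ω))) / (i : ℝ) ^ 8)
      atTop (𝓝 0) := by
  have h := as_DD (μ := μ) (E := E) hE hi hg (ψ := psi1) (Cb := fun _ => 1)
    (fun n i f _ => psi1_bdd n i f) (C := 20) (by norm_num) (V1 hE hi hg)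
  filter_upwards [h] with ω hω
  refine hω.congr fun i => ?_
  congr 1
  refine sum_congr rfl fun n _ => ?_
  unfold DD
  rw [avg_psi1 hg n]

include hE hi hg in
/-- increments minus averages -/
theorem as_two : ∀ᵐ ω ∂μ, Tendsto (fun i : ℕ => (∑ n ∈ range (i ^ 16),
    (psi2 n (NN E n ω) (FF E (n + 1) ω)
      - lam n * S1 (law μ E (blk n)) (FF E (n + 1) ω))) / (i : ℝ) ^ 8)
      atTop (𝓝 0) := by
  have h := as_DD (μ := μ) (E := E) hE hi hg (ψ := psi2) (Cb := fun n => lam n * (2 * (n + 1)))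
    (fun n i f hf => psi2_bdd n i f hf) (C := 20) (by norm_num) (V2 hE hi hg)
  filter_upwards [h] with ω hω
  refine hω.congr fun i => ?_
  congr 1
  refine sum_congr rfl fun n _ => ?_
  unfold DD
  rw [avg_psi2 hg n]

end main2

end Pool.Agent.CR53
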