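import Pool.Agent.CR53.Ltwo
import Pool.Agent.CR53.Det

/-! The theorem for the random model. -/

set_option autoImplicit false

namespace Pool.Agent.CR53

open MeasureTheory ProbabilityTheory Filter Topology Finset

variable {Ω : Type*} [mΩ : MeasurableSpace Ω] {μ : Measure Ω} {E : ℕ → Set Ω}

lemma psi2_eq (N : ℕ → ℕ) (n : ℕ) :
    psi2 n (N n) (fut N (n + 1)) = lam n * ((fut N (n + 1) : ℝ) - (fut N n : ℝ)) := by
  have h := fut_succ N n
  unfold psi2
  split_ifs with hc
  · have : fut N n = N n := by rw [h]; exact min_eq_left hc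
    rw [this]
  · have : fut N n = fut N (n + 1) := by rw [h]; exact min_eq_right (by omega)
    rw [this]; ring

theorem core {N : ℕ → ℕ} {g : ℕ → ℕ → ℝ} (hg : Laws g)
    (hup : ∀ k : ℕ, ∀ᶠ n : ℕ in atTop,
      (fut N (n + 1) : ℝ) ≤ mu n - (1 - 1 / ((k : ℝ) + 5)) * Real.sqrt n)
    (hlo : ∀ᶠ n : ℕ in atTop, mu n - 3 * Real.sqrt n < (N n : ℝ))
    (h1 : Tendsto (fun i : ℕ => (∑ n ∈ range (i ^ 16),
      (psi1 n (N n) (fut N (n + 1)) - S0 (g n) (fut N (n + 1)))) / (i : ℝ) ^ 8) atTop (𝓝 0))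
    (h2 : Tendsto (fun i : ℕ => (∑ n ∈ range (i ^ 16),
      (psi2 n (N n) (fut N (n + 1)) - lam n * S1 (g n) (fut N (n + 1)))) / (i : ℝ) ^ 8)
      atTop (𝓝 0)) :
    {k | IsRec N k}.Infinite ∧
      Tendsto (fun n : ℕ => (recSeq N n : ℝ) / (n : ℝ) ^ 2) atTop (𝓝 (1 / 4)) := by
  classical
  -- asymptotics of the future minimum
  have hup0 : ∀ᶠ n : ℕ in atTop, (fut N (n + 1) : ℝ) ≤ mu n := by
    filter_upwards [hup 0] with n hn
    have hs := Real.sqrt_nonneg (n : ℝ)
    have : (0 : ℝ) ≤ (1 - 1 / (((0 : ℕ) : ℝ) + 5)) * Real.sqrt n :=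
      mul_nonneg (by norm_num) hs
    linarith
  have hF := fut_asym hup0 hlo
  have hv := (vsum (F := fun n => (fut N n : ℝ)) hF).comp t_i16
  have hv' : Tendsto (fun i : ℕ => (∑ n ∈ range (i ^ 16), psi2 n (N n) (fut N (n + 1)))
      / (i : ℝ) ^ 8) atTop (𝓝 2) := by
    refine hv.congr fun i => ?_
    simp only [Function.comp]
    rw [sqrt_pow16]
    congr 1
    exact sum_congr rfl fun n _ => (psi2_eq N n).symm
  have hR : Tendsto (fun i : ℕ => (∑ n ∈ range (i ^ 16), lam n * S1 (g n) (fut N (n + 1)))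
      / (i : ℝ) ^ 8) atTop (𝓝 2) := by
    have h3 := hv'.sub h2
    rw [sub_zero] at h3
    refine h3.congr fun i => ?_
    rw [sum_sub_distrib, ← sub_div]
    congr 1
    ring
  have hH : Tendsto (fun i : ℕ => (∑ n ∈ range (i ^ 16), S0 (g n) (fut N (n + 1)))
      / (i : ℝ) ^ 8) atTop (𝓝 2) := by
    refine sandwich (R := fun n => lam n * S1 (g n) (fut N (n + 1))) (fun ε h0 hε => ?_) hR
    obtain ⟨k, hk⟩ := exists_nat_one_div_lt h0
    filter_upwards [hup k, A1 hg h0 hε, A2 hg h0 hε,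
      A4 hg (c := 1 + ε) (κ := 1 / 2 + ε / 2) (by linarith) (by nlinarith)]
      with n hn hA1 hA2 hA4
    have hle : (fut N (n + 1) : ℝ) ≤ mu n - (1 - ε) * Real.sqrt n := by
      refine hn.trans ?_
      have h5 : 1 / ((k : ℝ) + 5) ≤ ε := by
        refine le_trans ?_ hk.le
        exact one_div_le_one_div_of_le (by positivity) (by linarith)
      have h6 : (1 - ε) * Real.sqrt n ≤ (1 - 1 / ((k : ℝ) + 5)) * Real.sqrt n :=
        mul_le_mul_of_nonneg_right (by linarith) (Real.sqrt_nonneg _)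
      linarith
    refine ⟨hA1 _ hle, ?_⟩
    rcases le_total (mu n - (1 + ε) * Real.sqrt n) (fut N (n + 1) : ℝ) with hc | hc
    · have h7 := hA2 _ hle hc
      have h8 : (0 : ℝ) ≤ (n : ℝ) ^ (-(1 / 2 + ε / 2)) := Real.rpow_nonneg (Nat.cast_nonneg n) _
      linarith
    · have h7 := hA4 _ hc
      have h8 : 0 ≤ (1 + 2 * ε) * (lam n * S1 (g n) (fut N (n + 1))) :=
        mul_nonneg (by linarith) (mul_nonneg (lam_nonneg n) (S1_nn hg n _))
      linarith
  have hC : Tendsto (fun i : ℕ => (∑ n ∈ range (i ^ 16), psi1 n (N n) (fut N (n + 1)))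
      / (i : ℝ) ^ 8) atTop (𝓝 2) := by
    have h3 := h1.add hH
    rw [zero_add] at h3
    refine h3.congr fun i => ?_
    rw [sum_sub_distrib, ← add_div]
    congr 1
    ring
  have hnn : ∀ n, 0 ≤ psi1 n (N n) (fut N (n + 1)) := by
    intro n; unfold psi1; split_ifs <;> norm_num
  have hu := interp (u := fun x => ∑ n ∈ range x, psi1 n (N n) (fut N (n + 1)))
    (fun a b hab => sum_le_sum_of_subset_of_nonneg (range_subset_range.mpr hab)
      (fun n _ _ => hnn n)) (fun x => sum_nonneg fun n _ => hnn n) hC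
  -- relation with the number of records
  have hcount : Tendsto (fun x : ℕ => (Nat.count (IsRec N) x : ℝ) / Real.sqrt x) atTop (𝓝 2) := by
    have h3 : Tendsto (fun x : ℕ => psi1 0 (N 0) (fut N (0 + 1)) / Real.sqrt x) atTop (𝓝 0) :=
      tendsto_const_nhds.div_atTop t_sqrt
    have h4 := hu.sub h3
    rw [sub_zero] at h4
    refine h4.congr' ?_
    filter_upwards [eventually_ge_atTop 1] with x hx
    rw [← sub_div]
    congr 1
    rw [Nat.count_eq_card_filter_range, card_filter]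
    push_cast
    have e1 : ∀ f : ℕ → ℝ, ∑ n ∈ range x, f n = f 0 + ∑ n ∈ Ico 1 x, f n := by
      intro f
      rw [range_eq_Ico, sum_eq_sum_Ico_succ_bot (by omega)]
    rw [e1 (fun n => psi1 n (N n) (fut N (n + 1))), e1 (fun n => if IsRec N n then (1 : ℝ) else 0)]
    have e2 : ¬ IsRec N 0 := fun h => by have := h.1; omega
    rw [if_neg e2]
    have e3 : ∑ n ∈ Ico 1 x, psi1 n (N n) (fut N (n + 1))
        = ∑ n ∈ Ico 1 x, (if IsRec N n then (1 : ℝ) else 0) := by
      refine sum_congr rfl fun n hn => ?_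
      have hn1 : 1 ≤ n := (mem_Ico.mp hn).1
      unfold psi1
      by_cases hc : IsRec N n
      · rw [if_pos hc, if_pos ((isRec_iff hn1).1 hc)]
      · rw [if_neg hc, if_neg (fun hh => hc ((isRec_iff hn1).2 hh))]
    rw [e3]
    ring
  exact seq_of_count hcount

lemma q1_of_core {N : ℕ → ℕ} (hinf : {k | IsRec N k}.Infinite)
    (h : Tendsto (fun n : ℕ => (recSeq N n : ℝ) / (n : ℝ) ^ 2) atTop (𝓝 (1 / 4))) : Q1 N := by
  refine ⟨hinf, 2, fun x => x ^ 2 / 4, by norm_num, le_rfl, ⟨fun x hx => by positivity,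
    fun _ => 1 / 4, fun lam _ => ?_, fun x _ => ?_⟩, ?_⟩
  · simp only [div_self (show (1 / 4 : ℝ) ≠ 0 by norm_num)]
    exact tendsto_const_nhds
  · have : x ^ (2 : ℝ) = x ^ 2 := by exact_mod_cast Real.rpow_natCast x 2
    rw [this]; ring
  · have h2 := h.const_mul 4
    have e : (4 : ℝ) * (1 / 4) = 1 := by norm_num
    rw [e] at h2
    refine h2.congr fun n => ?_
    ring

theorem model_main [IsProbabilityMeasure μ] (hE : ∀ m, MeasurableSet (E m))
    (hi : iIndepSet E μ) (hp : ∀ m : ℕ, 3 ≤ m → μ.real (E m) = 1 / Real.log m) :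
    ∀ᵐ ω ∂μ, Q1 (sqCount {m | ω ∈ E m}) ∧
      Tendsto (fun n : ℕ => (recSeq (sqCount {m | ω ∈ E m}) n : ℝ) / (n : ℝ) ^ 2) atTop
        (𝓝 (1 / 4)) := by
  have hg := laws_of_model hE hi hp
  have hup : ∀ᵐ ω ∂μ, ∀ k : ℕ, ∀ᶠ n : ℕ in atTop,
      (FF E (n + 1) ω : ℝ) ≤ mu n - (1 - 1 / ((k : ℝ) + 5)) * Real.sqrt n := by
    rw [ae_all_iff]
    intro k
    refine as_upper hE hi hg (by positivity) ?_
    rw [div_lt_one (by positivity)]
    have : (0 : ℝ) ≤ k := Nat.cast_nonneg k
    linarith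
  filter_upwards [hup, as_lower hE hg, as_one hE hi hg, as_two hE hi hg] with ω h1 h2 h3 h4
  have hN : (fun n => NN E n ω) = sqCount {m | ω ∈ E m} := by
    funext n
    exact (sqCount_eq ω n).symm
  have hc := core (N := fun n => NN E n ω) hg h1 h2 h3 h4
  rw [hN] at hc
  exact ⟨q1_of_core hc.1 hc.2, hc.2⟩

/-- the density of Cramer's model -/
noncomputable def cram (m : ℕ) : ENNReal :=
  if 3 ≤ m then ENNReal.ofReal (1 / Real.log m) else 0

lemma cram_le (m : ℕ) : cram m ≤ 1 := by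
  unfold cram
  split_ifs with h
  · rw [ENNReal.ofReal_le_one]
    have := log_ge_one h
    rw [div_le_one (by linarith)]
    exact this.le
  · exact zero_le

/-- one coordinate of the model -/
noncomputable def coin (m : ℕ) : Measure Bool :=
  cram m • Measure.dirac true + (1 - cram m) • Measure.dirac false

instance (m : ℕ) : IsProbabilityMeasure (coin m) := by
  constructor
  unfold coin
  simp [add_tsub_cancel_of_le (cram_le m)]

lemma coin_true (m : ℕ) : coin m {true} = cram m := by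
  unfold coin
  simp

/-- the random set of the model is given by independent events -/
theorem model_facts :
    (∀ m : ℕ, MeasurableSet {ω : ℕ → Bool | ω m = true}) ∧
    iIndepSet (fun m : ℕ => {ω : ℕ → Bool | ω m = true}) (Measure.infinitePi coin) ∧
    ∀ m : ℕ, 3 ≤ m →
      (Measure.infinitePi coin).real {ω : ℕ → Bool | ω m = true} = 1 / Real.log m := by
  have hm : ∀ m : ℕ, MeasurableSet {ω : ℕ → Bool | ω m = true} := fun m => by
    have h : Measurable (fun ω : ℕ → Bool => ω m) := measurable_pi_apply m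
    exact h (measurableSet_singleton true)
  have key : ∀ s : Finset ℕ, Measure.infinitePi coin (⋂ m ∈ s, {ω : ℕ → Bool | ω m = true})
      = ∏ m ∈ s, cram m := by
    intro s
    have e : (⋂ m ∈ s, {ω : ℕ → Bool | ω m = true})
        = Set.pi (s : Set ℕ) (fun _ => ({true} : Set Bool)) := by
      ext ω
      simp [Set.mem_pi]
    rw [e, Measure.infinitePi_pi _ (fun m _ => measurableSet_singleton true)]
    exact prod_congr rfl fun m _ => coin_true m
  have key1 : ∀ m : ℕ, Measure.infinitePi coin {ω : ℕ → Bool | ω m = true} = cram m := by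
    intro m
    have := key {m}
    simpa using this
  refine ⟨hm, ?_, ?_⟩
  · rw [iIndepSet_iff_meas_biInter hm]
    intro s
    rw [key s]
    exact prod_congr rfl fun m _ => (key1 m).symm
  · intro m h3
    rw [Measure.real, key1 m]
    unfold cram
    rw [if_pos h3, ENNReal.toReal_ofReal]
    have := log_ge_one h3
    positivity

/-- the theorem for the product measure -/
theorem cramer_main : ∀ᵐ ω ∂(Measure.infinitePi coin), Q1 (sqCount {m | ω m = true}) ∧
      Tendsto (fun n : ℕ => (recSeq (sqCount {m | ω m = true}) n : ℝ) / (n : ℝ) ^ 2) atTop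
        (𝓝 (1 / 4)) := by
  obtain ⟨h1, h2, h3⟩ := model_facts
  exact model_main (μ := Measure.infinitePi coin)
    (E := fun m : ℕ => {ω : ℕ → Bool | ω m = true}) h1 h2 h3

end Pool.Agent.CR53
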