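import Pool.Agent.CR53.Prob
import Pool.Agent.CR53.Asym

/-! Orthogonality of the differences, and the product bound. -/

set_option autoImplicit false

namespace Pool.Agent.CR53

open MeasureTheory ProbabilityTheory Filter Topology Finset

variable {Ω : Type*} [mΩ : MeasurableSpace Ω] {μ : Measure Ω} {E : ℕ → Set Ω}

/-- average of `φ` against `g` -/
noncomputable def avg (g : ℕ → ℝ) (n : ℕ) (φ : ℕ → ℝ) : ℝ := ∑ i ∈ range (2 * n + 1), g i * φ i

lemma avg_sq (g : ℕ → ℝ) (n : ℕ) (hg : ∑ i ∈ range (2 * n + 1), g i = 1) (φ : ℕ → ℝ) (w : ℝ) :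
    avg g n (fun i => (φ i - avg g n φ + w) ^ 2)
      = avg g n (fun i => φ i ^ 2) - avg g n φ ^ 2 + w ^ 2 := by
  set A := avg g n φ with hA
  have h1 : avg g n (fun i => (φ i - A + w) ^ 2)
      = avg g n (fun i => φ i ^ 2) + 2 * (w - A) * A
        + (w - A) ^ 2 * ∑ i ∈ range (2 * n + 1), g i := by
    have h2 : 2 * (w - A) * A = 2 * (w - A) * ∑ i ∈ range (2 * n + 1), g i * φ i := by
      rw [hA]; rfl
    rw [h2]
    unfold avg
    rw [mul_sum, mul_sum, ← sum_add_distrib, ← sum_add_distrib]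
    exact sum_congr rfl fun i _ => by ring
  rw [h1, hg]
  ring

/-- the centred term -/
noncomputable def DD (μ : Measure Ω) (E : ℕ → Set Ω) (ψ : ℕ → ℕ → ℕ → ℝ) (n : ℕ) (ω : Ω) : ℝ :=
  ψ n (NN E n ω) (FF E (n + 1) ω)
    - avg (law μ E (blk n)) n (fun i => ψ n i (FF E (n + 1) ω))

lemma disc2 {Ω' : Type*} {m : MeasurableSpace Ω'} (G : ℕ → ℕ → ℝ) {a b : Ω' → ℕ}
    (ha : Measurable a) (hb : Measurable b) : Measurable (fun ω => G (a ω) (b ω)) := by
  have : Measurable (fun p : ℕ × ℕ => G p.1 p.2) := measurable_of_countable _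
  exact this.comp (ha.prodMk hb)

lemma disc1 {Ω' : Type*} {m : MeasurableSpace Ω'} (G : ℕ → ℝ) {a : Ω' → ℕ}
    (ha : Measurable a) : Measurable (fun ω => G (a ω)) :=
  (measurable_of_countable G).comp ha

lemma DD_meas {S : Set ℕ} {n : ℕ} (h : Set.Ioi (n ^ 2) ⊆ S) (ψ : ℕ → ℕ → ℕ → ℝ) :
    Measurable[sig E S] (DD μ E ψ n) := by
  have h2 : Set.Ioi ((n + 1) ^ 2) ⊆ S := by
    intro m hm
    refine h ?_
    have h1 : n ^ 2 ≤ (n + 1) ^ 2 := Nat.pow_le_pow_left (Nat.le_succ n) 2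
    exact lt_of_le_of_lt h1 hm
  exact disc2 (m := sig E S)
    (fun i f => ψ n i f - avg (law μ E (blk n)) n (fun i => ψ n i f)) (NN_meas h) (FF_meas h2)

/-- partial sums -/
noncomputable def WW (μ : Measure Ω) (E : ℕ → Set Ω) (ψ : ℕ → ℕ → ℕ → ℝ) (a k : ℕ) (ω : Ω) : ℝ :=
  ∑ n ∈ Ico a (a + k), DD μ E ψ n ω

lemma WW_meas {S : Set ℕ} {a : ℕ} (h : Set.Ioi (a ^ 2) ⊆ S) (k : ℕ) (ψ : ℕ → ℕ → ℕ → ℝ) :
    Measurable[sig E S] (WW μ E ψ a k) := by
  unfold WW
  refine @Finset.measurable_fun_sum _ _ _ _ _ _ (sig E S) _ _ fun n hn => ?_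
  refine DD_meas (fun m hm => h ?_) ψ
  have h1 : a ^ 2 ≤ n ^ 2 := Nat.pow_le_pow_left (mem_Ico.mp hn).1 2
  exact lt_of_le_of_lt h1 hm

lemma avg_bdd {g : ℕ → ℝ} {n : ℕ} (hn : ∀ i, 0 ≤ g i) (hg : ∑ i ∈ range (2 * n + 1), g i = 1)
    {φ : ℕ → ℝ} {C : ℝ} (h : ∀ i, |φ i| ≤ C) : |avg g n φ| ≤ C := by
  unfold avg
  refine (abs_sum_le_sum_abs _ _).trans ?_
  have : ∑ i ∈ range (2 * n + 1), |g i * φ i| ≤ ∑ i ∈ range (2 * n + 1), g i * C := by
    refine sum_le_sum fun i _ => ?_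
    rw [abs_mul, abs_of_nonneg (hn i)]
    exact mul_le_mul_of_nonneg_left (h i) (hn i)
  rw [← sum_mul, hg, one_mul] at this
  exact this

section main

variable [IsProbabilityMeasure μ] (hE : ∀ m, MeasurableSet (E m)) (hi : iIndepSet E μ)
  (hg : Laws (fun n => law μ E (blk n))) {ψ : ℕ → ℕ → ℕ → ℝ} {Cb : ℕ → ℝ}
  (hψ : ∀ n i f, f ≤ 2 * (n + 1) → |ψ n i f| ≤ Cb n)

include hg hψ in
omit [IsProbabilityMeasure μ] in
lemma DD_bdd (n : ℕ) (ω : Ω) : |DD μ E ψ n ω| ≤ 2 * Cb n := by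
  unfold DD
  have hF := FF_le (E := E) (n + 1) ω
  have h1 := hψ n (NN E n ω) (FF E (n + 1) ω) hF
  have h2 := avg_bdd (fun i => hg.nonneg n i) (hg.total n)
    (φ := fun i => ψ n i (FF E (n + 1) ω)) (fun i => hψ n i _ hF)
  refine (abs_sub _ _).trans ?_
  linarith

include hg hψ in
omit [IsProbabilityMeasure μ] in
lemma WW_bdd (a k : ℕ) (ω : Ω) : |WW μ E ψ a k ω| ≤ ∑ n ∈ Ico a (a + k), 2 * Cb n := by
  unfold WW
  exact (abs_sum_le_sum_abs _ _).trans (sum_le_sum fun n _ => DD_bdd hg hψ n ω)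

lemma int_of_bdd [IsFiniteMeasure μ] {X : Ω → ℝ} (hX : Measurable X) {C : ℝ}
    (h : ∀ ω, |X ω| ≤ C) : Integrable X μ :=
  (integrable_const C).mono' hX.aestronglyMeasurable
    (Eventually.of_forall fun ω => by rw [Real.norm_eq_abs]; exact h ω)

include hE hi hg hψ in
/-- orthogonality -/
theorem second_moment_sum (k : ℕ) : ∀ a : ℕ,
    ∫ ω, WW μ E ψ a k ω ^ 2 ∂μ ≤ ∑ n ∈ Ico a (a + k),
      ∫ ω, avg (law μ E (blk n)) n (fun i => ψ n i (FF E (n + 1) ω) ^ 2) ∂μ := by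
  induction k with
  | zero => intro a; simp [WW]
  | succ k ih =>
    intro a
    have hsum : ∀ f : ℕ → ℝ, ∑ n ∈ Ico a (a + (k + 1)), f n
        = f a + ∑ n ∈ Ico (a + 1) (a + 1 + k), f n := by
      intro f
      rw [sum_eq_sum_Ico_succ_bot (by omega)]
      congr 2
      congr 1
      omega
    have hle := sig_le hE (Set.Ioi ((a + 1) ^ 2))
    have hF : Measurable[sig E (Set.Ioi ((a + 1) ^ 2))] (FF E (a + 1)) := FF_meas subset_rfl
    have hW : Measurable[sig E (Set.Ioi ((a + 1) ^ 2))] (WW μ E ψ (a + 1) k) :=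
      WW_meas subset_rfl k ψ
    set g := law μ E (blk a) with hgdef
    set Z : ℕ → Ω → ℝ := fun i ω =>
      (ψ a i (FF E (a + 1) ω) - avg g a (fun i => ψ a i (FF E (a + 1) ω))
        + WW μ E ψ (a + 1) k ω) ^ 2 with hZ
    have hZm : ∀ i, Measurable[sig E (Set.Ioi ((a + 1) ^ 2))] (Z i) := by
      intro i
      have h1 : Measurable[sig E (Set.Ioi ((a + 1) ^ 2))]
          (fun ω => ψ a i (FF E (a + 1) ω) - avg g a (fun i => ψ a i (FF E (a + 1) ω))) :=
        disc1 (m := sig E (Set.Ioi ((a + 1) ^ 2)))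
          (fun f => ψ a i f - avg g a (fun i => ψ a i f)) hF
      exact (h1.add hW).pow_const 2
    have hZi : ∀ i, Integrable (Z i) μ := by
      intro i
      refine int_of_bdd ((hZm i).mono hle le_rfl)
        (C := (2 * Cb a + ∑ n ∈ Ico (a + 1) (a + 1 + k), 2 * Cb n) ^ 2) fun ω => ?_
      rw [hZ]
      simp only
      rw [abs_pow]
      refine pow_le_pow_left₀ (abs_nonneg _) ?_ 2
      have hFl := FF_le (E := E) (a + 1) ω
      have h1 := hψ a i (FF E (a + 1) ω) hFl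
      have h2 := avg_bdd (fun i => hg.nonneg a i) (hg.total a)
        (φ := fun i => ψ a i (FF E (a + 1) ω)) (fun i => hψ a i _ hFl)
      have h3 := WW_bdd (μ := μ) (E := E) hg hψ (a + 1) k ω
      refine (abs_add_le _ _).trans (add_le_add ((abs_sub _ _).trans ?_) h3)
      linarith
    have hmix := mix (μ := μ) (sig_le hE _) hle (blk_indep hE hi a)
      (NN_meas_blk (E := E) a) (NN_le (E := E) a) hZm hZi
    have h1 : ∀ ω, WW μ E ψ a (k + 1) ω ^ 2 = Z (NN E a ω) ω := by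
      intro ω
      unfold WW
      rw [hsum (fun n => DD μ E ψ n ω)]
      rfl
    simp only [h1]
    rw [hmix, hsum (fun n => ∫ ω, avg (law μ E (blk n)) n
      (fun i => ψ n i (FF E (n + 1) ω) ^ 2) ∂μ)]
    have h2 : ∑ i ∈ range (2 * a + 1), μ.real {ω | NN E a ω = i} * ∫ ω, Z i ω ∂μ
        = ∫ ω, avg g a (fun i => Z i ω) ∂μ := by
      unfold avg
      rw [integral_finsetSum _ (fun i _ => (hZi i).const_mul _)]
      refine sum_congr rfl fun i _ => ?_
      rw [integral_const_mul]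
      rfl
    rw [h2]
    have hQm : Measurable[sig E (Set.Ioi ((a + 1) ^ 2))]
        (fun ω => avg g a (fun i => ψ a i (FF E (a + 1) ω) ^ 2)) :=
      disc1 (m := sig E (Set.Ioi ((a + 1) ^ 2))) (fun f => avg g a (fun i => ψ a i f ^ 2)) hF
    have hQi : Integrable (fun ω => avg g a (fun i => ψ a i (FF E (a + 1) ω) ^ 2)) μ := by
      refine int_of_bdd (hQm.mono hle le_rfl) (C := Cb a ^ 2) fun ω => ?_
      refine avg_bdd (fun i => hg.nonneg a i) (hg.total a) fun i => ?_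
      rw [abs_pow]
      exact pow_le_pow_left₀ (abs_nonneg _) (hψ a i _ (FF_le (E := E) (a + 1) ω)) 2
    have hWi : Integrable (fun ω => WW μ E ψ (a + 1) k ω ^ 2) μ := by
      refine int_of_bdd ((hW.pow_const 2).mono hle le_rfl)
        (C := (∑ n ∈ Ico (a + 1) (a + 1 + k), 2 * Cb n) ^ 2) fun ω => ?_
      rw [abs_pow]
      exact pow_le_pow_left₀ (abs_nonneg _) (WW_bdd (μ := μ) (E := E) hg hψ (a + 1) k ω) 2
    have h3 : ∫ ω, avg g a (fun i => Z i ω) ∂μ
        ≤ ∫ ω, (avg g a (fun i => ψ a i (FF E (a + 1) ω) ^ 2)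
          + WW μ E ψ (a + 1) k ω ^ 2) ∂μ := by
      refine integral_mono ?_ (hQi.add hWi) fun ω => ?_
      · unfold avg
        exact integrable_finsetSum _ fun i _ => (hZi i).const_mul _
      · show avg g a (fun i => Z i ω) ≤ _
        rw [hZ]
        simp only
        rw [avg_sq g a (hg.total a)]
        have := sq_nonneg (avg g a fun i => ψ a i (FF E (a + 1) ω))
        linarith
    rw [integral_add hQi hWi] at h3
    have h4 := ih (a + 1)
    linarith

include hE hi hg in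
/-- product bound -/
theorem prod_bound (f k : ℕ) : ∀ a : ℕ,
    μ.real {ω | ∀ j ∈ Ico a (a + k), f < NN E j ω}
      ≤ Real.exp (-∑ j ∈ Ico a (a + k), S0 (law μ E (blk j)) f) := by
  induction k with
  | zero => intro a; simp
  | succ k ih =>
    intro a
    have hsum : ∑ n ∈ Ico a (a + (k + 1)), S0 (law μ E (blk n)) f
        = S0 (law μ E (blk a)) f + ∑ n ∈ Ico (a + 1) (a + 1 + k), S0 (law μ E (blk n)) f := by
      rw [sum_eq_sum_Ico_succ_bot (by omega)]
      congr 2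
      congr 1
      omega
    have hset : {ω | ∀ j ∈ Ico a (a + (k + 1)), f < NN E j ω}
        = {ω | f < NN E a ω} ∩ {ω | ∀ j ∈ Ico (a + 1) (a + 1 + k), f < NN E j ω} := by
      ext ω
      constructor
      · intro h
        have h' : ∀ j ∈ Ico a (a + (k + 1)), f < NN E j ω := h
        refine ⟨h' a (mem_Ico.mpr ⟨le_rfl, by omega⟩), fun j hj => h' j ?_⟩
        rw [mem_Ico] at hj ⊢
        omega
      · rintro ⟨h1, h2⟩
        have h1' : f < NN E a ω := h1
        have h2' : ∀ j ∈ Ico (a + 1) (a + 1 + k), f < NN E j ω := h2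
        intro j hj
        rw [mem_Ico] at hj
        rcases Nat.eq_or_lt_of_le hj.1 with h | h
        · subst h; exact h1'
        · exact h2' j (mem_Ico.mpr ⟨h, by omega⟩)
    have hm1 : MeasurableSet[sig E ((blk a : Finset ℕ) : Set ℕ)] {ω | f < NN E a ω} :=
      (NN_meas_blk (E := E) a) (measurableSet_Ioi (a := f))
    have hm2 : MeasurableSet[sig E (Set.Ioi ((a + 1) ^ 2))]
        {ω | ∀ j ∈ Ico (a + 1) (a + 1 + k), f < NN E j ω} := by
      have e : {ω | ∀ j ∈ Ico (a + 1) (a + 1 + k), f < NN E j ω}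
          = ⋂ j, ⋂ (_ : j ∈ Ico (a + 1) (a + 1 + k)), {ω | f < NN E j ω} := by
        ext ω
        simp only [Set.mem_ofPred_eq, Set.mem_iInter]
      rw [e]
      refine @MeasurableSet.iInter _ _ (sig E (Set.Ioi ((a + 1) ^ 2))) _ _ fun j =>
        @MeasurableSet.iInter _ _ (sig E (Set.Ioi ((a + 1) ^ 2))) _ _ fun hj => ?_
      refine (NN_meas (E := E) (n := j) (S := Set.Ioi ((a + 1) ^ 2)) ?_)
        (measurableSet_Ioi (a := f))
      intro m hm
      have h1 : (a + 1) ^ 2 ≤ j ^ 2 := Nat.pow_le_pow_left (mem_Ico.mp hj).1 2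
      exact lt_of_le_of_lt h1 hm
    have hind := (Indep_iff _ _ _).1 (blk_indep hE hi a) _ _ hm1 hm2
    rw [hset, hsum]
    have e1 : μ.real ({ω | f < NN E a ω} ∩ {ω | ∀ j ∈ Ico (a + 1) (a + 1 + k), f < NN E j ω})
        = μ.real {ω | f < NN E a ω}
          * μ.real {ω | ∀ j ∈ Ico (a + 1) (a + 1 + k), f < NN E j ω} := by
      rw [Measure.real, hind, ENNReal.toReal_mul]; rfl
    rw [e1]
    have e2 : μ.real {ω | f < NN E a ω} = 1 - S0 (law μ E (blk a)) f := by
      unfold S0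
      rw [sum_law hE]
      have h1 : {ω | f < NN E a ω} = {ω | cnt E (blk a) ω ≤ f}ᶜ := by
        ext ω
        simp only [Set.mem_ofPred_eq, Set.mem_compl_iff, not_le]
        rfl
      rw [h1]
      refine probReal_compl_eq_one_sub ?_
      exact (cnt_meas' hE (blk a)) (measurableSet_Iic (a := f))
    have e3 : μ.real {ω | f < NN E a ω} ≤ Real.exp (-S0 (law μ E (blk a)) f) := by
      rw [e2]
      have := Real.add_one_le_exp (-S0 (law μ E (blk a)) f)
      linarith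
    calc μ.real {ω | f < NN E a ω} * μ.real {ω | ∀ j ∈ Ico (a + 1) (a + 1 + k), f < NN E j ω}
        ≤ Real.exp (-S0 (law μ E (blk a)) f)
          * Real.exp (-∑ j ∈ Ico (a + 1) (a + 1 + k), S0 (law μ E (blk j)) f) :=
        mul_le_mul e3 (ih (a + 1)) measureReal_nonneg (Real.exp_pos _).le
      _ = _ := by rw [← Real.exp_add]; congr 1; ring

end main

end Pool.Agent.CR53
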