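import Pool.Agent.CR53.Defs

/-! Three identities for partial sums of a sequence with ratio bounds. -/

set_option autoImplicit false

namespace Pool.Agent.CR53

open Finset

variable {g : ℕ → ℝ} {T wm wp : ℝ}

lemma S0_nonneg (h : Ratio g T wm wp) (f : ℕ) : 0 ≤ S0 g f :=
  sum_nonneg fun i _ => h.nonneg i

lemma S1_nonneg (h : Ratio g T wm wp) (f : ℕ) : 0 ≤ S1 g f := by
  refine sum_nonneg fun i hi => mul_nonneg ?_ (h.nonneg i)
  have : i ≤ f := Nat.lt_succ_iff.mp (mem_range.mp hi)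
  have : (i : ℝ) ≤ f := by exact_mod_cast this
  linarith

lemma S2_nonneg (h : Ratio g T wm wp) (f : ℕ) : 0 ≤ S2 g f :=
  sum_nonneg fun i _ => mul_nonneg (sq_nonneg _) (h.nonneg i)

/-- summation against a non-negative weight, lower form -/
lemma sum_lo (h : Ratio g T wm wp) (f : ℕ) (φ : ℕ → ℝ) (hφ : ∀ i, 1 ≤ i → i ≤ f → 0 ≤ φ i) :
    wm * ∑ i ∈ range f, φ (i + 1) * (T - i) * g i ≤ ∑ i ∈ range (f + 1), φ i * i * g i := by
  rw [sum_range_succ', mul_sum]
  have h0 : φ 0 * ((0 : ℕ) : ℝ) * g 0 = 0 := by simp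
  rw [h0, add_zero]
  refine sum_le_sum fun i hi => ?_
  have hi' : i + 1 ≤ f := mem_range.mp hi
  have h1 := mul_le_mul_of_nonneg_left (h.lo i) (hφ (i + 1) (by omega) hi')
  have e : ((i + 1 : ℕ) : ℝ) = (i : ℝ) + 1 := by push_cast; ring
  rw [e]
  calc wm * (φ (i + 1) * (T - i) * g i) = φ (i + 1) * (wm * (T - i) * g i) := by ring
    _ ≤ φ (i + 1) * ((i + 1) * g (i + 1)) := h1
    _ = φ (i + 1) * (i + 1) * g (i + 1) := by ring

/-- summation against a non-negative weight, upper form -/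
lemma sum_hi (h : Ratio g T wm wp) (f : ℕ) (φ : ℕ → ℝ) (hφ : ∀ i, 1 ≤ i → i ≤ f → 0 ≤ φ i) :
    ∑ i ∈ range (f + 1), φ i * i * g i ≤ wp * ∑ i ∈ range f, φ (i + 1) * (T - i) * g i := by
  rw [sum_range_succ', mul_sum]
  have h0 : φ 0 * ((0 : ℕ) : ℝ) * g 0 = 0 := by simp
  rw [h0, add_zero]
  refine sum_le_sum fun i hi => ?_
  have hi' : i + 1 ≤ f := mem_range.mp hi
  have h1 := mul_le_mul_of_nonneg_left (h.hi i) (hφ (i + 1) (by omega) hi')
  have e : ((i + 1 : ℕ) : ℝ) = (i : ℝ) + 1 := by push_cast; ring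
  rw [e]
  calc φ (i + 1) * (i + 1) * g (i + 1) = φ (i + 1) * ((i + 1) * g (i + 1)) := by ring
    _ ≤ φ (i + 1) * (wp * (T - i) * g i) := h1
    _ = wp * (φ (i + 1) * (T - i) * g i) := by ring

/-- (I1) `(μ - f) S1 + S2 ≤ μ S0`, `μ = wm T / (1 + wm)`. -/
lemma I1 (h : Ratio g T wm wp) (hwm : 0 < wm) (hT : 0 ≤ T) (f : ℕ) :
    (wm * T / (1 + wm) - f) * S1 g f + S2 g f ≤ wm * T / (1 + wm) * S0 g f := by
  have hpos : 0 < 1 + wm := by linarith
  have key := sum_lo h f (fun i => (f : ℝ) - i) (fun i _ hi => by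
    have : (i : ℝ) ≤ f := by exact_mod_cast hi
    linarith)
  -- rewrite the left sum over range (f+1)
  have e1 : ∑ i ∈ range f, ((f : ℝ) - ((i + 1 : ℕ) : ℝ)) * (T - i) * g i
      = ∑ i ∈ range (f + 1), ((f : ℝ) - i) * (T - i) * g i - ∑ i ∈ range f, (T - i) * g i := by
    rw [sum_range_succ, ← sub_eq_zero]
    have : ((f : ℝ) - (f : ℕ)) * (T - (f : ℕ)) * g f = 0 := by simp
    rw [this, add_zero, ← sum_sub_distrib, ← sum_sub_distrib]
    refine sum_eq_zero fun i _ => ?_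
    push_cast; ring
  rw [e1] at key
  have e2 : ∑ i ∈ range f, (T - i) * g i ≤ T * S0 g f := by
    unfold S0
    rw [sum_range_succ, mul_add, mul_sum]
    have : ∑ i ∈ range f, (T - i) * g i ≤ ∑ i ∈ range f, T * g i := by
      refine sum_le_sum fun i _ => mul_le_mul_of_nonneg_right ?_ (h.nonneg i)
      have : (0 : ℝ) ≤ i := Nat.cast_nonneg i
      linarith
    have := mul_nonneg hT (h.nonneg f)
    linarith
  -- (1+wm) * [ (μ - f) S1 + S2 ] = sum (f-i) (wm (T-i) - i) g i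
  have e3 : (1 + wm) * ((wm * T / (1 + wm) - f) * S1 g f + S2 g f)
      = wm * ∑ i ∈ range (f + 1), ((f : ℝ) - i) * (T - i) * g i
        - ∑ i ∈ range (f + 1), ((f : ℝ) - i) * i * g i := by
    unfold S1 S2
    rw [mul_sum, mul_sum, ← sum_sub_distrib, ← sum_add_distrib, mul_sum]
    refine sum_congr rfl fun i _ => ?_
    field_simp
    ring
  have e4 : (1 + wm) * ((wm * T / (1 + wm) - f) * S1 g f + S2 g f)
      ≤ (1 + wm) * (wm * T / (1 + wm) * S0 g f) := by
    have : (1 + wm) * (wm * T / (1 + wm) * S0 g f) = wm * (T * S0 g f) := by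
      field_simp
    rw [e3, this]
    have := mul_le_mul_of_nonneg_left e2 hwm.le
    linarith
  exact le_of_mul_le_mul_left e4 hpos

/-- (I2) `(μ - f) S2 ≤ 2 μ S1`. -/
lemma I2 (h : Ratio g T wm wp) (hwm : 0 < wm) (hT : 0 ≤ T) (f : ℕ) :
    (wm * T / (1 + wm) - f) * S2 g f ≤ 2 * (wm * T / (1 + wm)) * S1 g f := by
  have hpos : 0 < 1 + wm := by linarith
  have key := sum_lo h f (fun i => ((f : ℝ) - i) ^ 2) (fun i _ _ => sq_nonneg _)
  have e1 : ∑ i ∈ range f, ((f : ℝ) - ((i + 1 : ℕ) : ℝ)) ^ 2 * (T - i) * g i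
      = ∑ i ∈ range (f + 1), ((f : ℝ) - i) ^ 2 * (T - i) * g i
        - ∑ i ∈ range f, (2 * ((f : ℝ) - i) - 1) * (T - i) * g i := by
    rw [sum_range_succ, ← sub_eq_zero]
    have : ((f : ℝ) - (f : ℕ)) ^ 2 * (T - (f : ℕ)) * g f = 0 := by simp
    rw [this, add_zero, ← sum_sub_distrib, ← sum_sub_distrib]
    refine sum_eq_zero fun i _ => ?_
    push_cast; ring
  rw [e1] at key
  have e2 : ∑ i ∈ range f, (2 * ((f : ℝ) - i) - 1) * (T - i) * g i ≤ 2 * T * S1 g f := by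
    unfold S1
    rw [sum_range_succ]
    have z : ((f : ℝ) - (f : ℕ)) * g f = 0 := by simp
    rw [z, add_zero, mul_sum]
    refine sum_le_sum fun i hi => ?_
    have hi' : i + 1 ≤ f := mem_range.mp hi
    have h1 : (i : ℝ) + 1 ≤ f := by exact_mod_cast hi'
    have h2 : (0 : ℝ) ≤ i := Nat.cast_nonneg i
    have h3 : (2 * ((f : ℝ) - i) - 1) * (T - i) ≤ 2 * T * ((f : ℝ) - i) := by
      have : (2 * ((f : ℝ) - i) - 1) * (T - i) ≤ (2 * ((f : ℝ) - i) - 1) * T :=
        mul_le_mul_of_nonneg_left (by linarith) (by linarith)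
      have h4 : (2 * ((f : ℝ) - i) - 1) * T ≤ (2 * ((f : ℝ) - i)) * T :=
        mul_le_mul_of_nonneg_right (by linarith) hT
      linarith
    have := mul_le_mul_of_nonneg_right h3 (h.nonneg i)
    linarith
  have e3 : (1 + wm) * ((wm * T / (1 + wm) - f) * S2 g f)
      + (1 + wm) * ∑ i ∈ range (f + 1), ((f : ℝ) - i) ^ 3 * g i
      = wm * ∑ i ∈ range (f + 1), ((f : ℝ) - i) ^ 2 * (T - i) * g i
        - ∑ i ∈ range (f + 1), ((f : ℝ) - i) ^ 2 * i * g i := by
    unfold S2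
    rw [mul_sum, ← mul_add, ← sum_add_distrib, mul_sum, mul_sum, ← sum_sub_distrib]
    refine sum_congr rfl fun i _ => ?_
    field_simp
    ring
  have e5 : 0 ≤ ∑ i ∈ range (f + 1), ((f : ℝ) - i) ^ 3 * g i := by
    refine sum_nonneg fun i hi => mul_nonneg (pow_nonneg ?_ 3) (h.nonneg i)
    have : i ≤ f := Nat.lt_succ_iff.mp (mem_range.mp hi)
    have : (i : ℝ) ≤ f := by exact_mod_cast this
    linarith
  have e4 : (1 + wm) * ((wm * T / (1 + wm) - f) * S2 g f)
      ≤ (1 + wm) * (2 * (wm * T / (1 + wm)) * S1 g f) := by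
    have : (1 + wm) * (2 * (wm * T / (1 + wm)) * S1 g f) = wm * (2 * T * S1 g f) := by
      field_simp
    rw [this]
    have h6 := mul_le_mul_of_nonneg_left e2 hwm.le
    have h7 := mul_nonneg hpos.le e5
    linarith
  exact le_of_mul_le_mul_left e4 hpos

/-- (I3) `(1 - p) f S0 ≤ (μ' - f + 1) S1 + S2`, `p = wp / (1 + wp)`, `μ' = p T`. -/
lemma I3 (h : Ratio g T wm wp) (hwp : 0 < wp) (f : ℕ) :
    (1 - wp / (1 + wp)) * f * S0 g f ≤ (wp * T / (1 + wp) - f + 1) * S1 g f + S2 g f := by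
  have hpos : 0 < 1 + wp := by linarith
  -- second order
  have key := sum_hi h f (fun i => (f : ℝ) - i) (fun i _ hi => by
    have : (i : ℝ) ≤ f := by exact_mod_cast hi
    linarith)
  have e1 : ∑ i ∈ range f, ((f : ℝ) - ((i + 1 : ℕ) : ℝ)) * (T - i) * g i
      = ∑ i ∈ range (f + 1), ((f : ℝ) - i) * (T - i) * g i - ∑ i ∈ range f, (T - i) * g i := by
    rw [sum_range_succ, ← sub_eq_zero]
    have : ((f : ℝ) - (f : ℕ)) * (T - (f : ℕ)) * g f = 0 := by simp
    rw [this, add_zero, ← sum_sub_distrib, ← sum_sub_distrib]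
    refine sum_eq_zero fun i _ => ?_
    push_cast; ring
  rw [e1] at key
  have e3 : (1 + wp) * ((wp * T / (1 + wp) - f) * S1 g f + S2 g f)
      = wp * ∑ i ∈ range (f + 1), ((f : ℝ) - i) * (T - i) * g i
        - ∑ i ∈ range (f + 1), ((f : ℝ) - i) * i * g i := by
    unfold S1 S2
    rw [mul_sum, mul_sum, ← sum_sub_distrib, ← sum_add_distrib, mul_sum]
    refine sum_congr rfl fun i _ => ?_
    field_simp
    ring
  -- lower bound for sum (T - i) g i
  have e2 : (T - f) * (S0 g f - g f) ≤ ∑ i ∈ range f, (T - i) * g i := by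
    unfold S0
    rw [sum_range_succ, add_sub_cancel_right, mul_sum]
    refine sum_le_sum fun i hi => mul_le_mul_of_nonneg_right ?_ (h.nonneg i)
    have : (i : ℝ) ≤ f := by exact_mod_cast (mem_range.mp hi).le
    linarith
  -- first order
  have key1 := sum_hi h f (fun _ => (1 : ℝ)) (fun i _ _ => zero_le_one)
  simp only [one_mul] at key1
  have f1 : ∑ i ∈ range f, (T - i) * g i = ∑ i ∈ range (f + 1), (T - i) * g i - (T - f) * g f := by
    rw [sum_range_succ]; ring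
  have f3 : (1 + wp) * ((wp * T / (1 + wp) - f) * S0 g f + S1 g f)
      = wp * ∑ i ∈ range (f + 1), (T - i) * g i - ∑ i ∈ range (f + 1), (i : ℝ) * g i := by
    unfold S0 S1
    rw [mul_sum, mul_sum, ← sum_sub_distrib, ← sum_add_distrib, mul_sum]
    refine sum_congr rfl fun i _ => ?_
    field_simp
    ring
  have g1 : wp * ((T - f) * g f) ≤ (1 + wp) * ((wp * T / (1 + wp) - f) * S0 g f + S1 g f) := by
    rw [f3]
    rw [f1] at key1
    linarith
  have g2 : wp * ((T - f) * (S0 g f - g f))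
      ≤ (1 + wp) * ((wp * T / (1 + wp) - f) * S1 g f + S2 g f) := by
    rw [e3]
    have := mul_le_mul_of_nonneg_left e2 hwp.le
    linarith
  have g3 : wp * (T - f) * S0 g f ≤ (1 + wp) * ((wp * T / (1 + wp) - f) * S0 g f + S1 g f)
      + (1 + wp) * ((wp * T / (1 + wp) - f) * S1 g f + S2 g f) := by
    linarith
  have e4 : (1 + wp) * ((1 - wp / (1 + wp)) * f * S0 g f)
      ≤ (1 + wp) * ((wp * T / (1 + wp) - f + 1) * S1 g f + S2 g f) := by
    have a1 : (1 + wp) * ((1 - wp / (1 + wp)) * f * S0 g f) = f * S0 g f := by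
      field_simp
      ring
    have a2 : (1 + wp) * ((wp * T / (1 + wp) - f) * S0 g f + S1 g f)
        = wp * T * S0 g f - (1 + wp) * f * S0 g f + (1 + wp) * S1 g f := by
      field_simp
    rw [a1]
    rw [a2] at g3
    linarith
  exact le_of_mul_le_mul_left e4 hpos

end Pool.Agent.CR53
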