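import Pool.Agent.CR53.SeqA

/-! Chernoff-type bounds for a sequence with ratio bounds. -/

set_option autoImplicit false

namespace Pool.Agent.CR53

open Finset

variable {g : ℕ → ℝ} {T wm wp : ℝ}

lemma S0_mono (h : Ratio g T wm wp) : Monotone (S0 g) := by
  intro a b hab
  unfold S0
  exact sum_le_sum_of_subset_of_nonneg (range_subset_range.mpr (by omega)) (fun i _ _ => h.nonneg i)

/-- one step of the Chernoff bound -/
lemma S0_step (h : Ratio g T wm wp) (hwm : 0 < wm) (m : ℕ)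
    (hm : ((m : ℝ) + 1) ≤ wm * T / (1 + wm)) :
    S0 g m ≤ Real.exp (((m : ℝ) + 1) / (wm * T / (1 + wm)) - 1) * S0 g (m + 1) := by
  set μ := wm * T / (1 + wm) with hμ
  have hm0 : (0 : ℝ) ≤ m := Nat.cast_nonneg m
  have hμ0 : 0 < μ := by linarith
  have hpos : 0 < 1 + wm := by linarith
  have hT : wm * T = (1 + wm) * μ := by rw [hμ]; field_simp
  have h1 : μ * S0 g m ≤ (m + 1) * S0 g (m + 1) := by
    have e : S0 g (m + 1) = ∑ i ∈ range (m + 1), g (i + 1) + g 0 := by
      unfold S0; rw [sum_range_succ']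
    rw [e, mul_add]
    have : μ * S0 g m ≤ (m + 1) * ∑ i ∈ range (m + 1), g (i + 1) := by
      unfold S0
      rw [mul_sum, mul_sum]
      refine sum_le_sum fun i hi => ?_
      have hi' : i ≤ m := Nat.lt_succ_iff.mp (mem_range.mp hi)
      have hi2 : (i : ℝ) ≤ m := by exact_mod_cast hi'
      have a1 : μ ≤ wm * (T - i) := by
        have : wm * (T - i) = μ + wm * (μ - i) := by
          have : wm * (T - i) = wm * T - wm * i := by ring
          rw [this, hT]; ring
        rw [this]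
        have : 0 ≤ wm * (μ - i) := mul_nonneg hwm.le (by linarith)
        linarith
      calc μ * g i ≤ wm * (T - i) * g i := mul_le_mul_of_nonneg_right a1 (h.nonneg i)
        _ ≤ (i + 1) * g (i + 1) := h.lo i
        _ ≤ (m + 1) * g (i + 1) := mul_le_mul_of_nonneg_right (by linarith) (h.nonneg _)
    have := mul_nonneg (by linarith : (0 : ℝ) ≤ m + 1) (h.nonneg 0)
    linarith
  have h2 : S0 g m ≤ ((m + 1) / μ) * S0 g (m + 1) := by
    rw [div_mul_eq_mul_div, le_div_iff₀ hμ0]; linarith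
  refine h2.trans (mul_le_mul_of_nonneg_right ?_ (S0_nonneg h _))
  have := Real.add_one_le_exp (((m : ℝ) + 1) / μ - 1)
  linarith

/-- Chernoff bound -/
lemma S0_chernoff (h : Ratio g T wm wp) (hwm : 0 < wm) (K : ℕ) : ∀ f : ℕ,
    (f : ℝ) + K ≤ wm * T / (1 + wm) → 0 < wm * T / (1 + wm) →
    S0 g f ≤ Real.exp (-(K * (K - 1) / (2 * (wm * T / (1 + wm))))) * S0 g (f + K) := by
  induction K with
  | zero => intro f _ _; simp
  | succ K ih =>
    intro f hf hμ0
    set μ := wm * T / (1 + wm) with hμ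
    push_cast at hf
    have hK : (0 : ℝ) ≤ K := Nat.cast_nonneg K
    have s1 := S0_step h hwm f (by rw [← hμ]; linarith)
    rw [← hμ] at s1
    have s2 := ih (f + 1) (by push_cast; linarith) hμ0
    have e : f + 1 + K = f + (K + 1) := by ring
    rw [e] at s2
    have hnn := S0_nonneg h (f + (K + 1))
    calc S0 g f ≤ Real.exp (((f : ℝ) + 1) / μ - 1) * S0 g (f + 1) := s1
      _ ≤ Real.exp (((f : ℝ) + 1) / μ - 1)
          * (Real.exp (-(K * (K - 1) / (2 * μ))) * S0 g (f + (K + 1))) :=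
        mul_le_mul_of_nonneg_left s2 (Real.exp_pos _).le
      _ = Real.exp (((f : ℝ) + 1) / μ - 1 + -(K * (K - 1) / (2 * μ))) * S0 g (f + (K + 1)) := by
        rw [Real.exp_add]; ring
      _ ≤ Real.exp (-(((K + 1 : ℕ) : ℝ) * (((K + 1 : ℕ) : ℝ) - 1) / (2 * μ)))
          * S0 g (f + (K + 1)) := by
        refine mul_le_mul_of_nonneg_right (Real.exp_le_exp.mpr ?_) hnn
        push_cast
        have a1 : ((f : ℝ) + 1) / μ - 1 ≤ -(K / μ) := by
          rw [div_sub_one hμ0.ne', ← neg_div]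
          exact div_le_div_of_nonneg_right (by linarith) hμ0.le
        have a2 : -(((K : ℝ) + 1) * ((K : ℝ) + 1 - 1) / (2 * μ))
            = -(K / μ) + -(K * (K - 1) / (2 * μ)) := by
          field_simp; ring
        linarith

/-- shifting a term down by `K` -/
lemma shift (h : Ratio g T wm wp) (hwp : 0 < wp) {m0 α : ℝ} (hm0 : 0 < m0)
    (hα : α ≤ wp * T / (1 + wp) + 1) (K : ℕ) : ∀ j : ℕ,
    α ≤ (j : ℝ) + K → m0 ≤ (j : ℝ) + 1 →
    g (j + K) ≤ Real.exp ((1 + wp) / m0 * (K * (wp * T / (1 + wp) + 1 - α) + (K : ℝ) ^ 2 / 2))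
      * g j := by
  set μ := wp * T / (1 + wp) with hμ
  have hpos : 0 < 1 + wp := by linarith
  have hT : wp * T = (1 + wp) * μ := by rw [hμ]; field_simp
  induction K with
  | zero => intro j _ _; simp
  | succ K ih =>
    intro j hj hj2
    push_cast at hj
    have hK : (0 : ℝ) ≤ K := Nat.cast_nonneg K
    have hj0 : (0 : ℝ) ≤ j := Nat.cast_nonneg j
    have s2 := ih (j + 1) (by push_cast; linarith) (by push_cast; linarith)
    have e : j + 1 + K = j + (K + 1) := by ring
    rw [e] at s2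
    -- one step
    have s1 : g (j + 1) ≤ Real.exp ((1 + wp) / m0 * (μ + 1 - α + K)) * g j := by
      have a0 := h.hi j
      have hj1 : (0 : ℝ) < (j : ℝ) + 1 := by linarith
      have a1 : g (j + 1) ≤ (wp * (T - j) / (j + 1)) * g j := by
        rw [div_mul_eq_mul_div, le_div_iff₀ hj1]; linarith
      refine a1.trans (mul_le_mul_of_nonneg_right ?_ (h.nonneg j))
      have a2 : wp * (T - j) / (j + 1) ≤ 1 + (1 + wp) / m0 * (μ + 1 - α + K) := by
        have b1 : wp * (T - j) = (1 + wp) * μ - wp * j := by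
          have : wp * (T - j) = wp * T - wp * j := by ring
          rw [this, hT]
        have b2 : wp * (T - j) ≤ (j + 1) + (1 + wp) * (μ + 1 - α + K) := by
          rw [b1]
          have : (1 + wp) * (μ + 1 - α + K) ≥ (1 + wp) * (μ + 1 - (j + 1)) :=
            mul_le_mul_of_nonneg_left (by linarith) hpos.le
          nlinarith
        have b3 : wp * (T - j) / (j + 1) ≤ ((j + 1) + (1 + wp) * (μ + 1 - α + K)) / (j + 1) :=
          div_le_div_of_nonneg_right b2 hj1.le
        have b4 : ((j + 1) + (1 + wp) * (μ + 1 - α + K)) / (j + 1)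
            = 1 + (1 + wp) * (μ + 1 - α + K) / ((j : ℝ) + 1) := by
          field_simp
        rw [b4] at b3
        refine b3.trans ?_
        have b5 : (1 + wp) * (μ + 1 - α + K) / ((j : ℝ) + 1)
            ≤ (1 + wp) * (μ + 1 - α + K) / m0 :=
          div_le_div_of_nonneg_left (mul_nonneg hpos.le (by linarith)) hm0 hj2
        have b6 : (1 + wp) * (μ + 1 - α + K) / m0 = (1 + wp) / m0 * (μ + 1 - α + K) := by ring
        linarith
      have := Real.add_one_le_exp ((1 + wp) / m0 * (μ + 1 - α + K))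
      linarith
    calc g (j + (K + 1)) ≤ Real.exp ((1 + wp) / m0 * (K * (μ + 1 - α) + (K : ℝ) ^ 2 / 2))
          * g (j + 1) := s2
      _ ≤ Real.exp ((1 + wp) / m0 * (K * (μ + 1 - α) + (K : ℝ) ^ 2 / 2))
          * (Real.exp ((1 + wp) / m0 * (μ + 1 - α + K)) * g j) :=
        mul_le_mul_of_nonneg_left s1 (Real.exp_pos _).le
      _ = Real.exp ((1 + wp) / m0 * (K * (μ + 1 - α) + (K : ℝ) ^ 2 / 2)
          + (1 + wp) / m0 * (μ + 1 - α + K)) * g j := by
        rw [Real.exp_add]; ring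
      _ ≤ _ := by
        refine mul_le_mul_of_nonneg_right (Real.exp_le_exp.mpr ?_) (h.nonneg j)
        push_cast
        rw [← mul_add]
        refine mul_le_mul_of_nonneg_left ?_ (div_nonneg hpos.le hm0.le)
        nlinarith

/-- second moment about `μ'` -/
lemma second_moment (h : Ratio g T wm wp) (hwm : 0 < wm) (hwp : 0 < wp) (T' : ℕ) (hT : T = T')
    (htot : ∑ i ∈ range (T' + 1), g i = 1)
    (hd : wp * T / (1 + wp) - wm * T / (1 + wm) ≤ 1) :
    ∑ i ∈ range (T' + 1), ((i : ℝ) - wp * T / (1 + wp)) ^ 2 * g i ≤ 2 * (wp * T / (1 + wp)) := by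
  set μ := wp * T / (1 + wp) with hμ
  have hposm : 0 < 1 + wm := by linarith
  have hposp : 0 < 1 + wp := by linarith
  have hTμ : wp * T = (1 + wp) * μ := by rw [hμ]; field_simp
  have hT0 : 0 ≤ T := by rw [hT]; exact Nat.cast_nonneg _
  have hμ0 : 0 ≤ μ := by rw [hμ]; positivity
  set M := ∑ i ∈ range (T' + 1), (i : ℝ) * g i with hM
  set Q := ∑ i ∈ range (T' + 1), (i : ℝ) ^ 2 * g i with hQ
  have last : ∀ φ : ℕ → ℝ, ∑ i ∈ range T', φ i * (T - i) * g i
      = ∑ i ∈ range (T' + 1), φ i * (T - i) * g i := by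
    intro φ
    rw [sum_range_succ]
    have : φ T' * (T - (T' : ℝ)) * g T' = 0 := by rw [hT]; simp
    rw [this, add_zero]
  have k1 := sum_hi h T' (fun _ => (1 : ℝ)) (fun i _ _ => zero_le_one)
  have k2 := sum_lo h T' (fun _ => (1 : ℝ)) (fun i _ _ => zero_le_one)
  have k3 := sum_hi h T' (fun i => (i : ℝ) - 1) (fun i hi _ => by
    have : (1 : ℝ) ≤ i := by exact_mod_cast hi
    linarith)
  have l1 : ∑ i ∈ range T', (1 : ℝ) * (T - i) * g i = T - M := by
    rw [last (fun _ => 1)]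
    have : ∑ i ∈ range (T' + 1), (1 : ℝ) * (T - i) * g i
        = T * ∑ i ∈ range (T' + 1), g i - M := by
      rw [hM, mul_sum, ← sum_sub_distrib]
      exact sum_congr rfl fun i _ => by ring
    rw [this, htot, mul_one]
  have l2 : ∑ i ∈ range (T' + 1), (1 : ℝ) * i * g i = M := by
    rw [hM]; exact sum_congr rfl fun i _ => by ring
  have l3 : ∑ i ∈ range T', (((i + 1 : ℕ) : ℝ) - 1) * (T - i) * g i = T * M - Q := by
    have : ∑ i ∈ range T', (((i + 1 : ℕ) : ℝ) - 1) * (T - i) * g i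
        = ∑ i ∈ range T', (i : ℝ) * (T - i) * g i :=
      sum_congr rfl fun i _ => by push_cast; ring
    rw [this, last (fun i => (i : ℝ)), hM, hQ, mul_sum, ← sum_sub_distrib]
    exact sum_congr rfl fun i _ => by ring
  have l4 : ∑ i ∈ range (T' + 1), ((i : ℝ) - 1) * i * g i = Q - M := by
    rw [hM, hQ, ← sum_sub_distrib]
    exact sum_congr rfl fun i _ => by ring
  rw [l2, l1] at k1 k2
  rw [l4, l3] at k3
  -- M ≤ μ
  have m1 : M ≤ μ := by
    have : (1 + wp) * M ≤ (1 + wp) * μ := by rw [← hTμ]; linarith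
    exact le_of_mul_le_mul_left this hposp
  have m2 : μ - 1 ≤ M := by
    have : wm * T / (1 + wm) ≤ M := by
      rw [div_le_iff₀ hposm]; linarith
    linarith
  have hM0 : 0 ≤ M := sum_nonneg fun i _ => mul_nonneg (Nat.cast_nonneg i) (h.nonneg i)
  have m3 : Q ≤ M + μ * M := by
    have : (1 + wp) * Q ≤ (1 + wp) * (M + μ * M) := by
      have e : (1 + wp) * (M + μ * M) = M + wp * M + (wp * T) * M := by rw [hTμ]; ring
      rw [e]
      have := mul_nonneg hwp.le hM0
      linarith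
    exact le_of_mul_le_mul_left this hposp
  have e : ∑ i ∈ range (T' + 1), ((i : ℝ) - μ) ^ 2 * g i = Q - 2 * μ * M + μ ^ 2 := by
    have : μ ^ 2 = μ ^ 2 * ∑ i ∈ range (T' + 1), g i := by rw [htot, mul_one]
    rw [this, hQ, hM, mul_sum, mul_sum, ← sum_sub_distrib, ← sum_add_distrib]
    exact sum_congr rfl fun i _ => by ring
  rw [e]
  nlinarith [mul_le_mul_of_nonneg_left m2 hμ0]

/-- at least half of the mass is within `2 √μ'` of `μ'`. -/
lemma half_mass (h : Ratio g T wm wp) (hwm : 0 < wm) (hwp : 0 < wp) (T' : ℕ) (hT : T = T')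
    (htot : ∑ i ∈ range (T' + 1), g i = 1)
    (hd : wp * T / (1 + wp) - wm * T / (1 + wm) ≤ 1) (hμ0 : 0 < wp * T / (1 + wp)) :
    1 / 2 ≤ ∑ i ∈ (range (T' + 1)).filter
      (fun i : ℕ => |(i : ℝ) - wp * T / (1 + wp)| ≤ 2 * Real.sqrt (wp * T / (1 + wp))), g i := by
  have hs := second_moment h hwm hwp T' hT htot hd
  set μ := wp * T / (1 + wp) with hμ
  have hsq : Real.sqrt μ ^ 2 = μ := Real.sq_sqrt hμ0.le
  have h1 : ∑ i ∈ (range (T' + 1)).filter
      (fun i : ℕ => ¬ |(i : ℝ) - μ| ≤ 2 * Real.sqrt μ), g i ≤ 1 / 2 := by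
    have h2 : 4 * μ * ∑ i ∈ (range (T' + 1)).filter
        (fun i : ℕ => ¬ |(i : ℝ) - μ| ≤ 2 * Real.sqrt μ), g i ≤ 2 * μ := by
      rw [mul_sum]
      calc ∑ i ∈ (range (T' + 1)).filter (fun i : ℕ => ¬ |(i : ℝ) - μ| ≤ 2 * Real.sqrt μ),
            4 * μ * g i
          ≤ ∑ i ∈ (range (T' + 1)).filter (fun i : ℕ => ¬ |(i : ℝ) - μ| ≤ 2 * Real.sqrt μ),
            ((i : ℝ) - μ) ^ 2 * g i := by
            refine sum_le_sum fun i hi => mul_le_mul_of_nonneg_right ?_ (h.nonneg i)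
            have h3 := (mem_filter.mp hi).2
            push Not at h3
            have h4 : (2 * Real.sqrt μ) ^ 2 ≤ |(i : ℝ) - μ| ^ 2 :=
              pow_le_pow_left₀ (by positivity) h3.le 2
            rw [sq_abs, mul_pow, hsq] at h4
            linarith
        _ ≤ ∑ i ∈ range (T' + 1), ((i : ℝ) - μ) ^ 2 * g i :=
            sum_le_sum_of_subset_of_nonneg (filter_subset _ _)
              (fun i _ _ => mul_nonneg (sq_nonneg _) (h.nonneg i))
        _ ≤ 2 * μ := hs
    nlinarith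
  have h2 := sum_filter_add_sum_filter_not (range (T' + 1))
    (fun i : ℕ => |(i : ℝ) - μ| ≤ 2 * Real.sqrt μ) g
  rw [htot] at h2
  linarith

/-- lower bound for `S0` far below the mean -/
lemma S0_lower (h : Ratio g T wm wp) (hwm : 0 < wm) (hwp : 0 < wp) (T' : ℕ) (hT : T = T')
    (htot : ∑ i ∈ range (T' + 1), g i = 1)
    (hd : wp * T / (1 + wp) - wm * T / (1 + wm) ≤ 1) (hμ0 : 0 < wp * T / (1 + wp)) (f K : ℕ)
    (hb : wp * T / (1 + wp) + 2 * Real.sqrt (wp * T / (1 + wp)) ≤ (f : ℝ) + K)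
    (ha : (K : ℝ) ≤ wp * T / (1 + wp) - 2 * Real.sqrt (wp * T / (1 + wp))) :
    1 / 2 * Real.exp (-((1 + wp) / (wp * T / (1 + wp) - 2 * Real.sqrt (wp * T / (1 + wp)) - K + 1)
      * (K * (2 * Real.sqrt (wp * T / (1 + wp)) + 1) + (K : ℝ) ^ 2 / 2))) ≤ S0 g f := by
  have hm := half_mass h hwm hwp T' hT htot hd hμ0
  have hsh := @shift g T wm wp h hwp
    (wp * T / (1 + wp) - 2 * Real.sqrt (wp * T / (1 + wp)) - K + 1)
    (wp * T / (1 + wp) - 2 * Real.sqrt (wp * T / (1 + wp))) (by linarith)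
    (by have := Real.sqrt_nonneg (wp * T / (1 + wp)); linarith) K
  set μ := wp * T / (1 + wp) with hμ
  have e0 : μ + 1 - (μ - 2 * Real.sqrt μ) = 2 * Real.sqrt μ + 1 := by ring
  rw [e0] at hsh
  set X := (1 + wp) / (μ - 2 * Real.sqrt μ - K + 1)
    * (K * (2 * Real.sqrt μ + 1) + (K : ℝ) ^ 2 / 2) with hX
  have h1 : ∑ i ∈ (range (T' + 1)).filter
      (fun i : ℕ => |(i : ℝ) - μ| ≤ 2 * Real.sqrt μ), g i ≤ Real.exp X * S0 g f := by
    have hsub : (range (T' + 1)).filter (fun i : ℕ => |(i : ℝ) - μ| ≤ 2 * Real.sqrt μ)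
        ⊆ (Ico K (f + 1 + K)).filter (fun i : ℕ => μ - 2 * Real.sqrt μ ≤ i) := by
      intro i hi
      have h3 := abs_le.mp (mem_filter.mp hi).2
      rw [mem_filter, mem_Ico]
      refine ⟨⟨?_, ?_⟩, by linarith [h3.1]⟩
      · have : (K : ℝ) ≤ i := by linarith [h3.1]
        exact_mod_cast this
      · have : (i : ℝ) ≤ (f : ℝ) + K := by linarith [h3.2]
        have : i ≤ f + K := by exact_mod_cast this
        omega
    refine (sum_le_sum_of_subset_of_nonneg hsub (fun i _ _ => h.nonneg i)).trans ?_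
    rw [sum_filter, sum_Ico_eq_sum_range]
    have e1 : f + 1 + K - K = f + 1 := by omega
    rw [e1]
    unfold S0
    rw [mul_sum]
    refine sum_le_sum fun j _ => ?_
    split_ifs with hc
    · have hc' : μ - 2 * Real.sqrt μ ≤ (j : ℝ) + K := by push_cast at hc; linarith
      have := hsh j hc' (by linarith)
      rw [add_comm K j]
      exact this
    · exact mul_nonneg (Real.exp_pos _).le (h.nonneg j)
  have h2 : 1 / 2 ≤ Real.exp X * S0 g f := hm.trans h1
  rw [Real.exp_neg]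
  have hp := Real.exp_pos X
  rw [← div_eq_mul_inv, div_le_iff₀ hp]
  linarith

end Pool.Agent.CR53
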