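import Pool.Agent.CR53.Mart

/-! The tail bound for the future minimum and its almost sure consequences. -/

set_option autoImplicit false

namespace Pool.Agent.CR53

open MeasureTheory ProbabilityTheory Filter Topology Finset

variable {Ω : Type*} [mΩ : MeasurableSpace Ω] {μ : Measure Ω} {E : ℕ → Set Ω}

/-- the bad event -/
def bad (E : ℕ → Set Ω) (ε : ℝ) (n : ℕ) : Set Ω :=
  {ω | mu n - (1 - ε) * Real.sqrt n < (FF E (n + 1) ω : ℝ)}

lemma mu_shift {n j : ℕ} (hn : 3 ≤ n) (hj : n ≤ j) (hj2 : ((j : ℝ) - n) ≤ Real.sqrt n) :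
    mu j ≤ mu n + Real.sqrt n * (1 / Real.log n) := by
  have hL := log_ge_one hn
  have hnn : (3 : ℝ) ≤ n := by exact_mod_cast hn
  have hjj : (n : ℝ) ≤ j := by exact_mod_cast hj
  have h1 : mu j ≤ (j : ℝ) / Real.log n := by
    unfold mu
    exact div_le_div_of_nonneg_left (by linarith) (by linarith)
      (Real.log_le_log (by linarith) hjj)
  have h2 : (j : ℝ) / Real.log n = mu n + ((j : ℝ) - n) * (1 / Real.log n) := by
    unfold mu; field_simp; ring
  rw [h2] at h1
  refine h1.trans (add_le_add le_rfl (mul_le_mul_of_nonneg_right hj2 (by positivity)))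

lemma exp_small {η : ℝ} (hη : 0 < η) :
    ∀ᶠ n : ℕ in atTop, Real.exp (-(1 / 4 * (n : ℝ) ^ (η / 2))) ≤ (n : ℝ) ^ (-(4 : ℝ)) := by
  have h := (isLittleO_log_rpow_atTop (show (0 : ℝ) < η / 2 by positivity)).tendsto_div_nhds_zero
  have h2 := h.comp tendsto_natCast_atTop_atTop (α := ℕ)
  filter_upwards [h2.eventually_lt_const (show (0 : ℝ) < 1 / 16 by norm_num),
    eventually_ge_atTop 1] with n hn h1
  have hn1 : (1 : ℝ) ≤ n := by exact_mod_cast h1
  simp only [Function.comp] at hn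
  rw [div_lt_iff₀ (Real.rpow_pos_of_pos (by linarith) _)] at hn
  have e : (n : ℝ) ^ (-(4 : ℝ)) = Real.exp (Real.log n * -4) :=
    Real.rpow_def_of_pos (by linarith) _
  rw [e]
  refine Real.exp_le_exp.mpr ?_
  linarith

theorem tail_bound [IsProbabilityMeasure μ] (hE : ∀ m, MeasurableSet (E m)) (hi : iIndepSet E μ)
    (hg : Laws (fun n => law μ E (blk n))) {ε : ℝ} (h0 : 0 < ε) (h1 : ε < 1) :
    ∀ᶠ n : ℕ in atTop, μ.real (bad E ε n) ≤ (n : ℝ) ^ (-(4 : ℝ)) := by
  have hA5 := A5 hg (η := ε / 2) (by linarith) (by linarith)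
  obtain ⟨n0, hn0⟩ := eventually_atTop.mp hA5
  filter_upwards [eventually_ge_atTop 3, eventually_ge_atTop n0, t_sqrt.eventually_ge_atTop 2,
    t_invlog.eventually_lt_const (show (0 : ℝ) < ε / 2 by linarith),
    exp_small (show 0 < ε / 2 by linarith),
    t_lam.eventually_lt_const (show (0 : ℝ) < 1 by norm_num)] with n hn hnn0 hs hl hx hlam
  have hL := log_ge_one hn
  have hnn : (3 : ℝ) ≤ n := by exact_mod_cast hn
  set s := Real.sqrt n with hs'
  have hss : s ^ 2 = n := Real.sq_sqrt (by linarith)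
  set x := mu n - (1 - ε) * s with hxdef
  have hx0 : 0 ≤ x := by
    have hlm := lam_mul_mu (show 2 ≤ n by omega)
    have hmu := mu_pos (show 2 ≤ n by omega)
    have : s ≤ mu n := by
      rw [hs', ← hlm]
      nlinarith
    rw [hxdef]
    have : (1 - ε) * s ≤ 1 * s := mul_le_mul_of_nonneg_right (by linarith) (by linarith)
    linarith
  set f := ⌊x⌋₊ with hf
  set M := ⌊s⌋₊ with hM
  have hf1 : (f : ℝ) ≤ x := Nat.floor_le hx0
  have hf2 : x < (f : ℝ) + 1 := Nat.lt_floor_add_one x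
  have hM1 : (M : ℝ) ≤ s := Nat.floor_le (by linarith)
  have hM2 : s < (M : ℝ) + 1 := Nat.lt_floor_add_one s
  have hsub : bad E ε n ⊆ {ω | ∀ j ∈ Ico (n + 1) (n + 1 + M), f < NN E j ω} := by
    intro ω hω j hj
    have h2 : x < (FF E (n + 1) ω : ℝ) := hω
    have h3 : f < FF E (n + 1) ω := by
      have : (f : ℝ) < (FF E (n + 1) ω : ℝ) := by linarith
      exact_mod_cast this
    exact lt_of_lt_of_le h3 (fut_le (mem_Ico.mp hj).1)
  have hb := (measureReal_mono (μ := μ) hsub).trans (prod_bound hE hi hg f M (n + 1))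
  refine hb.trans (le_trans (Real.exp_le_exp.mpr (neg_le_neg ?_)) hx)
  -- sum lower bound
  have hterm : ∀ j ∈ Ico (n + 1) (n + 1 + M),
      1 / 2 * (n : ℝ) ^ (-((1 - ε / 2) / 2)) ≤ S0 (law μ E (blk j)) f := by
    intro j hj
    rw [mem_Ico] at hj
    have hj1 : n ≤ j := by omega
    have hj3 : (j : ℝ) ≤ n + M := by
      have : j ≤ n + M := by omega
      exact_mod_cast this
    have hj2 : ((j : ℝ) - n) ≤ s := by linarith
    have hjn : (n : ℝ) ≤ j := by exact_mod_cast hj1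
    have hms := mu_shift hn hj1 (by rw [← hs']; exact hj2)
    rw [← hs'] at hms
    have hsj : s ≤ Real.sqrt j := Real.sqrt_le_sqrt hjn
    have hcond : mu j - (1 - ε / 2) * Real.sqrt j ≤ (f : ℝ) + 1 := by
      have a1 : (1 - ε / 2) * s ≤ (1 - ε / 2) * Real.sqrt j :=
        mul_le_mul_of_nonneg_left hsj (by linarith)
      have a2 : s * (1 / Real.log n) ≤ s * (ε / 2) :=
        mul_le_mul_of_nonneg_left hl.le (by linarith)
      have a3 : mu j - (1 - ε / 2) * Real.sqrt j ≤ x := by rw [hxdef]; linarith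
      linarith
    have h5 := hn0 j (by omega) f hcond
    refine le_trans ?_ h5
    have hj4 : (j : ℝ) ≤ 2 * n := by nlinarith
    have b1 : ((2 : ℝ) * n) ^ (-((1 - ε / 2) / 2)) ≤ (j : ℝ) ^ (-((1 - ε / 2) / 2)) :=
      Real.rpow_le_rpow_of_nonpos (by linarith) hj4 (by linarith)
    refine le_trans ?_ b1
    rw [Real.mul_rpow (by norm_num) (by linarith)]
    refine mul_le_mul_of_nonneg_right ?_ (Real.rpow_nonneg (by linarith) _)
    have b2 : (2 : ℝ) ^ (-(1 : ℝ)) ≤ (2 : ℝ) ^ (-((1 - ε / 2) / 2)) :=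
      Real.rpow_le_rpow_of_exponent_le (by norm_num) (by linarith)
    rw [Real.rpow_neg_one] at b2
    linarith
  have hsum := sum_le_sum hterm
  rw [sum_const, Nat.card_Ico, nsmul_eq_mul] at hsum
  have hc : ((n + 1 + M - (n + 1) : ℕ) : ℝ) = M := by
    congr 1; omega
  rw [hc] at hsum
  refine le_trans ?_ hsum
  have hp : 0 < (n : ℝ) ^ (-((1 - ε / 2) / 2)) := Real.rpow_pos_of_pos (by linarith) _
  have e1 : (n : ℝ) ^ (ε / 2 / 2) = s * (n : ℝ) ^ (-((1 - ε / 2) / 2)) := by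
    rw [hs', Real.sqrt_eq_rpow, ← Real.rpow_add (by linarith)]
    congr 1; ring
  rw [e1]
  have hM3 : s / 2 ≤ M := by linarith
  have := mul_le_mul_of_nonneg_right hM3 (by positivity : (0 : ℝ) ≤ 1 / 2 * (n : ℝ) ^ (-((1 - ε / 2) / 2)))
  linarith

lemma bad_meas (hE : ∀ m, MeasurableSet (E m)) (ε : ℝ) (n : ℕ) : MeasurableSet (bad E ε n) := by
  have h1 : Measurable (FF E (n + 1)) :=
    (FF_meas (E := E) (n := n + 1) (S := Set.Ioi ((n + 1) ^ 2)) subset_rfl).mono
      (sig_le hE _) le_rfl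
  have h2 : Measurable (fun ω => (FF E (n + 1) ω : ℝ)) := disc1 (fun k => (k : ℝ)) h1
  exact h2 measurableSet_Ioi

/-- Borel-Cantelli with eventual polynomial bounds -/
lemma bc_real [IsProbabilityMeasure μ] {B : ℕ → Set Ω} {p : ℝ} (hp : 1 < p)
    (h : ∀ᶠ n : ℕ in atTop, μ.real (B n) ≤ (n : ℝ) ^ (-p)) :
    ∀ᵐ ω ∂μ, ∀ᶠ n in atTop, ω ∉ B n := by
  refine ae_eventually_notMem ?_
  have hs : Summable (fun n : ℕ => μ.real (B n)) := by
    obtain ⟨N, hN⟩ := eventually_atTop.mp h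
    have h1 : Summable (fun n : ℕ => ((n : ℝ)) ^ (-p)) := Real.summable_nat_rpow.mpr (by linarith)
    rw [← summable_nat_add_iff N]
    rw [← summable_nat_add_iff N] at h1
    exact Summable.of_nonneg_of_le (fun n => measureReal_nonneg) (fun n => hN (n + N) (by omega)) h1
  have e : ∀ n, μ (B n) = ENNReal.ofReal (μ.real (B n)) := fun n => by
    rw [Measure.real, ENNReal.ofReal_toReal (measure_ne_top _ _)]
  simp only [e]
  exact hs.tsum_ofReal_ne_top

/-- almost surely the future minimum is eventually below `n / log n - (1 - ε) √n` -/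
theorem as_upper [IsProbabilityMeasure μ] (hE : ∀ m, MeasurableSet (E m)) (hi : iIndepSet E μ)
    (hg : Laws (fun n => law μ E (blk n))) {ε : ℝ} (h0 : 0 < ε) (h1 : ε < 1) :
    ∀ᵐ ω ∂μ, ∀ᶠ n : ℕ in atTop, (FF E (n + 1) ω : ℝ) ≤ mu n - (1 - ε) * Real.sqrt n := by
  have h := bc_real (μ := μ) (B := bad E ε) (p := 4) (by norm_num) (tail_bound hE hi hg h0 h1)
  filter_upwards [h] with ω hω
  filter_upwards [hω] with n hn
  by_contra hc
  push Not at hc
  exact hn hc

/-- almost surely eventually `n / log n - 3 √n < N_n` -/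
theorem as_lower [IsProbabilityMeasure μ] (hE : ∀ m, MeasurableSet (E m))
    (hg : Laws (fun n => law μ E (blk n))) :
    ∀ᵐ ω ∂μ, ∀ᶠ n : ℕ in atTop, mu n - 3 * Real.sqrt n < (NN E n ω : ℝ) := by
  have hA := A4 hg (c := 3) (κ := 2) (by norm_num) (by norm_num)
  have h2 : ∀ᶠ n : ℕ in atTop, μ.real {ω | (NN E n ω : ℝ) ≤ mu n - 3 * Real.sqrt n}
      ≤ (n : ℝ) ^ (-(2 : ℝ)) := by
    filter_upwards [hA, eventually_ge_atTop 3, t_lam.eventually_lt_const (show (0 : ℝ) < 1 / 3 by norm_num)]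
      with n hn h3 hlam
    have hnn : (3 : ℝ) ≤ n := by exact_mod_cast h3
    have hx0 : 0 ≤ mu n - 3 * Real.sqrt n := by
      have hlm := lam_mul_mu (show 2 ≤ n by omega)
      have hmu := mu_pos (show 2 ≤ n by omega)
      rw [← hlm]
      nlinarith
    set f := ⌊mu n - 3 * Real.sqrt n⌋₊ with hf
    have hf1 : (f : ℝ) ≤ mu n - 3 * Real.sqrt n := Nat.floor_le hx0
    refine le_trans ?_ (hn f hf1)
    unfold S0
    rw [sum_law hE]
    refine measureReal_mono ?_
    intro ω hω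
    exact Nat.le_floor hω
  have h := bc_real (μ := μ) (p := 2) (by norm_num) h2
  filter_upwards [h] with ω hω
  filter_upwards [hω] with n hn
  by_contra hc
  push Not at hc
  exact hn hc

end Pool.Agent.CR53
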